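import Mathlib
import Pool.Agent.H386R2.Artin.BadCount
import Pool.Agent.H386R2.Artin.Average

set_option autoImplicit false

/-! # Few bad primes for thin sets of primes, power-saving version -/

namespace Pool.Agent.W171.EP

open Finset Filter Topology
open scoped Nat
open Pool.Agent.H386R2.Artin (PP Good badCount)

/-- the parameters: `δ` and `c` -/
lemma paramsP {α θ₀ : ℝ} (hα : 0 < α) (hθ₀ : 1 / 2 + α < θ₀) :
    ∃ c δ : ℝ, 0 < c ∧ 0 < δ ∧ δ ≤ 1 / 8 ∧ 1 - θ₀ + (1 + 2 * c) * α ≤ 1 / 2 - 2 * δ := by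
  refine ⟨(θ₀ - 1 / 2 - α) / (4 * α), min (1 / 8) ((θ₀ - 1 / 2 - α) / 4), ?_, ?_, ?_, ?_⟩
  · have : 0 < θ₀ - 1 / 2 - α := by linarith
    positivity
  · have : 0 < θ₀ - 1 / 2 - α := by linarith
    exact lt_min (by norm_num) (by positivity)
  · exact min_le_left _ _
  · have h1 : min (1 / 8 : ℝ) ((θ₀ - 1 / 2 - α) / 4) ≤ (θ₀ - 1 / 2 - α) / 4 := min_le_right _ _
    have h2 : (1 + 2 * ((θ₀ - 1 / 2 - α) / (4 * α))) * α = α + (θ₀ - 1 / 2 - α) / 2 := by
      field_simp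
      ring
    rw [h2]
    linarith

open Classical in
theorem fewBadP {α θ₀ c₀ : ℝ} (hα : 0 < α) (hθ₀ : 1 / 2 + α < θ₀) (hc₀ : 0 < c₀) :
    ∃ c δ : ℝ, 0 < c ∧ 0 < δ ∧ ∃ N₁ : ℕ, ∀ y x : ℕ, N₁ ≤ y →
      (Real.log y) ^ (1 + c₀) ≤ Real.log x → Real.log x ≤ (y : ℝ) ^ α →
      ∀ E : Finset ℕ, (∀ q ∈ E, q.Prime ∧ q ≤ y) → (y : ℝ) ^ θ₀ ≤ (#E : ℝ) →
        (#{p ∈ PP x | ¬ Good E ((#E : ℝ) / (Real.log x) ^ c) p} : ℝ) ≤
          12 * (x : ℝ) ^ (1 - δ) := by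
  obtain ⟨c, δ, hc, hδ, hδ8, hpar⟩ := paramsP hα hθ₀
  refine ⟨c, δ, hc, hδ, ?_⟩
  have hlog : Tendsto (fun y : ℕ => Real.log (y : ℝ)) atTop atTop :=
    Real.tendsto_log_atTop.comp tendsto_natCast_atTop_atTop
  have hev := (hlog.eventually_ge_atTop 3).and
    (((tendsto_rpow_atTop hc₀).comp hlog).eventually_ge_atTop (1 / δ))
  obtain ⟨N₁, hN₁⟩ := eventually_atTop.1 hev
  refine ⟨N₁, fun y x hy hyx hxy E hE hEc => ?_⟩
  obtain ⟨hY3, hYc⟩ := hN₁ y hy
  simp only [Function.comp] at hYc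
  set X : ℝ := Real.log x with hX
  set Y : ℝ := Real.log y with hY
  have hY0 : 0 < Y := by linarith
  have hy1 : (1 : ℝ) < y := by
    by_contra hcon
    have : Y ≤ 0 := by
      rcases Nat.eq_zero_or_pos y with h0 | h0
      · rw [hY, h0]; simp
      · have : (1 : ℝ) ≤ y := by exact_mod_cast h0
        have h1 : (y : ℝ) = 1 := by push Not at hcon; linarith
        rw [hY, h1]; simp
    linarith
  have hy0 : (0 : ℝ) < y := by linarith
  -- Y ≤ δ X
  have hYX' : Y * (1 / δ) ≤ X := by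
    calc Y * (1 / δ) ≤ Y * Y ^ c₀ := by gcongr
      _ = Y ^ (1 + c₀) := by rw [Real.rpow_add hY0, Real.rpow_one]
      _ ≤ X := hyx
  have hYX : Y ≤ δ * X := by
    rw [mul_one_div, div_le_iff₀ hδ] at hYX'
    linarith
  have hX0 : 0 < X := by
    by_contra hcon
    push Not at hcon
    nlinarith
  have hX1 : 1 ≤ X := by nlinarith
  have hx1 : (1 : ℝ) < x := by
    by_contra hcon
    have : X ≤ 0 := by
      rcases Nat.eq_zero_or_pos x with h0 | h0
      · rw [hX, h0]; simp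
      · have : (1 : ℝ) ≤ x := by exact_mod_cast h0
        have h1 : (x : ℝ) = 1 := by push Not at hcon; linarith
        rw [hX, h1]; simp
    linarith
  have hx0 : (0 : ℝ) < x := by linarith
  set LL : ℝ := Real.log X with hLL
  have hLL0 : 0 ≤ LL := Real.log_nonneg hX1
  have hLLα : LL ≤ α * Y := by
    have := Real.log_le_log hX0 hxy
    rwa [Real.log_rpow hy0] at this
  set e : ℝ := (#E : ℝ) with he
  have he0 : 0 < e := lt_of_lt_of_le (by positivity) hEc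
  -- r
  set r : ℕ := ⌈2 * X / Y⌉₊ with hr
  have hr1 : 2 * X / Y ≤ r := Nat.le_ceil _
  have hr2 : (r : ℝ) ≤ 2 * X / Y + 1 := (Nat.ceil_lt_add_one (by positivity)).le
  have hr0 : (0 : ℝ) < r := lt_of_lt_of_le (by positivity) hr1
  have hr3 : (r : ℝ) ≤ X := by
    have h1 : 2 * X / Y ≤ 2 * X / 3 := by gcongr
    have h2 : 3 ≤ X := by nlinarith
    linarith
  have hpow : x ^ 2 ≤ y ^ r := by
    have h1 : Real.log ((x : ℝ) ^ 2) ≤ Real.log ((y : ℝ) ^ r) := by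
      rw [Real.log_pow, Real.log_pow]
      rw [div_le_iff₀ hY0] at hr1
      push_cast
      exact hr1
    have h2 := (Real.log_le_log_iff (by positivity) (by positivity)).1 h1
    exact_mod_cast h2
  have hXc : 0 < X ^ c := Real.rpow_pos_of_pos hX0 _
  have hM : 0 < e / X ^ c := by positivity
  have hB := badCount E y x r (e / X ^ c) hE hM hpow
  set B : ℝ := (#{p ∈ PP x | ¬ Good E (e / X ^ c) p} : ℝ) with hBdef
  set M : ℝ := e / X ^ c with hMdef
  set K : ℝ := (y : ℝ) ^ (1 - θ₀) * X * X ^ (2 * c) with hK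
  have hK0 : 0 < K := by positivity
  have key : (y : ℝ) * r * e ≤ K * M ^ 2 := by
    have h1 : K * M ^ 2 = (y : ℝ) ^ (1 - θ₀) * X * e * e := by
      have e1 : X ^ (2 * c) = (X ^ c) ^ 2 := by
        rw [mul_comm 2 c, Real.rpow_mul hX0.le]
        norm_cast
      rw [hK, hMdef, e1]
      field_simp
    have h2 : (y : ℝ) ^ (1 - θ₀) * (y : ℝ) ^ θ₀ = (y : ℝ) := by
      rw [← Real.rpow_add hy0, sub_add_cancel, Real.rpow_one]
    rw [h1]
    apply mul_le_mul_of_nonneg_right _ he0.le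
    calc (y : ℝ) * r = (y : ℝ) ^ (1 - θ₀) * (y : ℝ) ^ θ₀ * r := by rw [h2]
      _ ≤ (y : ℝ) ^ (1 - θ₀) * e * X := by gcongr
      _ = (y : ℝ) ^ (1 - θ₀) * X * e := by ring
  have hfac : (r ! : ℝ) ≤ (r : ℝ) ^ r := by exact_mod_cast Nat.factorial_le_pow r
  have hB2 : B * (M ^ 2) ^ r ≤ 12 * K ^ r * (M ^ 2) ^ r := by
    calc B * (M ^ 2) ^ r = B * M ^ (2 * r) := by rw [← pow_mul]
      _ ≤ 12 * (y : ℝ) ^ r * (r ! : ℝ) * e ^ r := hB
      _ ≤ 12 * (y : ℝ) ^ r * (r : ℝ) ^ r * e ^ r := by gcongr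
      _ = 12 * ((y : ℝ) * r * e) ^ r := by rw [mul_pow, mul_pow]; ring
      _ ≤ 12 * (K * M ^ 2) ^ r := by gcongr
      _ = 12 * K ^ r * (M ^ 2) ^ r := by rw [mul_pow]; ring
  have hB3 : B ≤ 12 * K ^ r := le_of_mul_le_mul_right hB2 (by positivity)
  refine le_trans hB3 ?_
  have hlogK : Real.log K = (1 - θ₀) * Y + (1 + 2 * c) * LL := by
    rw [hK, Real.log_mul (by positivity) (by positivity), Real.log_mul (by positivity)
      (by positivity), Real.log_rpow hy0, Real.log_rpow hX0]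
    ring
  have hlogK2 : Real.log K ≤ (1 / 2 - 2 * δ) * Y := by
    rw [hlogK]
    have h1 : (1 + 2 * c) * LL ≤ (1 + 2 * c) * (α * Y) := by gcongr
    have h2 : (1 - θ₀ + (1 + 2 * c) * α) * Y ≤ (1 / 2 - 2 * δ) * Y :=
      mul_le_mul_of_nonneg_right hpar hY0.le
    linarith
  have hpow2 : K ^ r ≤ (x : ℝ) ^ (1 - δ) := by
    have h1 : Real.log (K ^ r) ≤ (1 - δ) * X := by
      rw [Real.log_pow]
      have h2 : 0 ≤ (1 / 2 - 2 * δ) * Y := by
        have : 0 ≤ 1 / 2 - 2 * δ := by linarith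
        positivity
      calc (r : ℝ) * Real.log K ≤ r * ((1 / 2 - 2 * δ) * Y) := by gcongr
        _ ≤ (2 * X / Y + 1) * ((1 / 2 - 2 * δ) * Y) := by gcongr
        _ = (1 / 2 - 2 * δ) * (2 * X + Y) := by field_simp
        _ ≤ (1 / 2 - 2 * δ) * (2 * X + δ * X) := by
          have : 0 ≤ 1 / 2 - 2 * δ := by linarith
          gcongr
        _ = (1 - δ) * X - (5 / 2 * δ + 2 * δ ^ 2) * X := by ring
        _ ≤ (1 - δ) * X := by
          have : 0 ≤ (5 / 2 * δ + 2 * δ ^ 2) * X := by positivity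
          linarith
    calc K ^ r = Real.exp (Real.log (K ^ r)) := (Real.exp_log (by positivity)).symm
      _ ≤ Real.exp ((1 - δ) * X) := Real.exp_le_exp.2 h1
      _ = (x : ℝ) ^ (1 - δ) := by
        rw [Real.rpow_def_of_pos hx0, mul_comm]
  linarith

end Pool.Agent.W171.EP
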