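import Mathlib
import Pool.Agent.W171.EP.FewBadP
import Pool.Agent.H771R4.SE.Avg2

set_option autoImplicit false

/-! # The average over the multiples `l q` with `q` in a thin set of primes, and the exceptional
set -/

namespace Pool.Agent.W171.EP

open Finset Filter Topology
open Pool.Agent.H386R2.Artin (PP Good hL gL card_PP ev1 ev2 ev3 ev5 tlog pi_lower sumH omegaLarge
  card_dvd)
open Pool.Agent.H771R4.SE (Dat cntE cntE_sum evB)

/-- the set of multiples `l q` -/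
def mul (l : ℕ) (E : Finset ℕ) : Finset ℕ := E.image (fun q => l * q)

lemma card_mul {l : ℕ} (hl : 0 < l) (E : Finset ℕ) : #(mul l E) = #E := by
  unfold mul
  exact card_image_of_injective _ (fun a b h => Nat.eq_of_mul_eq_mul_left hl h)

lemma good_mul {p : ℕ} {l : ℕ} (hl : 0 < l) (E : Finset ℕ) (M : ℝ) (h : Good E M p) :
    Good (mul l E) M p := by
  intro χ hχ
  have h1 : ∑ n ∈ mul l E, χ (n : ZMod p) = χ (l : ZMod p) * ∑ q ∈ E, χ (q : ZMod p) := by
    unfold mul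
    rw [sum_image (fun a _ b _ h => Nat.eq_of_mul_eq_mul_left hl h), mul_sum]
    refine sum_congr rfl fun q _ => ?_
    push_cast
    rw [map_mul]
  rw [h1, norm_mul]
  have h2 : ‖χ (l : ZMod p)‖ ≤ 1 := DirichletCharacter.norm_le_one χ _
  have h3 := h χ hχ
  calc ‖χ (l : ZMod p)‖ * ‖∑ q ∈ E, χ (q : ZMod p)‖ ≤ 1 * ‖∑ q ∈ E, χ (q : ZMod p)‖ := by
        gcongr
    _ ≤ M := by rw [one_mul]; exact h3

open Classical in
theorem avgP (d : Dat) {α θ₀ c₀ c δ : ℝ} (hα : 0 < α) (hθ₀ : 1 / 2 + α < θ₀) (hc₀ : 0 < c₀)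
    (hc : 0 < c) (hδ : 0 < δ)
    (hF : ∃ N₁ : ℕ, ∀ y x : ℕ, N₁ ≤ y →
      (Real.log y) ^ (1 + c₀) ≤ Real.log x → Real.log x ≤ (y : ℝ) ^ α →
      ∀ E : Finset ℕ, (∀ q ∈ E, q.Prime ∧ q ≤ y) → (y : ℝ) ^ θ₀ ≤ (#E : ℝ) →
        (#{p ∈ PP x | ¬ Good E ((#E : ℝ) / (Real.log x) ^ c) p} : ℝ) ≤
          12 * (x : ℝ) ^ (1 - δ)) (ε : ℝ) (hε : 0 < ε) :
    ∃ N₀ : ℕ, ∀ y x : ℕ, N₀ ≤ y → (Real.log y) ^ (1 + c₀) ≤ Real.log x →
      Real.log x ≤ (y : ℝ) ^ α → ∀ l : ℕ, 0 < l → Real.log l ≤ √x →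
      ∀ E : Finset ℕ, (∀ q ∈ E, q.Prime ∧ q ≤ y) → (y : ℝ) ^ θ₀ ≤ (#E : ℝ) →
          |∑ n ∈ mul l E, (cntE d n x : ℝ) - d.A * Nat.primeCounting x * #E| ≤
            ε * Nat.primeCounting x * #E := by
  obtain ⟨N₁, hfew⟩ := hF
  obtain ⟨CH, hC, h5⟩ := sumH
  obtain ⟨x₆, hx₆⟩ := omegaLarge
  obtain ⟨y₀, hy3, hy₀⟩ := pi_lower
  set ε' : ℝ := ε / 30 with hε'd
  have hε' : 0 < ε' := by positivity
  have hCL : ∀ᶠ L : ℕ in atTop, CH / (L : ℝ) < ε' := by
    have : Tendsto (fun L : ℕ => CH / (L : ℝ)) atTop (𝓝 0) :=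
      tendsto_const_nhds.div_atTop tendsto_natCast_atTop_atTop
    exact this.eventually (gt_mem_nhds hε')
  obtain ⟨L, hL2, hL3⟩ := (hCL.and (eventually_ge_atTop 2)).exists
  obtain ⟨x₅, hx₅⟩ := h5 L (by omega)
  have hG : ∀ᶠ x : ℕ in atTop, |(∑ p ∈ PP x, d.G p) / (Nat.primeCounting x : ℝ) - d.A| < ε' := by
    have := (Metric.tendsto_nhds.1 d.lim) ε' hε'
    simpa [Real.dist_eq] using this
  have hlog : Tendsto (fun y : ℕ => Real.log (y : ℝ)) atTop atTop :=
    Real.tendsto_log_atTop.comp tendsto_natCast_atTop_atTop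
  have hNb : ∀ᶠ N : ℕ in atTop, max (1 / ε') (d.p0 : ℝ) ≤ (N : ℝ) ^ (1 / 2 : ℝ) :=
    ((tendsto_rpow_atTop (by norm_num)).comp tendsto_natCast_atTop_atTop).eventually_ge_atTop _
  have hev := ((((((evB 12 0 δ ε' hδ hε' (by norm_num)).and
    (ev1 (1 / 2) ε' (by norm_num) hε')).and (ev3 ε' hε')).and
    ((ev5 ε' c (2 ^ L) hε' hc).and (ev2 ε' hε'))).and
    hG).and (tlog.eventually_ge_atTop (max 3 (y₀ : ℝ)))).and
    (((eventually_ge_atTop x₅).and (eventually_ge_atTop x₆)).and (eventually_ge_atTop y₀))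
  obtain ⟨x₀, hx₀⟩ := eventually_atTop.1 hev
  obtain ⟨N₂, hN₂⟩ := eventually_atTop.1 (hNb.and ((hlog.eventually_ge_atTop 3).and
    (((tendsto_rpow_atTop hc₀).comp hlog).eventually_ge_atTop 2)))
  refine ⟨max (max N₁ N₂) (max x₀ 2), fun N x hN' hNx hxN l hl hlx E hE hEc => ?_⟩
  have hN : 2 ≤ N := (le_max_right _ _).trans ((le_max_right _ _).trans hN')
  have hNN1 : N₁ ≤ N := (le_max_left _ _).trans ((le_max_left _ _).trans hN')
  have hNN2 : N₂ ≤ N := (le_max_right _ _).trans ((le_max_left _ _).trans hN')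
  obtain ⟨e4, hY3, hYc⟩ := hN₂ N hNN2
  simp only [Function.comp] at hYc
  have hN0 : (0 : ℝ) < N := by exact_mod_cast (by omega : 0 < N)
  have hN1 : (1 : ℝ) ≤ N := by exact_mod_cast (by omega : 1 ≤ N)
  set Y : ℝ := Real.log N with hY
  have hY0 : 0 < Y := by linarith
  have h2Y : 2 * Y ≤ Real.log x := by
    refine le_trans ?_ hNx
    rw [Real.rpow_add hY0, Real.rpow_one]
    nlinarith
  have hxpos : (1 : ℝ) < x := by
    by_contra hcon
    have : Real.log x ≤ 0 := by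
      rcases Nat.eq_zero_or_pos x with h0 | h0
      · rw [h0]; simp
      · have : (1 : ℝ) ≤ x := by exact_mod_cast h0
        have h1 : (x : ℝ) = 1 := by push Not at hcon; linarith
        rw [h1]; simp
    linarith
  have hx0' : (0 : ℝ) < x := by linarith
  have hNup : (N : ℝ) ≤ (x : ℝ) ^ (1 - 1 / 2 : ℝ) := by
    rw [← Real.log_le_log_iff hN0 (by positivity), Real.log_rpow hx0']
    linarith
  have hNlex : N ≤ x := by
    have h1 : Real.log N ≤ Real.log x := by linarith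
    have h2 := (Real.log_le_log_iff hN0 hx0').1 h1
    exact_mod_cast h2
  have hxx : x₀ ≤ x := ((le_max_left _ _).trans ((le_max_right _ _).trans hN')).trans hNlex
  obtain ⟨⟨⟨⟨⟨⟨e1, e2⟩, e3⟩, ⟨e5, e6⟩⟩, eG⟩, hX⟩, ⟨⟨hxx5, hxx6⟩, hxxy⟩⟩ := hx₀ x hxx
  have hP := hy₀ x hxxy
  set P : ℝ := (Nat.primeCounting x : ℝ) with hPd
  set X : ℝ := Real.log x with hXd
  have hX3 : 3 ≤ X := le_trans (le_max_left _ _) hX
  have hX0 : 0 < X := by linarith
  have hX1 : 1 ≤ X := by linarith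
  have hx3 : 3 ≤ x := le_trans hy3 hxxy
  have hx0 : (0 : ℝ) < x := by exact_mod_cast (by omega : 0 < x)
  have hx1 : (1 : ℝ) ≤ x := by exact_mod_cast (by omega : 1 ≤ x)
  have hP0 : 0 < P := lt_of_lt_of_le (by positivity) hP
  set e : ℝ := (#E : ℝ) with hed
  have he0 : 0 < e := lt_of_lt_of_le (by positivity) hEc
  have hNp0 : d.p0 ≤ N := by
    have h1 : (d.p0 : ℝ) ≤ (N : ℝ) ^ (1 / 2 : ℝ) := (le_max_right _ _).trans e4
    have h2 : (N : ℝ) ^ (1 / 2 : ℝ) ≤ (N : ℝ) ^ (1 : ℝ) :=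
      Real.rpow_le_rpow_of_exponent_le hN1 (by norm_num)
    rw [Real.rpow_one] at h2
    exact_mod_cast h1.trans h2
  have hone : 1 ≤ ε' * e := by
    have h1 : (N : ℝ) ^ (1 / 2 : ℝ) ≤ (N : ℝ) ^ θ₀ :=
      Real.rpow_le_rpow_of_exponent_le hN1 (by linarith)
    have h2 : 1 / ε' ≤ e := (le_max_left _ _).trans (e4.trans (h1.trans hEc))
    rw [div_le_iff₀ hε'] at h2
    linarith
  have hXc : 0 < X ^ c := Real.rpow_pos_of_pos hX0 _
  set M : ℝ := e / X ^ c with hMd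
  have hM0 : 0 < M := by positivity
  set W : ℝ := 5 * Real.log X with hWd
  have hW0 : 0 ≤ W := by
    have := Real.log_nonneg hX1
    positivity
  set E' : Finset ℕ := mul l E with hE'd
  have hE'c : #E' = #E := card_mul hl E
  set F : ℕ → ℝ := fun p => (#(E'.filter (fun q : ℕ => d.Q p ((q : ℕ) : ZMod p))) : ℝ) with hFd
  have hF0 : ∀ p, 0 ≤ F p := fun p => Nat.cast_nonneg _
  have hFe : ∀ p, F p ≤ e := fun p => by
    simp only [hFd, hed]
    rw [← hE'c]
    exact_mod_cast card_filter_le _ _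
  set Z1 : Finset ℕ := (PP x).filter (fun p => ¬ Good E M p) with hZ1
  set Z2 : Finset ℕ := (PP x).filter (fun p : ℕ => p ≤ N) with hZ2
  set Z3 : Finset ℕ := (PP x).filter (fun p => W < ((p - 1).primeFactors.card : ℝ)) with hZ3
  set Z4 : Finset ℕ := (PP x).filter (fun p : ℕ => (p : ℤ) ∣ (l : ℤ)) with hZ4
  have hZ1c : (#Z1 : ℝ) ≤ ε' * P := by
    have h1 := hfew N x hNN1 hNx hxN E hE hEc
    rw [pow_zero, mul_one] at e1
    refine h1.trans (e1.trans ?_)
    gcongr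
  have hZ2c : (#Z2 : ℝ) ≤ ε' * P := by
    have h1 : Z2 ⊆ Icc 1 N := by
      intro p hp
      rw [hZ2, mem_filter, PP, mem_filter] at hp
      rw [mem_Icc]
      exact ⟨hp.1.2.one_le, hp.2⟩
    have h2 : (#Z2 : ℝ) ≤ N := by
      have := card_le_card h1
      rw [Nat.card_Icc, Nat.add_sub_cancel] at this
      exact_mod_cast this
    refine h2.trans (hNup.trans (e2.trans ?_))
    gcongr
  have hZ3c : (#Z3 : ℝ) ≤ ε' * P := by
    refine le_trans (hx₆ x hxx6) (le_trans e3 ?_)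
    gcongr
  have hZ4c : (#Z4 : ℝ) ≤ ε' * P := by
    refine le_trans (card_dvd (l : ℤ) (by exact_mod_cast hl.ne') x) ?_
    have h1 : |(((l : ℤ) : ℝ))| = (l : ℝ) := by simp
    rw [h1]
    refine le_trans (by linarith : 2 * Real.log (l : ℝ) ≤ 2 * √(x : ℝ)) (le_trans e6 ?_)
    gcongr
  have hpt : ∀ p ∈ PP x, |F p - e * d.G p| ≤
      (if p ∈ Z1 then 2 * e else 0) + (if p ∈ Z2 then 2 * e else 0) +
        (if p ∈ Z3 then 2 * e else 0) + (if p ∈ Z4 then 2 * e else 0) +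
        3 * (1 + 2 ^ L * M + W * M + e * hL L (p - 1)) := by
    intro p hp
    have hg0 := d.G0 p
    have hg1 := d.G1 p
    have hh0 : 0 ≤ hL L (p - 1) := Finset.sum_nonneg fun l _ => by positivity
    have hrest : 0 ≤ 3 * (1 + 2 ^ L * M + W * M + e * hL L (p - 1)) := by positivity
    have htriv : |F p - e * d.G p| ≤ 2 * e := by
      have f0 := hF0 p
      have fe := hFe p
      have g1 : 0 ≤ e * d.G p := mul_nonneg he0.le hg0
      have g2 : e * d.G p ≤ e * 2 := mul_le_mul_of_nonneg_left hg1 he0.le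
      rw [abs_le]
      constructor
      · linarith
      · linarith
    have i1 : 0 ≤ (if p ∈ Z1 then 2 * e else 0) := by split_ifs <;> linarith
    have i2 : 0 ≤ (if p ∈ Z2 then 2 * e else 0) := by split_ifs <;> linarith
    have i3 : 0 ≤ (if p ∈ Z3 then 2 * e else 0) := by split_ifs <;> linarith
    have i4 : 0 ≤ (if p ∈ Z4 then 2 * e else 0) := by split_ifs <;> linarith
    by_cases c1 : p ∈ Z1
    · rw [if_pos c1]; linarith
    by_cases c2 : p ∈ Z2
    · rw [if_pos c2]; linarith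
    by_cases c3 : p ∈ Z3
    · rw [if_pos c3]; linarith
    by_cases c4 : p ∈ Z4
    · rw [if_pos c4]; linarith
    have hgood : Good E M p := by
      by_contra hcon; exact c1 (mem_filter.2 ⟨hp, hcon⟩)
    have hpN : N < p := by
      by_contra hcon; exact c2 (mem_filter.2 ⟨hp, not_lt.1 hcon⟩)
    have hom : ((p - 1).primeFactors.card : ℝ) ≤ W := by
      by_contra hcon; exact c3 (mem_filter.2 ⟨hp, not_le.1 hcon⟩)
    have hpl : ¬ p ∣ l := fun hcon => c4 (mem_filter.2 ⟨hp, by exact_mod_cast hcon⟩)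
    have hpp : p.Prime := (mem_filter.1 hp).2
    have hE0 : ∀ n ∈ E', ((n : ℕ) : ZMod p) ≠ 0 := by
      intro n hn h
      rw [hE'd, mul, mem_image] at hn
      obtain ⟨q, hq, rfl⟩ := hn
      rw [ZMod.natCast_eq_zero_iff, hpp.dvd_mul] at h
      rcases h with h | h
      · exact hpl h
      · have h1 := hE q hq
        have := Nat.le_of_dvd h1.1.pos h
        omega
    have := d.loc p hpp (by omega) E' M L hL3 hE0 hM0.le (good_mul hl E M hgood)
    rw [hE'c] at this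
    refine le_trans (le_trans (le_of_eq ?_) this) ?_
    · simp only [hFd, hed]
    have h8 : ((p - 1).primeFactors.card : ℝ) * M ≤ W * M := by gcongr
    have h9 : 0 ≤ 2 ^ L * M := by positivity
    have h10 : 0 ≤ W * M := by positivity
    have h11 : 0 ≤ e * hL L (p - 1) := by positivity
    linarith
  have hsum : |∑ p ∈ PP x, F p - e * ∑ p ∈ PP x, d.G p| ≤
      4 * (2 * (ε' * P * e)) + 3 * (P * (1 + 2 ^ L * M + W * M)) + 3 * (e * (CH / L * P)) := by
    have hs1 : ∑ p ∈ PP x, F p - e * ∑ p ∈ PP x, d.G p =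
        ∑ p ∈ PP x, (F p - e * d.G p) := by
      rw [Finset.sum_sub_distrib, Finset.mul_sum]
    rw [hs1]
    refine le_trans (Finset.abs_sum_le_sum_abs _ _) (le_trans (Finset.sum_le_sum hpt) ?_)
    rw [Finset.sum_add_distrib, Finset.sum_add_distrib, Finset.sum_add_distrib,
      Finset.sum_add_distrib, ← Finset.mul_sum, Finset.sum_add_distrib]
    have hsub : ∀ Z : Finset ℕ, Z ⊆ PP x →
        ∑ p ∈ PP x, (if p ∈ Z then 2 * e else 0) = #Z * (2 * e) := by
      intro Z hZ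
      rw [← Finset.sum_filter, Finset.sum_const, nsmul_eq_mul, Finset.filter_mem_eq_inter,
        Finset.inter_eq_right.2 hZ]
    rw [hsub Z1 (filter_subset _ _), hsub Z2 (filter_subset _ _), hsub Z3 (filter_subset _ _),
      hsub Z4 (filter_subset _ _),
      Finset.sum_const, nsmul_eq_mul, card_PP, ← hPd, ← Finset.mul_sum]
    have hh := hx₅ x hxx5
    have g1 : (#Z1 : ℝ) * (2 * e) ≤ ε' * P * (2 * e) := by gcongr
    have g2 : (#Z2 : ℝ) * (2 * e) ≤ ε' * P * (2 * e) := by gcongr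
    have g3 : (#Z3 : ℝ) * (2 * e) ≤ ε' * P * (2 * e) := by gcongr
    have g3' : (#Z4 : ℝ) * (2 * e) ≤ ε' * P * (2 * e) := by gcongr
    have g4 : e * ∑ p ∈ PP x, hL L (p - 1) ≤ e * (CH / L * P) := by gcongr
    linarith
  rw [cntE_sum d E' x]
  change |∑ p ∈ PP x, F p - d.A * P * e| ≤ ε * P * e
  have hMs : P * (1 + 2 ^ L * M + W * M) ≤ 2 * (ε' * P * e) := by
    have k1 : 2 ^ L * M + W * M = e * ((2 ^ L + W) / X ^ c) := by
      rw [hMd]; ring
    have k2 : e * ((2 ^ L + W) / X ^ c) ≤ e * ε' := by gcongr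
    have k3 : 1 + 2 ^ L * M + W * M ≤ 2 * (ε' * e) := by linarith
    calc P * (1 + 2 ^ L * M + W * M) ≤ P * (2 * (ε' * e)) := by gcongr
      _ = 2 * (ε' * P * e) := by ring
  have hCLP : e * (CH / L * P) ≤ ε' * P * e := by
    have : CH / (L : ℝ) * P ≤ ε' * P := by gcongr
    nlinarith
  have hGP : |e * ∑ p ∈ PP x, d.G p - d.A * P * e| ≤ ε' * P * e := by
    have k1 : e * ∑ p ∈ PP x, d.G p - d.A * P * e =
        ((∑ p ∈ PP x, d.G p) / P - d.A) * (P * e) := by
      field_simp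
    rw [k1, abs_mul, abs_of_pos (by positivity : 0 < P * e)]
    calc |(∑ p ∈ PP x, d.G p) / P - d.A| * (P * e) ≤ ε' * (P * e) := by gcongr
      _ = ε' * P * e := by ring
  have htri : |∑ p ∈ PP x, F p - d.A * P * e| ≤
      |∑ p ∈ PP x, F p - e * ∑ p ∈ PP x, d.G p| +
      |e * ∑ p ∈ PP x, d.G p - d.A * P * e| := abs_sub_le _ _ _
  have hfin : 18 * (ε' * P * e) ≤ ε * P * e := by
    have k1 : ε = 30 * ε' := by linarith [hε'd]
    have k2 : 0 ≤ ε' * P * e := mul_nonneg (mul_nonneg hε'.le hP0.le) he0.le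
    have k3 : ε * P * e = 30 * (ε' * P * e) := by
      calc ε * P * e = (30 * ε') * P * e := by rw [← k1]
        _ = 30 * (ε' * P * e) := by ring
    linarith
  linarith

open Classical in
/-- the primes `q ≤ y` that are exceptional at `x`, for the multiplier `l` -/
noncomputable def exP (d : Dat) (ε : ℝ) (l y x : ℕ) : Finset ℕ :=
  (PP y).filter (fun q : ℕ => ε * (Nat.primeCounting x : ℝ) <
        |(cntE d (l * q) x : ℝ) - d.A * (Nat.primeCounting x : ℝ)|)

open Classical in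
/-- the exceptional set at one `x` -/
theorem excP (d : Dat) {α θ₀ c₀ : ℝ} (hα : 0 < α) (hθ₀ : 1 / 2 + α < θ₀) (hc₀ : 0 < c₀) (ε : ℝ)
    (hε : 0 < ε) : ∃ N₀ : ℕ, ∀ y x : ℕ, N₀ ≤ y → (Real.log y) ^ (1 + c₀) ≤ Real.log x →
      Real.log x ≤ (y : ℝ) ^ α → ∀ l : ℕ, 0 < l → Real.log l ≤ √x →
      (#(exP d ε l y x) : ℝ) ≤ 2 * (y : ℝ) ^ θ₀ := by
  obtain ⟨c, δ, hc, hδ, hF⟩ := fewBadP hα hθ₀ hc₀
  obtain ⟨N₁, hx₁⟩ := avgP d hα hθ₀ hc₀ hc hδ hF (ε / 2) (by positivity)
  have hlog : Tendsto (fun y : ℕ => Real.log (y : ℝ)) atTop atTop :=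
    Real.tendsto_log_atTop.comp tendsto_natCast_atTop_atTop
  obtain ⟨N₂, hN₂⟩ := eventually_atTop.1 (hlog.eventually_ge_atTop 2)
  refine ⟨max (max N₁ 2) N₂, fun y x hy hyx hxy l hl hlx => ?_⟩
  have hyN1 : N₁ ≤ y := (le_max_left _ _).trans ((le_max_left _ _).trans hy)
  have hy2 : 2 ≤ y := (le_max_right _ _).trans ((le_max_left _ _).trans hy)
  have hY := hN₂ y ((le_max_right _ _).trans hy)
  have hy0 : (0 : ℝ) < y := by exact_mod_cast (by omega : 0 < y)
  have hx2 : 2 ≤ x := by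
    by_contra hcon
    have h1 : Real.log x ≤ 0 := by
      have : x = 0 ∨ x = 1 := by omega
      rcases this with h | h <;> rw [h] <;> simp
    have h2 : 0 < (Real.log y) ^ (1 + c₀) := Real.rpow_pos_of_pos (by linarith) _
    linarith
  set P : ℝ := (Nat.primeCounting x : ℝ) with hPd
  have hP0 : 0 < P := by
    have h1 : Nat.primeCounting 2 ≤ Nat.primeCounting x := Nat.monotone_primeCounting hx2
    have h2 : Nat.primeCounting 2 = 1 := by decide
    have : 0 < Nat.primeCounting x := by omega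
    rw [hPd]
    exact_mod_cast this
  have side : ∀ s : ℝ, (s = 1 ∨ s = -1) →
      (#((PP y).filter (fun n : ℕ => ε * P < s * ((cntE d (l * n) x : ℝ) - d.A * P))) : ℝ) ≤
        (y : ℝ) ^ θ₀ := by
    intro s hs
    by_contra hcon
    push Not at hcon
    set E := (PP y).filter (fun n : ℕ => ε * P < s * ((cntE d (l * n) x : ℝ) - d.A * P)) with hEd
    have hEp : ∀ q ∈ E, q.Prime ∧ q ≤ y := by
      intro q hq
      rw [hEd, mem_filter, PP, mem_filter, mem_range] at hq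
      exact ⟨hq.1.2, by omega⟩
    have hav := hx₁ y x hyN1 hyx hxy l hl hlx E hEp hcon.le
    have he0 : (0 : ℝ) < #E := lt_trans (by positivity) hcon
    have hsum : ∑ n ∈ mul l E, (cntE d n x : ℝ) = ∑ q ∈ E, (cntE d (l * q) x : ℝ) := by
      unfold mul
      rw [sum_image (fun a _ b _ h => Nat.eq_of_mul_eq_mul_left hl h)]
    rw [hsum] at hav
    have hlow : ε * P * #E ≤ s * (∑ q ∈ E, (cntE d (l * q) x : ℝ) - d.A * P * #E) := by
      have h1 : s * (∑ q ∈ E, (cntE d (l * q) x : ℝ) - d.A * P * #E) =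
          ∑ q ∈ E, (s * ((cntE d (l * q) x : ℝ) - d.A * P)) := by
        rw [← Finset.mul_sum, Finset.sum_sub_distrib, Finset.sum_const, nsmul_eq_mul]
        ring
      rw [h1]
      have h3 : ∑ _q ∈ E, ε * P ≤ ∑ q ∈ E, (s * ((cntE d (l * q) x : ℝ) - d.A * P)) := by
        apply Finset.sum_le_sum
        intro q hq
        rw [hEd, mem_filter] at hq
        exact hq.2.le
      rw [Finset.sum_const, nsmul_eq_mul] at h3
      linarith
    have hup : s * (∑ q ∈ E, (cntE d (l * q) x : ℝ) - d.A * P * #E) ≤ ε / 2 * P * #E := by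
      rcases hs with hs | hs
      · rw [hs, one_mul]; exact le_trans (le_abs_self _) hav
      · rw [hs]
        have := neg_abs_le (∑ q ∈ E, (cntE d (l * q) x : ℝ) - d.A * P * #E)
        linarith
    have hpos : 0 < ε * P * #E := by positivity
    have : ε / 2 * P * #E = (ε * P * #E) / 2 := by ring
    linarith
  have h1 := side 1 (Or.inl rfl)
  have h2 := side (-1) (Or.inr rfl)
  have hsub : exP d ε l y x ⊆
      (PP y).filter (fun n : ℕ => ε * P < 1 * ((cntE d (l * n) x : ℝ) - d.A * P)) ∪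
      (PP y).filter (fun n : ℕ => ε * P < (-1) * ((cntE d (l * n) x : ℝ) - d.A * P)) := by
    intro q hq
    rw [exP, mem_filter] at hq
    rw [mem_union, mem_filter, mem_filter]
    rcases lt_abs.1 hq.2 with h3 | h3
    · left; exact ⟨hq.1, by linarith⟩
    · right; exact ⟨hq.1, by linarith⟩
  have h3 := (card_le_card hsub).trans (card_union_le _ _)
  have h4 : (#(exP d ε l y x) : ℝ) ≤
      (#((PP y).filter (fun n : ℕ => ε * P < 1 * ((cntE d (l * n) x : ℝ) - d.A * P))) : ℝ) +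
      (#((PP y).filter (fun n : ℕ => ε * P < (-1) * ((cntE d (l * n) x : ℝ) - d.A * P))) : ℝ) := by
    exact_mod_cast h3
  linarith

end Pool.Agent.W171.EP
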