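import Mathlib
import Pool.Agent.W171.EP.AllG
import Pool.Agent.H771R4.SE.LS2

set_option autoImplicit false

/-! # Almost all primes `q ≤ y`, for all `x` with `y ^ C ≤ x ≤ exp (y ^ α)`, with multipliers -/

namespace Pool.Agent.W171.EP

open Finset Filter Topology
open Pool.Agent.H386R2.Artin (PP Good)
open Pool.Agent.H771R4.SE (Dat cntE fewBad2)

lemma pa_log : Tendsto (fun y : ℕ => Real.log (y : ℝ)) atTop atTop :=
  Real.tendsto_log_atTop.comp tendsto_natCast_atTop_atTop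

lemma pa_pow {a b : ℝ} (ha : 0 < a) (hab : a < b) (K : ℝ) : ∀ᶠ l : ℝ in atTop,
    l ^ a + K ≤ l ^ b := by
  have h2 := (tendsto_rpow_atTop (show 0 < b - a by linarith)).eventually_ge_atTop 2
  have h3 := (tendsto_rpow_atTop ha).eventually_ge_atTop K
  filter_upwards [h2, h3, eventually_gt_atTop 0] with l h2 h3 h4
  have h5 : l ^ b = l ^ a * l ^ (b - a) := by
    rw [← Real.rpow_add h4]; congr 1; ring
  have h6 : 0 < l ^ a := by positivity
  rw [h5]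
  nlinarith

lemma badG_union (d : Dat) (ε L M U : ℝ) (l y : ℕ) :
    badG d ε L U l y ⊆ badG d ε L M l y ∪ badG d ε M U l y := by
  classical
  intro q hq
  unfold badG at hq ⊢
  rw [mem_filter] at hq
  obtain ⟨h1, x, h2, h3, h4⟩ := hq
  rw [mem_union, mem_filter, mem_filter]
  rcases le_total (Real.log x) M with h | h
  · exact Or.inl ⟨h1, x, h2, h, h4⟩
  · exact Or.inr ⟨h1, x, h, h3, h4⟩

/-- the range `C log y ≤ log x ≤ (log y) ^ (1 + c)` -/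
theorem lowRange (θ C : ℝ) (hθ : 1 / 2 < θ) (hθ1 : θ < 1) (hC : 1 < C)
    (hCθ : θ * (1 - θ) < C * (2 * θ - 1)) : ∃ θ' c : ℝ, θ' < θ ∧ 0 < c ∧
    ∀ (d : Dat) (ε : ℝ), 0 < ε → ∃ N₀ : ℕ, ∀ y : ℕ, N₀ ≤ y → ∀ l : ℕ, 0 < l →
      Real.log l ≤ √y →
      (#(badG d ε (C * Real.log y) ((Real.log y) ^ (1 + c)) l y) : ℝ) ≤ (y : ℝ) ^ θ' := by
  classical
  have h2θ : 0 < 2 * θ - 1 := by linarith
  obtain ⟨C0, hC01, hC0C, hC0θ⟩ : ∃ C0 : ℝ, 1 < C0 ∧ C0 < C ∧ θ * (1 - θ) < C0 * (2 * θ - 1) := by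
    have h1 : θ * (1 - θ) / (2 * θ - 1) < C := by
      rw [div_lt_iff₀ h2θ]
      exact hCθ
    obtain ⟨C0, h2, h3⟩ := exists_between (max_lt hC h1)
    refine ⟨C0, lt_of_le_of_lt (le_max_left _ _) h2, h3, ?_⟩
    have h4 := lt_of_le_of_lt (le_max_right _ _) h2
    rwa [div_lt_iff₀ h2θ] at h4
  obtain ⟨θ₀, δ, c, hθ₀, hθ₀θ, hδ, hc, N₁, hF⟩ := fewBad2 θ C0 hθ hθ1 hC01 hC0θ
  refine ⟨(θ + θ₀) / 2, c / 2, by linarith, by positivity, fun d ε hε => ?_⟩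
  refine allG (fun y => C0 * Real.log y) (fun y => (Real.log y) ^ (1 + c))
    (fun y => C * Real.log y) (fun y => (Real.log y) ^ (1 + c / 2)) (κ := C0 - 1) (c := 1)
    hθ₀ (by linarith) one_pos hδ ?_ ?_ ?_ ?_ ?_ d ε hε
  · filter_upwards with y
    apply le_of_eq
    ring
  · filter_upwards [pa_log.eventually_ge_atTop (Real.log 4 / (C - C0))] with y hy
    rw [div_le_iff₀ (by linarith)] at hy
    linarith
  · exact pa_log.eventually (pa_pow (by positivity) (by linarith) _)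
  · intro K hK
    have hs : 0 < (θ + θ₀) / 2 - θ₀ := by linarith
    have h1 := (isLittleO_log_rpow_rpow_atTop (1 + c) hs).def
      (show (0 : ℝ) < 1 / (2 * K) by positivity)
    have h2 := (tendsto_natCast_atTop_atTop (R := ℝ)).eventually h1
    have h3 : ∀ᶠ N : ℕ in atTop, 2 * K ≤ (N : ℝ) ^ ((θ + θ₀) / 2 - θ₀) :=
      ((tendsto_rpow_atTop hs).comp tendsto_natCast_atTop_atTop).eventually_ge_atTop _
    filter_upwards [h2, h3, eventually_ge_atTop 2] with N h2 h3 h4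
    have hN : (2 : ℝ) ≤ N := by exact_mod_cast h4
    have hl : 0 < Real.log N := Real.log_pos (by linarith)
    rw [Real.norm_eq_abs, Real.norm_eq_abs,
      abs_of_pos (show 0 < (N : ℝ) ^ ((θ + θ₀) / 2 - θ₀) by positivity)] at h2
    have h5 : K * |Real.log (N : ℝ) ^ (1 + c)| ≤ (N : ℝ) ^ ((θ + θ₀) / 2 - θ₀) / 2 := by
      calc K * |Real.log (N : ℝ) ^ (1 + c)|
          ≤ K * (1 / (2 * K) * (N : ℝ) ^ ((θ + θ₀) / 2 - θ₀)) := by gcongr
        _ = (N : ℝ) ^ ((θ + θ₀) / 2 - θ₀) / 2 := by field_simp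
    linarith
  · refine ⟨max N₁ 2, fun y x hy hyx hxy E hE hEc => ?_⟩
    have hy1 : N₁ ≤ y := (le_max_left _ _).trans hy
    have hy2 : 2 ≤ y := (le_max_right _ _).trans hy
    have hy0 : (0 : ℝ) < y := by exact_mod_cast (by omega : 0 < y)
    have hly : 0 < Real.log y := Real.log_pos (by exact_mod_cast (by omega : 1 < y))
    have hlx : 0 < Real.log x := lt_of_lt_of_le (by positivity) hyx
    have hx0 : (0 : ℝ) < x := by
      by_contra hcon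
      have : x = 0 := by
        have h3 : (x : ℝ) ≤ 0 := not_lt.1 hcon
        exact_mod_cast le_antisymm h3 (Nat.cast_nonneg _)
      rw [this] at hlx
      simp at hlx
    have hyC : (y : ℝ) ^ C0 ≤ x := by
      rw [← Real.log_le_log_iff (by positivity) hx0, Real.log_rpow hy0]
      exact hyx
    have hEI : E ⊆ Icc 1 y := fun q hq => by
      rw [mem_Icc]
      exact ⟨(hE q hq).1.one_le, (hE q hq).2⟩
    have h1 := hF y x hy1 hyC hxy E hEI hEc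
      ((PP x).filter (fun p => ¬ Good E ((#E : ℝ) / Real.log x) p)) (fun p hp => by
        rw [mem_filter] at hp
        exact hp)
    rw [Real.rpow_one]
    exact h1

/-- the range `(log y) ^ (1 + c) ≤ log x ≤ y ^ α` -/
theorem highRange (α θ c : ℝ) (hα : 0 < α) (hθ : 1 / 2 + 2 * α < θ) (hc : 0 < c) :
    ∃ θ' : ℝ, θ' < θ ∧
    ∀ (d : Dat) (ε : ℝ), 0 < ε → ∃ N₀ : ℕ, ∀ y : ℕ, N₀ ≤ y → ∀ l : ℕ, 0 < l →
      Real.log l ≤ √y →
      (#(badG d ε ((Real.log y) ^ (1 + c)) ((y : ℝ) ^ α) l y) : ℝ) ≤ (y : ℝ) ^ θ' := by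
  classical
  obtain ⟨κ, hκd⟩ : ∃ κ : ℝ, κ = (θ - 1 / 2 - 2 * α) / 8 := ⟨_, rfl⟩
  have hκ : 0 < κ := by rw [hκd]; linarith
  obtain ⟨c', δ, hc', hδ, N₁, hF⟩ := fewBadP (α := α + κ) (θ₀ := 1 / 2 + α + 2 * κ) (c₀ := c / 2)
    (by positivity) (by linarith) (by positivity)
  refine ⟨θ - κ, by linarith, fun d ε hε => ?_⟩
  refine allG (fun y => (Real.log y) ^ (1 + c / 2)) (fun y => (y : ℝ) ^ (α + κ))
    (fun y => (Real.log y) ^ (1 + c)) (fun y => (y : ℝ) ^ α) (κ := 1) (c := c')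
    (θ₀ := 1 / 2 + α + 2 * κ) (by linarith) one_pos hc' hδ ?_ ?_ ?_ ?_ ?_ d ε hε
  · have h1 : ∀ᶠ l : ℝ in atTop, (1 + 1) * l ≤ l ^ (1 + c / 2) := by
      have h2 := (tendsto_rpow_atTop (show 0 < c / 2 by positivity)).eventually_ge_atTop 2
      filter_upwards [h2, eventually_gt_atTop 0] with l h2 h4
      rw [Real.rpow_add h4, Real.rpow_one]
      nlinarith
    exact pa_log.eventually h1
  · exact pa_log.eventually (pa_pow (by positivity) (by linarith) _)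
  · exact (tendsto_natCast_atTop_atTop (R := ℝ)).eventually (pa_pow hα (by linarith) _)
  · intro K hK
    have hs : 0 < θ - κ - (1 / 2 + α + 2 * κ) - (α + κ) := by
      have : θ = 8 * κ + 1 / 2 + 2 * α := by rw [hκd]; ring
      rw [this]
      linarith
    have h2 : ∀ᶠ N : ℕ in atTop,
        2 * K ≤ (N : ℝ) ^ (θ - κ - (1 / 2 + α + 2 * κ) - (α + κ)) :=
      ((tendsto_rpow_atTop hs).comp tendsto_natCast_atTop_atTop).eventually_ge_atTop _
    filter_upwards [h2, eventually_ge_atTop 1] with N h2 h4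
    have hN : (1 : ℝ) ≤ N := by exact_mod_cast h4
    have hN0 : (0 : ℝ) < N := by linarith
    have h5 : (N : ℝ) ^ (θ - κ - (1 / 2 + α + 2 * κ)) =
        (N : ℝ) ^ (α + κ) * (N : ℝ) ^ (θ - κ - (1 / 2 + α + 2 * κ) - (α + κ)) := by
      rw [← Real.rpow_add hN0]; congr 1; ring
    have h6 : 1 ≤ (N : ℝ) ^ (α + κ) := Real.one_le_rpow hN (by positivity)
    rw [h5, abs_of_nonneg (by positivity)]
    calc K * ((N : ℝ) ^ (α + κ) + 1) ≤ K * ((N : ℝ) ^ (α + κ) + (N : ℝ) ^ (α + κ)) := by gcongr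
      _ = (N : ℝ) ^ (α + κ) * (2 * K) := by ring
      _ ≤ _ := by gcongr
  · exact ⟨N₁, fun y x hy hyx hxy E hE hEc => hF y x hy hyx hxy E hE hEc⟩

theorem primesAll (α θ C : ℝ) (hα : 0 < α) (hθ : 1 / 2 + 2 * α < θ) (hθ1 : θ < 1) (hC : 1 < C)
    (hCθ : θ * (1 - θ) < C * (2 * θ - 1)) : ∃ θ' : ℝ, θ' < θ ∧
    ∀ (d : Dat) (ε : ℝ), 0 < ε → ∃ N₀ : ℕ, ∀ y : ℕ,
    N₀ ≤ y → ∀ l : ℕ, 0 < l → Real.log l ≤ √y →
      (#(badG d ε (C * Real.log y) ((y : ℝ) ^ α) l y) : ℝ) ≤ 2 * (y : ℝ) ^ θ' := by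
  classical
  obtain ⟨θ₁, c, hθ₁, hc, h1⟩ := lowRange θ C (by linarith) hθ1 hC hCθ
  obtain ⟨θ₂, hθ₂, h2⟩ := highRange α θ c hα hθ hc
  refine ⟨max θ₁ θ₂, max_lt hθ₁ hθ₂, fun d ε hε => ?_⟩
  obtain ⟨N₁, h1⟩ := h1 d ε hε
  obtain ⟨N₂, h2⟩ := h2 d ε hε
  refine ⟨max (max N₁ N₂) 1, fun y hy l hl hll => ?_⟩
  have k1 := h1 y ((le_max_left _ _).trans ((le_max_left _ _).trans hy)) l hl hll
  have k2 := h2 y ((le_max_right _ _).trans ((le_max_left _ _).trans hy)) l hl hll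
  have hy1 : (1 : ℝ) ≤ y := by exact_mod_cast (le_max_right _ _).trans hy
  have k3 := (card_le_card (badG_union d ε (C * Real.log y) ((Real.log y) ^ (1 + c))
    ((y : ℝ) ^ α) l y)).trans (card_union_le _ _)
  have k4 : (#(badG d ε (C * Real.log y) ((y : ℝ) ^ α) l y) : ℝ) ≤
      (#(badG d ε (C * Real.log y) ((Real.log y) ^ (1 + c)) l y) : ℝ) +
      (#(badG d ε ((Real.log y) ^ (1 + c)) ((y : ℝ) ^ α) l y) : ℝ) := by
    exact_mod_cast k3
  have k5 : (y : ℝ) ^ θ₁ ≤ (y : ℝ) ^ (max θ₁ θ₂) :=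
    Real.rpow_le_rpow_of_exponent_le hy1 (le_max_left _ _)
  have k6 : (y : ℝ) ^ θ₂ ≤ (y : ℝ) ^ (max θ₁ θ₂) :=
    Real.rpow_le_rpow_of_exponent_le hy1 (le_max_right _ _)
  linarith

end Pool.Agent.W171.EP
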