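import Mathlib
import Pool.Agent.W171.EP.PrimesAll
import Pool.Agent.H386R2.Artin.SmoothFew
import Pool.Agent.H386R2.Artin.Integers

set_option autoImplicit false

/-! # Almost all integers `n ≤ N`, for all `x` with `N ^ C ≤ x ≤ exp (N ^ b)`: the exceptional set
is contained in a set which does not depend on the problem, up to a power-saving set -/

namespace Pool.Agent.W171.EP

open Finset Filter Topology
open Pool.Agent.H386R2.Artin (PP smoothFew int_harm)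
open Pool.Agent.H771R4.SE (Dat cntE)

open Classical in
/-- the integers `n ≤ N` that are exceptional for some `x` with `C log N ≤ log x ≤ N ^ b` -/
noncomputable def badC (d : Dat) (ε C b : ℝ) (N : ℕ) : Finset ℕ :=
  (Icc 1 N).filter (fun n : ℕ => ∃ x : ℕ, C * Real.log N ≤ Real.log x ∧
    Real.log x ≤ (N : ℝ) ^ b ∧
    ε * (Nat.primeCounting x : ℝ) < |(cntE d n x : ℝ) - d.A * (Nat.primeCounting x : ℝ)|)

open Classical in
/-- the `z`-smooth numbers up to `N` -/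
noncomputable def smo (z : ℝ) (N : ℕ) : Finset ℕ :=
  (Icc 1 N).filter (fun a : ℕ => ∀ p : ℕ, p.Prime → p ∣ a → (p : ℝ) ≤ z)

open Classical in
/-- covering by smooth numbers and multiples of large primes -/
theorem cover_C (d : Dat) (ε α C b : ℝ) (hα : 0 < α) (hC : 0 < C) (N : ℕ)
    (z : ℝ) (hz0 : 0 ≤ z) (hz : (N : ℝ) ^ b ≤ z ^ α) :
    #(badC d ε C b N \ smo z N) ≤
      ∑ l ∈ (Icc 1 N).filter (fun l : ℕ => z < ((N / l : ℕ) : ℝ)),
        #(badG d ε (C * Real.log ((N / l : ℕ) : ℝ)) (((N / l : ℕ) : ℝ) ^ α) l (N / l)) := by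
  set L := (Icc 1 N).filter (fun l : ℕ => z < ((N / l : ℕ) : ℝ)) with hL
  have hsub : badC d ε C b N \ smo z N ⊆
      L.biUnion fun l => (badG d ε (C * Real.log ((N / l : ℕ) : ℝ)) (((N / l : ℕ) : ℝ) ^ α) l
        (N / l)).image fun q => l * q := by
    intro a ha
    rw [Finset.mem_sdiff] at ha
    obtain ⟨ha, hs⟩ := ha
    rw [badC, mem_filter] at ha
    obtain ⟨haN, x, hx1, hx2, hx3⟩ := ha
    have haI := mem_Icc.1 haN
    have hs : ¬ ∀ p : ℕ, p.Prime → p ∣ a → (p : ℝ) ≤ z := fun h => hs (by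
      rw [smo, mem_filter]
      exact ⟨haN, h⟩)
    push Not at hs
    obtain ⟨p, hp, ⟨k, hk⟩, hpz⟩ := hs
    have hk0 : 0 < k := by
      rcases Nat.eq_zero_or_pos k with h | h
      · rw [h, mul_zero] at hk; omega
      · exact h
    have hpk : p ≤ N / k := (Nat.le_div_iff_mul_le hk0).2 (hk ▸ haI.2)
    have hkN : k ≤ N := by
      calc k ≤ p * k := Nat.le_mul_of_pos_left k hp.pos
        _ = a := hk.symm
        _ ≤ N := haI.2
    have hzk : z < ((N / k : ℕ) : ℝ) := hpz.trans_le (by exact_mod_cast hpk)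
    rw [mem_biUnion]
    refine ⟨k, ?_, ?_⟩
    · rw [hL, mem_filter, mem_Icc]
      exact ⟨⟨hk0, hkN⟩, hzk⟩
    · rw [mem_image]
      refine ⟨p, ?_, by rw [hk, mul_comm]⟩
      rw [badG, mem_filter]
      refine ⟨?_, x, ?_, ?_, ?_⟩
      · rw [PP, mem_filter, mem_range]
        exact ⟨by omega, hp⟩
      · refine le_trans ?_ hx1
        have h1 : 1 ≤ N / k := by
          have : 2 ≤ p := hp.two_le
          omega
        have h2 : (1 : ℝ) ≤ ((N / k : ℕ) : ℝ) := by exact_mod_cast h1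
        have h3 : ((N / k : ℕ) : ℝ) ≤ N := by exact_mod_cast Nat.div_le_self N k
        exact mul_le_mul_of_nonneg_left (Real.log_le_log (by linarith) h3) hC.le
      · refine hx2.trans (hz.trans ?_)
        exact Real.rpow_le_rpow hz0 hzk.le hα.le
      · have : k * p = a := by rw [hk, mul_comm]
        rw [this]
        exact hx3
  refine (card_le_card hsub).trans (card_biUnion_le.trans (sum_le_sum fun m _ => card_image_le))

theorem intRangeF (C : ℝ) (hC : 1 < C) (η : ℝ) (hη : 0 < η) :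
    ∃ b : ℝ, 0 < b ∧ ∃ S : ℕ → Finset ℕ, (∃ N₁ : ℕ, ∀ N : ℕ, N₁ ≤ N → (#(S N) : ℝ) ≤ η * N) ∧
      ∀ (d : Dat) (ε : ℝ), 0 < ε → ∃ N₀ : ℕ, ∀ N : ℕ, N₀ ≤ N →
        (#(open Classical in badC d ε C b N \ S N) : ℝ) ≤ (N : ℝ) ^ (1 - b) := by
  classical
  obtain ⟨u, hu, N₁, hN₁⟩ := smoothFew η hη
  have hu' : (0 : ℝ) < u := by exact_mod_cast hu
  obtain ⟨θ', hθ', hall⟩ := primesAll (1 / 5) (19 / 20) C (by norm_num) (by norm_num) (by norm_num)
    hC (by norm_num; linarith)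
  refine ⟨1 / (40 * u), by positivity, fun N => smo ((N : ℝ) ^ (1 / (u : ℝ))) N,
    ⟨N₁, fun N hN => ?_⟩, fun d ε hε => ?_⟩
  · have := hN₁ N hN
    unfold smo
    refine le_trans (le_of_eq ?_) this
    congr!
  obtain ⟨Y₁, hY₁⟩ := hall d ε hε
  have hlog : Tendsto (fun x : ℕ => Real.log (x : ℝ)) atTop atTop :=
    Real.tendsto_log_atTop.comp tendsto_natCast_atTop_atTop
  have hzt : Tendsto (fun N : ℕ => (N : ℝ) ^ (1 / (u : ℝ))) atTop atTop :=
    (tendsto_rpow_atTop (by positivity)).comp tendsto_natCast_atTop_atTop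
  have e1 : ∀ᶠ N : ℕ in atTop, (Y₁ : ℝ) + 1 ≤ (N : ℝ) ^ (1 / (u : ℝ)) :=
    hzt.eventually_ge_atTop _
  have e2 : ∀ᶠ N : ℕ in atTop, Real.log N ≤ (N : ℝ) ^ (1 / (2 * u : ℝ)) := by
    have h := (isLittleO_log_rpow_atTop (r := 1 / (2 * u : ℝ)) (by positivity)).bound (c := 1)
      one_pos
    have h2 := tendsto_natCast_atTop_atTop (R := ℝ) |>.eventually h
    filter_upwards [h2] with x hx
    rw [one_mul, Real.norm_of_nonneg (Real.log_natCast_nonneg x),
      Real.norm_of_nonneg (by positivity)] at hx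
    exact hx
  have e3 : ∀ᶠ N : ℕ in atTop, 4 * Real.log N ≤ (N : ℝ) ^ (1 / (u : ℝ) * (1 / 40)) := by
    have h := (isLittleO_log_rpow_atTop (r := 1 / (u : ℝ) * (1 / 40)) (by positivity)).bound
      (c := 1 / 4) (by positivity)
    have h2 := tendsto_natCast_atTop_atTop (R := ℝ) |>.eventually h
    filter_upwards [h2] with x hx
    rw [Real.norm_of_nonneg (Real.log_natCast_nonneg x),
      Real.norm_of_nonneg (by positivity)] at hx
    linarith
  have e4 : ∀ᶠ N : ℕ in atTop, (1 : ℝ) ≤ Real.log N := hlog.eventually_ge_atTop _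
  obtain ⟨N₂, hN₂⟩ := eventually_atTop.1 ((e1.and e2).and (e3.and e4))
  refine ⟨max N₂ 2, fun N hN => ?_⟩
  have hNN2 : N₂ ≤ N := (le_max_left _ _).trans hN
  have hN2 : 2 ≤ N := (le_max_right _ _).trans hN
  obtain ⟨⟨e1, e2⟩, ⟨e3, e4⟩⟩ := hN₂ N hNN2
  have hN0 : (0 : ℝ) < N := by exact_mod_cast (by omega : 0 < N)
  have hN1 : (1 : ℝ) ≤ N := by exact_mod_cast (by omega : 1 ≤ N)
  set z : ℝ := (N : ℝ) ^ (1 / (u : ℝ)) with hz
  have hz0 : 0 < z := by positivity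
  have hY10 : (0 : ℝ) ≤ Y₁ := Nat.cast_nonneg _
  have hz1 : 1 ≤ z := by linarith
  have hsq : √z = (N : ℝ) ^ (1 / (2 * u : ℝ)) := by
    rw [hz, Real.sqrt_eq_rpow, ← Real.rpow_mul hN0.le]
    congr 1
    field_simp
  have hzb : (N : ℝ) ^ (1 / (40 * u : ℝ)) ≤ z ^ (1 / 5 : ℝ) := by
    rw [hz, ← Real.rpow_mul hN0.le]
    apply Real.rpow_le_rpow_of_exponent_le hN1
    rw [div_mul_div_comm, one_mul, div_le_div_iff₀ (by positivity) (by positivity)]
    nlinarith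
  have hcov := cover_C d ε (1 / 5) C (1 / (40 * u)) (by norm_num) (by linarith) N z hz0.le hzb
  have hcov' : (#(badC d ε C (1 / (40 * u)) N \ smo z N) : ℝ) ≤
      ∑ l ∈ (Icc 1 N).filter (fun l : ℕ => z < ((N / l : ℕ) : ℝ)),
        (#(badG d ε (C * Real.log ((N / l : ℕ) : ℝ)) (((N / l : ℕ) : ℝ) ^ (1 / 5 : ℝ)) l
          (N / l)) : ℝ) := by
    exact_mod_cast hcov
  refine hcov'.trans ?_
  have hterm : ∀ l ∈ (Icc 1 N).filter (fun l : ℕ => z < ((N / l : ℕ) : ℝ)),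
      (#(badG d ε (C * Real.log ((N / l : ℕ) : ℝ)) (((N / l : ℕ) : ℝ) ^ (1 / 5 : ℝ)) l
          (N / l)) : ℝ) ≤ 2 * (N * z ^ (-(1 / 20) : ℝ) * (1 / l)) := by
    intro l hl
    rw [mem_filter, mem_Icc] at hl
    obtain ⟨⟨hl1, hlN⟩, hlz⟩ := hl
    have hl0 : (0 : ℝ) < l := by exact_mod_cast hl1
    have hyR : ((N / l : ℕ) : ℝ) ≤ (N : ℝ) / l := Nat.cast_div_le
    have hy0 : (0 : ℝ) < ((N / l : ℕ) : ℝ) := hz0.trans hlz
    have hb := hY₁ (N / l) (by
      have : (Y₁ : ℝ) ≤ ((N / l : ℕ) : ℝ) := by linarith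
      exact_mod_cast this) l hl1 (by
      refine le_trans (Real.log_le_log hl0 (?_ : (l : ℝ) ≤ N)) (e2.trans ?_)
      · exact_mod_cast hlN
      · rw [← hsq]
        exact Real.sqrt_le_sqrt hlz.le)
    refine hb.trans ?_
    have hy1 : (1 : ℝ) ≤ ((N / l : ℕ) : ℝ) := by linarith
    have h0 : ((N / l : ℕ) : ℝ) ^ θ' ≤ ((N / l : ℕ) : ℝ) ^ (19 / 20 : ℝ) :=
      Real.rpow_le_rpow_of_exponent_le hy1 hθ'.le
    have h1 : ((N / l : ℕ) : ℝ) ^ (19 / 20 : ℝ) =
        ((N / l : ℕ) : ℝ) * ((N / l : ℕ) : ℝ) ^ (-(1 / 20) : ℝ) := by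
      rw [← Real.rpow_one_add' hy0.le (by norm_num)]
      norm_num
    apply mul_le_mul_of_nonneg_left _ (by norm_num : (0 : ℝ) ≤ 2)
    refine h0.trans ?_
    rw [h1]
    calc ((N / l : ℕ) : ℝ) * ((N / l : ℕ) : ℝ) ^ (-(1 / 20) : ℝ)
        ≤ ((N : ℝ) / l) * z ^ (-(1 / 20) : ℝ) := by
          apply mul_le_mul hyR _ (by positivity) (by positivity)
          exact Real.rpow_le_rpow_of_nonpos hz0 hlz.le (by norm_num)
      _ = N * z ^ (-(1 / 20) : ℝ) * (1 / l) := by ring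
  refine (sum_le_sum hterm).trans ?_
  rw [← mul_sum, ← mul_sum]
  have hh : ∑ l ∈ (Icc 1 N).filter (fun l : ℕ => z < ((N / l : ℕ) : ℝ)), (1 : ℝ) / l
      ≤ 2 * Real.log N := by
    refine (sum_le_sum_of_subset_of_nonneg (filter_subset _ _) fun m _ _ => by positivity).trans ?_
    refine (int_harm N).trans ?_
    linarith
  calc 2 * ((N : ℝ) * z ^ (-(1 / 20) : ℝ) *
        ∑ l ∈ (Icc 1 N).filter (fun l : ℕ => z < ((N / l : ℕ) : ℝ)), (1 : ℝ) / l)
      ≤ 2 * ((N : ℝ) * z ^ (-(1 / 20) : ℝ) * (2 * Real.log N)) := by gcongr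
    _ = (N : ℝ) * z ^ (-(1 / 20) : ℝ) * (4 * Real.log N) := by ring
    _ ≤ (N : ℝ) * z ^ (-(1 / 20) : ℝ) * ((N : ℝ) ^ (1 / (u : ℝ) * (1 / 40))) := by
        gcongr
    _ = (N : ℝ) ^ (1 - 1 / (40 * u : ℝ)) := by
        rw [hz, ← Real.rpow_mul hN0.le]
        nth_rewrite 1 [← Real.rpow_one (N : ℝ)]
        rw [← Real.rpow_add hN0, ← Real.rpow_add hN0]
        congr 1
        field_simp
        ring

end Pool.Agent.W171.EP
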