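import Mathlib
import Pool.Agent.W171.EP.IntRangeF

set_option autoImplicit false

/-! # Gluing counting problems, and uniformity over families of counting problems -/

namespace Pool.Agent.W171.EP

open Finset Filter Topology
open Pool.Agent.H386R2.Artin (PP)
open Pool.Agent.H771R4.SE (Dat cntE)

/-- sum over the primes up to `x` -/
noncomputable def sG (G : ℕ → ℝ) (x : ℕ) : ℝ := ∑ p ∈ PP x, G p

lemma mem_PP' {x p : ℕ} : p ∈ PP x ↔ p ≤ x ∧ p.Prime := by
  unfold PP
  rw [mem_filter, mem_range, Nat.lt_succ_iff]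

lemma card_PP (x : ℕ) : #(PP x) = Nat.primeCounting x := by
  unfold PP
  rw [Nat.primeCounting, Nat.primeCounting', Nat.count_eq_card_filter_range]

lemma sG_diff (G H : ℕ → ℝ) {a x : ℕ} (hax : a ≤ x)
    (h : ∀ p : ℕ, p.Prime → a < p → p ≤ x → G p = H p) :
    sG G x - sG G a = sG H x - sG H a := by
  classical
  have hsub : PP a ⊆ PP x := by
    intro p hp
    rw [mem_PP'] at hp ⊢
    exact ⟨hp.1.trans hax, hp.2⟩
  unfold sG
  rw [← Finset.sum_sdiff hsub, ← Finset.sum_sdiff (f := H) hsub, add_sub_cancel_right,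
    add_sub_cancel_right]
  refine Finset.sum_congr rfl fun p hp => ?_
  rw [Finset.mem_sdiff, mem_PP', mem_PP'] at hp
  exact h p hp.1.2 (by
    by_contra hcon
    exact hp.2 ⟨by omega, hp.1.2⟩) hp.1.1

lemma sG_bound (G : ℕ → ℝ) (h0 : ∀ p, 0 ≤ G p) (h1 : ∀ p, G p ≤ 2) (A : ℝ) (x : ℕ) :
    |sG G x - A * (Nat.primeCounting x : ℝ)| ≤ (2 + |A|) * (x + 1) := by
  have e1 : |sG G x| ≤ 2 * (Nat.primeCounting x : ℝ) := by
    unfold sG
    refine (Finset.abs_sum_le_sum_abs _ _).trans ?_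
    rw [← card_PP, mul_comm, ← nsmul_eq_mul]
    refine Finset.sum_le_card_nsmul _ _ _ fun p _ => ?_
    rw [abs_of_nonneg (h0 p)]
    exact h1 p
  have e2 : (Nat.primeCounting x : ℝ) ≤ x + 1 := by
    have : Nat.primeCounting x ≤ x + 1 := by
      rw [← card_PP]
      refine (Finset.card_le_card (Finset.filter_subset _ _)).trans ?_
      rw [card_range]
    exact_mod_cast this
  have e3 : (0 : ℝ) ≤ (Nat.primeCounting x : ℝ) := Nat.cast_nonneg _
  calc |sG G x - A * (Nat.primeCounting x : ℝ)| ≤ |sG G x| + |A * (Nat.primeCounting x : ℝ)| :=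
        abs_sub _ _
    _ ≤ 2 * (Nat.primeCounting x : ℝ) + |A| * (Nat.primeCounting x : ℝ) := by
        rw [abs_mul, abs_of_nonneg e3]
        linarith
    _ = (2 + |A|) * (Nat.primeCounting x : ℝ) := by ring
    _ ≤ _ := by
        have := abs_nonneg A
        gcongr

/-- a sequence of blocks `(M j, T j]` -/
structure Blocks where
  M : ℕ → ℕ
  T : ℕ → ℕ
  MT : ∀ j, M j ≤ T j
  TM : ∀ j, T j < M (j + 1)

namespace Blocks

variable (B : Blocks)

lemma T_mono : StrictMono B.T := by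
  refine strictMono_nat_of_lt_succ fun j => ?_
  exact (B.TM j).trans_le (B.MT (j + 1))

lemma uniq {i j p : ℕ} (hi : B.M i < p ∧ p ≤ B.T i) (hj : B.M j < p ∧ p ≤ B.T j) : i = j := by
  rcases lt_trichotomy i j with h | h | h
  · exfalso
    have h1 : B.T i ≤ B.T (j - 1) := B.T_mono.monotone (by omega)
    have h2 := B.TM (j - 1)
    rw [Nat.sub_add_cancel (by omega)] at h2
    omega
  · exact h
  · exfalso
    have h1 : B.T j ≤ B.T (i - 1) := B.T_mono.monotone (by omega)
    have h2 := B.TM (i - 1)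
    rw [Nat.sub_add_cancel (by omega)] at h2
    omega

/-- the index of a prime -/
noncomputable def idx {ι : Type} (i0 : ι) (f : ℕ → ι) (p : ℕ) : ι := by
  classical
  exact if h : ∃ j, B.M j < p ∧ p ≤ B.T j then f h.choose else i0

lemma idx_in {ι : Type} (i0 : ι) (f : ℕ → ι) {p j : ℕ} (h : B.M j < p ∧ p ≤ B.T j) :
    B.idx i0 f p = f j := by
  classical
  have h' : ∃ j, B.M j < p ∧ p ≤ B.T j := ⟨j, h⟩
  unfold idx
  rw [dif_pos h', B.uniq h'.choose_spec h]

lemma idx_out {ι : Type} (i0 : ι) (f : ℕ → ι) {p j : ℕ} (h : B.T j < p ∧ p ≤ B.M (j + 1)) :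
    B.idx i0 f p = i0 := by
  classical
  unfold idx
  rw [dif_neg]
  rintro ⟨i, h1, h2⟩
  rcases Nat.lt_or_ge j i with h3 | h3
  · have h4 : B.T j ≤ B.T (i - 1) := B.T_mono.monotone (by omega)
    have h5 : B.M (j + 1) ≤ B.M i := by
      rcases Nat.eq_or_lt_of_le h3 with h6 | h6
      · rw [← h6]
      · have h7 : B.T (j + 1) ≤ B.T (i - 1) := B.T_mono.monotone (by omega)
        have h8 := B.TM (i - 1)
        rw [Nat.sub_add_cancel (by omega)] at h8
        have h9 := B.MT (j + 1)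
        omega
    omega
  · have h4 : B.T i ≤ B.T j := B.T_mono.monotone h3
    omega

end Blocks

/-- the mean of the glued densities -/
lemma glue_lim {ι : Type} (G : ι → ℕ → ℝ) (h0 : ∀ i p, 0 ≤ G i p) (h1 : ∀ i p, G i p ≤ 2) (A : ℝ)
    (B : Blocks) (i0 : ι) (f : ℕ → ι)
    (hm0 : Tendsto (fun x : ℕ => sG (G i0) x / (Nat.primeCounting x : ℝ)) atTop (𝓝 A))
    (hm : ∀ j x : ℕ, B.M (j + 1) ≤ x → |sG (G (f (j + 1))) x - A * (Nat.primeCounting x : ℝ)| ≤
      1 / (j + 1 : ℝ) * (Nat.primeCounting x : ℝ))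
    (hg : ∀ j : ℕ, (j + 1 : ℝ) * ((2 + |A|) * ((B.T j : ℝ) + 1)) ≤
      (Nat.primeCounting (B.M (j + 1)) : ℝ)) :
    Tendsto (fun x : ℕ => sG (fun p => G (B.idx i0 f p) p) x / (Nat.primeCounting x : ℝ)) atTop
      (𝓝 A) := by
  set H : ℕ → ℝ := fun p => G (B.idx i0 f p) p with hH
  set E : ℕ → ℝ := fun x => sG H x - A * (Nat.primeCounting x : ℝ) with hE
  rw [Metric.tendsto_atTop] at hm0 ⊢
  intro ε hε
  obtain ⟨x0, hx0⟩ := hm0 (ε / 20) (by positivity)
  have hπ : ∀ᶠ x : ℕ in atTop, (1 : ℝ) ≤ (Nat.primeCounting x : ℝ) :=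
    (Filter.tendsto_atTop.mp (tendsto_natCast_atTop_atTop.comp Nat.tendsto_primeCounting) _)
  obtain ⟨x1, hx1⟩ := eventually_atTop.1 hπ
  obtain ⟨J, hJ⟩ := exists_nat_gt (20 / ε)
  have hJ0 : (0 : ℝ) < J := lt_of_lt_of_le (by positivity) hJ.le
  -- the base problem
  have hb : ∀ x : ℕ, x0 ≤ x → x1 ≤ x →
      |sG (G i0) x - A * (Nat.primeCounting x : ℝ)| ≤ ε / 20 * (Nat.primeCounting x : ℝ) := by
    intro x h2 h3
    have h4 := hx0 x h2
    have h5 := hx1 x h3
    have hP : (0 : ℝ) < (Nat.primeCounting x : ℝ) := lt_of_lt_of_le one_pos h5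
    rw [Real.dist_eq] at h4
    have h6 : sG (G i0) x - A * (Nat.primeCounting x : ℝ) =
        (sG (G i0) x / (Nat.primeCounting x : ℝ) - A) * (Nat.primeCounting x : ℝ) := by
      field_simp
    rw [h6, abs_mul, abs_of_pos hP]
    exact mul_le_mul_of_nonneg_right h4.le hP.le
  have hmono : ∀ {a x : ℕ}, a ≤ x → (Nat.primeCounting a : ℝ) ≤ (Nat.primeCounting x : ℝ) :=
    fun h => by exact_mod_cast Nat.monotone_primeCounting h
  -- one block
  have hstep : ∀ j x : ℕ, J ≤ j → x0 ≤ B.T j → x1 ≤ B.T j → B.T j ≤ x → x ≤ B.T (j + 1) →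
      |E x - E (B.T j)| ≤ 4 * (ε / 20) * (Nat.primeCounting x : ℝ) := by
    intro j x hjJ h2 h3 h4 h5
    have hj1 : 1 / (j + 1 : ℝ) ≤ ε / 20 := by
      rw [div_le_div_iff₀ (by positivity) (by norm_num)]
      have h7 : (J : ℝ) ≤ j := by exact_mod_cast hjJ
      have h8 : 20 < ε * J := by
        rw [div_lt_iff₀ hε] at hJ
        linarith
      nlinarith
    have key0 : ∀ z : ℕ, B.T j ≤ z → z ≤ B.M (j + 1) →
        |E z - E (B.T j)| ≤ 2 * (ε / 20) * (Nat.primeCounting z : ℝ) := by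
      intro z hz1 hz2
      have e1 := sG_diff H (G i0) hz1 (fun p _ hp1 hp2 => by
        simp only [hH]
        rw [B.idx_out i0 f ⟨hp1, hp2.trans hz2⟩])
      have e2 := hb z (h2.trans hz1) (h3.trans hz1)
      have e3 := hb (B.T j) h2 h3
      have e4 := hmono hz1
      have e5 : E z - E (B.T j) = (sG (G i0) z - A * (Nat.primeCounting z : ℝ)) -
          (sG (G i0) (B.T j) - A * (Nat.primeCounting (B.T j) : ℝ)) := by
        simp only [hE]
        linarith
      rw [e5]
      refine (abs_sub _ _).trans ?_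
      nlinarith
    rcases le_total x (B.M (j + 1)) with h6 | h6
    · refine (key0 x h4 h6).trans ?_
      have : (0 : ℝ) ≤ (Nat.primeCounting x : ℝ) := Nat.cast_nonneg _
      nlinarith
    · have k0 := key0 (B.M (j + 1)) (B.TM j).le le_rfl
      have e1 := sG_diff H (G (f (j + 1))) h6 (fun p _ hp1 hp2 => by
        simp only [hH]
        rw [B.idx_in i0 f ⟨hp1, hp2.trans h5⟩])
      have e2 := hm j x h6
      have e3 := hm j (B.M (j + 1)) le_rfl
      have e4 := hmono h6
      have e5 : E x - E (B.M (j + 1)) =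
          (sG (G (f (j + 1))) x - A * (Nat.primeCounting x : ℝ)) -
          (sG (G (f (j + 1))) (B.M (j + 1)) - A * (Nat.primeCounting (B.M (j + 1)) : ℝ)) := by
        simp only [hE]
        linarith
      have e6 : E x - E (B.T j) = (E x - E (B.M (j + 1))) + (E (B.M (j + 1)) - E (B.T j)) := by
        ring
      have hP : (0 : ℝ) ≤ (Nat.primeCounting x : ℝ) := Nat.cast_nonneg _
      have hPM : (0 : ℝ) ≤ (Nat.primeCounting (B.M (j + 1)) : ℝ) := Nat.cast_nonneg _
      have e7 : |E x - E (B.M (j + 1))| ≤ 2 * (ε / 20) * (Nat.primeCounting x : ℝ) := by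
        rw [e5]
        refine (abs_sub _ _).trans ?_
        have e8 : 1 / (j + 1 : ℝ) * (Nat.primeCounting x : ℝ) ≤
            ε / 20 * (Nat.primeCounting x : ℝ) := mul_le_mul_of_nonneg_right hj1 hP
        have e9 : 1 / (j + 1 : ℝ) * (Nat.primeCounting (B.M (j + 1)) : ℝ) ≤
            ε / 20 * (Nat.primeCounting (B.M (j + 1)) : ℝ) := mul_le_mul_of_nonneg_right hj1 hPM
        nlinarith
      rw [e6]
      refine (abs_add_le _ _).trans ?_
      nlinarith
  -- the ends of the blocks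
  have hend : ∀ j : ℕ, J ≤ j → x0 ≤ B.T j → x1 ≤ B.T j →
      |E (B.T (j + 1))| ≤ 5 * (ε / 20) * (Nat.primeCounting (B.T (j + 1)) : ℝ) := by
    intro j hjJ h2 h3
    have k1 := hstep j (B.T (j + 1)) hjJ h2 h3 (B.T_mono (Nat.lt_succ_self j)).le le_rfl
    have k2 := sG_bound H (fun p => h0 _ p) (fun p => h1 _ p) A (B.T j)
    have k3 := hg j
    have k4 := hmono (B.MT (j + 1))
    have k5 : |E (B.T j)| ≤ ε / 20 * (Nat.primeCounting (B.T (j + 1)) : ℝ) := by
      have h7 : (J : ℝ) ≤ j := by exact_mod_cast hjJ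
      have h8 : 20 < ε * J := by
        rw [div_lt_iff₀ hε] at hJ
        linarith
      have h9 : (1 : ℝ) ≤ ε / 20 * (j + 1) := by nlinarith
      have h10 : 0 ≤ (2 + |A|) * ((B.T j : ℝ) + 1) := by positivity
      calc |E (B.T j)| ≤ (2 + |A|) * ((B.T j : ℝ) + 1) := k2
        _ ≤ (ε / 20 * (j + 1)) * ((2 + |A|) * ((B.T j : ℝ) + 1)) := by nlinarith
        _ = ε / 20 * ((j + 1) * ((2 + |A|) * ((B.T j : ℝ) + 1))) := by ring
        _ ≤ ε / 20 * (Nat.primeCounting (B.T (j + 1)) : ℝ) := by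
            refine mul_le_mul_of_nonneg_left (k3.trans k4) (by positivity)
    have k6 : |E (B.T (j + 1))| ≤ |E (B.T (j + 1)) - E (B.T j)| + |E (B.T j)| := by
      have : E (B.T (j + 1)) = (E (B.T (j + 1)) - E (B.T j)) + E (B.T j) := by ring
      nth_rewrite 1 [this]
      exact abs_add_le _ _
    linarith
  have hTj : ∀ j, j ≤ B.T j := fun j => B.T_mono.le_apply
  set J1 : ℕ := max J (max x0 x1) with hJ1
  refine ⟨B.T (J1 + 1), fun x hx => ?_⟩
  -- find the block
  obtain ⟨j, hj1, hj2, hj3⟩ : ∃ j : ℕ, J1 + 1 ≤ j ∧ B.T j ≤ x ∧ x ≤ B.T (j + 1) := by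
    have hex : ∃ n, x < B.T n := ⟨x + 1, lt_of_lt_of_le (Nat.lt_succ_self x) (hTj (x + 1))⟩
    classical
    set n := Nat.find hex with hn
    have h2 : x < B.T n := Nat.find_spec hex
    have h3 : J1 + 1 < n := by
      by_contra hcon
      push Not at hcon
      exact absurd (lt_of_lt_of_le h2 (B.T_mono.monotone hcon)) (not_lt.2 hx)
    have h4 : ¬ x < B.T (n - 1) := Nat.find_min hex (by omega)
    refine ⟨n - 1, by omega, not_lt.1 h4, ?_⟩
    rw [Nat.sub_add_cancel (by omega)]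
    exact h2.le
  have hx0j : x0 ≤ B.T j := by
    have := hTj j
    have h2 : x0 ≤ J1 := (le_max_left _ _).trans (le_max_right _ _)
    omega
  have hx1j : x1 ≤ B.T j := by
    have := hTj j
    have h2 : x1 ≤ J1 := (le_max_right _ _).trans (le_max_right _ _)
    omega
  have hJj : J ≤ j := by
    have h2 : J ≤ J1 := le_max_left _ _
    omega
  have k1 := hstep j x hJj hx0j hx1j hj2 hj3
  have k2 : |E (B.T j)| ≤ 5 * (ε / 20) * (Nat.primeCounting (B.T j) : ℝ) := by
    have hx0j' : x0 ≤ B.T (j - 1) := by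
      have := hTj (j - 1)
      have h2 : x0 ≤ J1 := (le_max_left _ _).trans (le_max_right _ _)
      omega
    have hx1j' : x1 ≤ B.T (j - 1) := by
      have := hTj (j - 1)
      have h2 : x1 ≤ J1 := (le_max_right _ _).trans (le_max_right _ _)
      omega
    have hJj' : J ≤ j - 1 := by
      have h2 : J ≤ J1 := le_max_left _ _
      omega
    have := hend (j - 1) hJj' hx0j' hx1j'
    rwa [Nat.sub_add_cancel (by omega)] at this
  have k3 := hmono hj2
  have k4 : (1 : ℝ) ≤ (Nat.primeCounting x : ℝ) := hx1 x (hx1j.trans hj2)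
  have hP : (0 : ℝ) < (Nat.primeCounting x : ℝ) := lt_of_lt_of_le one_pos k4
  have k5 : |E x| ≤ |E x - E (B.T j)| + |E (B.T j)| := by
    have : E x = (E x - E (B.T j)) + E (B.T j) := by ring
    nth_rewrite 1 [this]
    exact abs_add_le _ _
  have k6 : |E x| < ε * (Nat.primeCounting x : ℝ) := by
    have k7 : 5 * (ε / 20) * (Nat.primeCounting (B.T j) : ℝ) ≤
        5 * (ε / 20) * (Nat.primeCounting x : ℝ) := by gcongr
    have : 0 < ε * (Nat.primeCounting x : ℝ) := by positivity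
    nlinarith
  rw [Real.dist_eq]
  have k8 : sG H x / (Nat.primeCounting x : ℝ) - A = E x / (Nat.primeCounting x : ℝ) := by
    simp only [hE]
    field_simp
  rw [k8, abs_div, abs_of_pos hP, div_lt_iff₀ hP]
  exact k6

end Pool.Agent.W171.EP
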