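import Mathlib
import Pool.Agent.W171.EP.Glue

set_option autoImplicit false

/-! # Uniformity over families of counting problems -/

namespace Pool.Agent.W171.EP

open Finset Filter Topology
open Pool.Agent.H386R2.Artin (PP)
open Pool.Agent.H771R4.SE (Dat cntE)

/-- the glued counting problem -/
noncomputable def glueDat {ι : Type} (d : ι → Dat) (A : ℝ) (P0 : ℕ)
    (hP : ∀ i, (d i).p0 ≤ P0) (B : Blocks) (i0 : ι) (f : ℕ → ι)
    (hlim : Tendsto (fun x : ℕ => sG (fun p => (d (B.idx i0 f p)).G p) x /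
      (Nat.primeCounting x : ℝ)) atTop (𝓝 A)) : Dat where
  Q := fun p => (d (B.idx i0 f p)).Q p
  G := fun p => (d (B.idx i0 f p)).G p
  A := A
  p0 := P0
  G0 := fun p => (d _).G0 p
  G1 := fun p => (d _).G1 p
  loc := fun p hp hp0 => (d (B.idx i0 f p)).loc p hp ((hP _).trans hp0)
  lim := hlim

/-- **Uniformity.** -/
theorem unif {ι : Type} (d : ι → Dat) (A : ℝ) (P0 : ℕ) (hA : ∀ i, (d i).A = A)
    (hP : ∀ i, (d i).p0 ≤ P0) (i0 : ι) (W : ℕ → ℕ → ι → Prop)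
    (hmean : ∀ k : ℕ, ∃ x0 : ℕ, ∀ (N x : ℕ) (i : ι), W k N i → x0 ≤ x → N ≤ x →
      |sG (d i).G x - A * (Nat.primeCounting x : ℝ)| ≤
        1 / (k + 1 : ℝ) * (Nat.primeCounting x : ℝ))
    (b : ℝ) (Bad : Dat → ℝ → ℕ → Prop)
    (h1 : ∀ (D : Dat) (ε : ℝ), 0 < ε → ∃ N₀ : ℕ, ∀ N : ℕ, N₀ ≤ N → ¬ Bad D ε N)
    (h2 : ∀ ε : ℝ, 0 < ε → ∃ N₁ : ℕ, ∀ N : ℕ, N₁ ≤ N → ∀ D D' : Dat, D.A = D'.A →
      (∀ p : ℕ, N < p → (p : ℝ) ≤ Real.exp ((N : ℝ) ^ b) → ∀ a : ZMod p, D.Q p a ↔ D'.Q p a) →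
      Bad D ε N → Bad D' (ε / 2) N) (ε : ℝ) (hε : 0 < ε) :
    ∃ k N₀ : ℕ, ∀ N : ℕ, N₀ ≤ N → ∀ i, W k N i → ¬ Bad (d i) ε N := by
  by_contra hcon
  push Not at hcon
  choose s hs g hgW hgB using hcon
  choose x0 hx0 using hmean
  set top : ℕ → ℕ := fun m => max m ⌊Real.exp ((m : ℝ) ^ b)⌋₊ with htop
  have hth : ∀ j m : ℕ, ∃ n : ℕ, ∀ N : ℕ, n ≤ N → (top m < N ∧
      (j + 1 : ℝ) * ((2 + |A|) * ((top m : ℝ) + 1)) ≤ (Nat.primeCounting N : ℝ)) ∧
      (x0 j ≤ N ∧ j ≤ N) := by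
    intro j m
    have e1 : ∀ᶠ N : ℕ in atTop, (j + 1 : ℝ) * ((2 + |A|) * ((top m : ℝ) + 1)) ≤
        (Nat.primeCounting N : ℝ) :=
      (Filter.tendsto_atTop.mp (tendsto_natCast_atTop_atTop.comp Nat.tendsto_primeCounting) _)
    exact eventually_atTop.1 (((eventually_gt_atTop (top m)).and e1).and
      ((eventually_ge_atTop (x0 j)).and (eventually_ge_atTop j)))
  choose th hth using hth
  set M : ℕ → ℕ := fun j => Nat.rec (s 0 0) (fun j m => s j (th j m)) j with hM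
  have hM1 : ∀ j, M (j + 1) = s j (th j (M j)) := fun j => rfl
  set f : ℕ → ι := fun j => Nat.rec (g 0 0) (fun j _ => g j (th j (M j))) j with hf
  have hf1 : ∀ j, f (j + 1) = g j (th j (M j)) := fun j => rfl
  have hall : ∀ j, (top (M j) < M (j + 1) ∧
      (j + 1 : ℝ) * ((2 + |A|) * ((top (M j) : ℝ) + 1)) ≤ (Nat.primeCounting (M (j + 1)) : ℝ)) ∧
      (x0 j ≤ M (j + 1) ∧ j ≤ M (j + 1)) := by
    intro j
    rw [hM1]
    exact hth j (M j) _ (hs j (th j (M j)))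
  let B : Blocks :=
    { M := M
      T := fun j => top (M j)
      MT := fun j => le_max_left _ _
      TM := fun j => (hall j).1.1 }
  have hlim := glue_lim (fun i => (d i).G) (fun i => (d i).G0) (fun i => (d i).G1) A B i0 f
    (by
      have := (d i0).lim
      rw [hA i0] at this
      exact this)
    (fun j x hx => by
      have h3 : M (j + 1) ≤ x := hx
      refine hx0 j (M (j + 1)) x (f (j + 1)) ?_ ((hall j).2.1.trans h3) h3
      rw [hM1, hf1]
      exact hgW j _)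
    (fun j => (hall j).1.2)
  set D : Dat := glueDat d A P0 hP B i0 f hlim with hD
  obtain ⟨N₀, hN₀⟩ := h1 D (ε / 2) (by positivity)
  obtain ⟨N₁, hN₁⟩ := h2 ε hε
  set j : ℕ := max N₀ N₁ with hj
  have hMj := (hall j).2.2
  have hb : Bad (d (f (j + 1))) ε (M (j + 1)) := by
    rw [hM1, hf1]
    exact hgB j _
  refine hN₀ (M (j + 1)) ((le_max_left _ _).trans hMj) (hN₁ (M (j + 1))
    ((le_max_right _ _).trans hMj) (d (f (j + 1))) D (hA _) ?_ hb)
  intro p hp1 hp2 a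
  have hin : B.idx i0 f p = f (j + 1) :=
    B.idx_in i0 f (j := j + 1) ⟨hp1, (Nat.le_floor hp2).trans (le_max_right _ _)⟩
  change _ ↔ (d (B.idx i0 f p)).Q p a
  rw [hin]

/-- counting functions of problems which agree at the primes `> N` -/
lemma cntE_close {d d' : Dat} {N x : ℕ} (m : ℕ)
    (h : ∀ p : ℕ, N < p → p ≤ x → ∀ a : ZMod p, d.Q p a ↔ d'.Q p a) :
    (cntE d m x : ℝ) ≤ cntE d' m x + (N + 1) := by
  classical
  unfold cntE
  have hsub : (range (x + 1)).filter (fun p : ℕ => p.Prime ∧ d.Q p (m : ZMod p)) ⊆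
      (range (x + 1)).filter (fun p : ℕ => p.Prime ∧ d'.Q p (m : ZMod p)) ∪ range (N + 1) := by
    intro p hp
    rw [mem_filter, mem_range] at hp
    rw [Finset.mem_union, mem_filter, mem_range, mem_range]
    by_cases hpN : p ≤ N
    · right; omega
    · left
      refine ⟨hp.1, hp.2.1, ?_⟩
      rw [← h p (by omega) (by omega)]
      exact hp.2.2
  have h1 := (card_le_card hsub).trans (card_union_le _ _)
  rw [card_range] at h1
  have h2 : (#((range (x + 1)).filter (fun p : ℕ => p.Prime ∧ d.Q p (m : ZMod p))) : ℝ) ≤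
      (#((range (x + 1)).filter (fun p : ℕ => p.Prime ∧ d'.Q p (m : ZMod p))) : ℝ) + (N + 1) := by
    exact_mod_cast h1
  refine le_trans (le_of_eq ?_) (h2.trans (le_of_eq ?_))
  · congr!
  · congr!

lemma ev_pi (C : ℝ) (hC : 1 < C) (ε : ℝ) (hε : 0 < ε) : ∃ N₁ : ℕ, ∀ N : ℕ, N₁ ≤ N → ∀ x : ℕ,
    C * Real.log N ≤ Real.log x → (N : ℝ) + 1 ≤ ε * (Nat.primeCounting x : ℝ) := by
  have hC0 : 0 < C := by linarith
  have hs : 0 < 1 - 1 / C := by
    rw [sub_pos, div_lt_one hC0]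
    exact hC
  have e1 : ∀ᶠ x : ℝ in atTop, Real.log x ≤ ε / 4 * x ^ (1 - 1 / C) := by
    have h := (isLittleO_log_rpow_atTop (r := 1 - 1 / C) hs).bound (c := ε / 4) (by positivity)
    filter_upwards [h, eventually_gt_atTop 1] with x h1 h2
    rw [Real.norm_of_nonneg (Real.log_nonneg h2.le), Real.norm_of_nonneg (by positivity)] at h1
    exact h1
  obtain ⟨X1, hX1⟩ := eventually_atTop.1 ((tendsto_natCast_atTop_atTop (R := ℝ)).eventually e1)
  obtain ⟨X2, -, hX2⟩ := Pool.Agent.H386R2.Artin.pi_lower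
  set X : ℕ := max X1 X2 with hXdef
  refine ⟨X + 2, fun N hN x hx => ?_⟩
  have hN2 : (2 : ℝ) ≤ N := by exact_mod_cast (by omega : 2 ≤ N)
  have hN0 : (0 : ℝ) < N := by linarith
  have hlN : 0 < Real.log N := Real.log_pos (by linarith)
  have hlx : 0 < Real.log x := lt_of_lt_of_le (by positivity) hx
  have hx1 : (1 : ℝ) < x := by
    by_contra hcon
    push Not at hcon
    have := Real.log_nonpos (Nat.cast_nonneg x) hcon
    linarith
  have hx0 : (0 : ℝ) < x := by linarith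
  have hNx : (N : ℝ) ≤ (x : ℝ) ^ (1 / C) := by
    rw [Real.le_rpow_iff_log_le hN0 hx0, one_div, inv_mul_eq_div, le_div_iff₀ hC0, mul_comm]
    exact hx
  have hNx' : (N : ℝ) ≤ x := by
    refine hNx.trans ?_
    calc (x : ℝ) ^ (1 / C) ≤ (x : ℝ) ^ (1 : ℝ) := by
          refine Real.rpow_le_rpow_of_exponent_le hx1.le ?_
          linarith
      _ = x := Real.rpow_one _
  have hXx : X ≤ x := by
    have : N ≤ x := by exact_mod_cast hNx'
    omega
  have k1 := hX1 x ((le_max_left _ _).trans hXx)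
  have k2 := hX2 x ((le_max_right _ _).trans hXx)
  have k3 : (N : ℝ) + 1 ≤ 2 * (x : ℝ) ^ (1 / C) := by linarith
  refine k3.trans ?_
  have k4 : ε * ((x : ℝ) / (2 * Real.log x)) ≤ ε * (Nat.primeCounting x : ℝ) := by gcongr
  refine le_trans ?_ k4
  rw [← mul_div_assoc, le_div_iff₀ (by positivity)]
  calc 2 * (x : ℝ) ^ (1 / C) * (2 * Real.log x)
      ≤ 2 * (x : ℝ) ^ (1 / C) * (2 * (ε / 4 * (x : ℝ) ^ (1 - 1 / C))) := by gcongr
    _ = ε * ((x : ℝ) ^ (1 / C) * (x : ℝ) ^ (1 - 1 / C)) := by ring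
    _ = ε * x := by
        rw [← Real.rpow_add hx0]
        simp

open Classical in
/-- the family version of `intRangeF` -/
theorem unif_int {ι : Type} (d : ι → Dat) (A : ℝ) (P0 : ℕ) (hA : ∀ i, (d i).A = A)
    (hP : ∀ i, (d i).p0 ≤ P0) (i0 : ι) (W : ℕ → ℕ → ι → Prop)
    (hmean : ∀ k : ℕ, ∃ x0 : ℕ, ∀ (N x : ℕ) (i : ι), W k N i → x0 ≤ x → N ≤ x →
      |sG (d i).G x - A * (Nat.primeCounting x : ℝ)| ≤
        1 / (k + 1 : ℝ) * (Nat.primeCounting x : ℝ))
    (C : ℝ) (hC : 1 < C) (b : ℝ) (S : ℕ → Finset ℕ)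
    (hall : ∀ (D : Dat) (ε : ℝ), 0 < ε → ∃ N₀ : ℕ, ∀ N : ℕ, N₀ ≤ N →
        (#(badC D ε C b N \ S N) : ℝ) ≤ (N : ℝ) ^ (1 - b)) (ε : ℝ) (hε : 0 < ε) :
    ∃ k N₀ : ℕ, ∀ N : ℕ, N₀ ≤ N → ∀ i, W k N i →
      (#(badC (d i) ε C b N \ S N) : ℝ) ≤ (N : ℝ) ^ (1 - b) := by
  obtain ⟨k, N₀, h⟩ := unif d A P0 hA hP i0 W hmean b
    (fun D ε N => ¬ (#(badC D ε C b N \ S N) : ℝ) ≤ (N : ℝ) ^ (1 - b))
    (fun D ε hε => by
      obtain ⟨N₀, h⟩ := hall D ε hε
      exact ⟨N₀, fun N hN => not_not.2 (h N hN)⟩)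
    (fun ε hε => by
      obtain ⟨N₁, h1⟩ := ev_pi C hC (ε / 2) (by positivity)
      refine ⟨N₁, fun N hN D D' hDA hQ hb hb' => hb ?_⟩
      refine le_trans ?_ hb'
      have hsub : badC D ε C b N ⊆ badC D' (ε / 2) C b N := by
        intro m hm
        rw [badC, mem_filter] at hm ⊢
        obtain ⟨hm, x, hx1, hx2, hx3⟩ := hm
        refine ⟨hm, x, hx1, hx2, ?_⟩
        have hπ := h1 N hN x hx1
        have hPx : (0 : ℝ) ≤ (Nat.primeCounting x : ℝ) := Nat.cast_nonneg _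
        have hx0 : (0 : ℝ) < x := by
          rcases Nat.eq_zero_or_pos x with h0 | h0
          · exfalso
            rw [h0] at hπ
            have : (Nat.primeCounting 0 : ℝ) = 0 := by simp [Nat.primeCounting, Nat.primeCounting']
            rw [this, mul_zero] at hπ
            have : (0 : ℝ) ≤ N := Nat.cast_nonneg _
            linarith
          · exact_mod_cast h0
        have hQ' : ∀ p : ℕ, N < p → p ≤ x → ∀ a : ZMod p, D.Q p a ↔ D'.Q p a := by
          intro p hp1 hp2 a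
          refine hQ p hp1 ?_ a
          have : (p : ℝ) ≤ x := by exact_mod_cast hp2
          refine this.trans ?_
          rwa [← Real.log_le_iff_le_exp hx0]
        have c1 := cntE_close m hQ'
        have c2 := cntE_close (d := D') (d' := D) m fun p h1 h2 a => (hQ' p h1 h2 a).symm
        rw [hDA] at hx3
        have c3 : |(cntE D m x : ℝ) - cntE D' m x| ≤ N + 1 := by
          rw [abs_le]
          constructor <;> linarith
        have c4 : |(cntE D m x : ℝ) - D'.A * (Nat.primeCounting x : ℝ)| ≤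
            |(cntE D m x : ℝ) - cntE D' m x| +
              |(cntE D' m x : ℝ) - D'.A * (Nat.primeCounting x : ℝ)| := abs_sub_le _ _ _
        linarith
      exact_mod_cast card_le_card (Finset.sdiff_subset_sdiff hsub (Finset.Subset.refl _))) ε hε
  exact ⟨k, N₀, fun N hN i hi => not_not.1 (h N hN i hi)⟩

open Classical in
/-- the family version of `primesAll` -/
theorem unif_primes {ι : Type} (d : ι → Dat) (A : ℝ) (P0 : ℕ) (hA : ∀ i, (d i).A = A)
    (hP : ∀ i, (d i).p0 ≤ P0) (i0 : ι) (W : ℕ → ℕ → ι → Prop)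
    (hmean : ∀ k : ℕ, ∃ x0 : ℕ, ∀ (N x : ℕ) (i : ι), W k N i → x0 ≤ x → N ≤ x →
      |sG (d i).G x - A * (Nat.primeCounting x : ℝ)| ≤
        1 / (k + 1 : ℝ) * (Nat.primeCounting x : ℝ))
    (C : ℝ) (hC : 1 < C) (α θ' : ℝ)
    (hall : ∀ (D : Dat) (ε : ℝ), 0 < ε → ∃ N₀ : ℕ, ∀ y : ℕ,
      N₀ ≤ y → ∀ l : ℕ, 0 < l → Real.log l ≤ √y →
        (#(badG D ε (C * Real.log y) ((y : ℝ) ^ α) l y) : ℝ) ≤ 2 * (y : ℝ) ^ θ')
    (ε : ℝ) (hε : 0 < ε) :
    ∃ k N₀ : ℕ, ∀ y : ℕ, N₀ ≤ y → ∀ i, W k y i → ∀ l : ℕ, 0 < l → Real.log l ≤ √y →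
        (#(badG (d i) ε (C * Real.log y) ((y : ℝ) ^ α) l y) : ℝ) ≤ 2 * (y : ℝ) ^ θ' := by
  obtain ⟨k, N₀, h⟩ := unif d A P0 hA hP i0 W hmean α
    (fun D ε y => ¬ ∀ l : ℕ, 0 < l → Real.log l ≤ √y →
        (#(badG D ε (C * Real.log y) ((y : ℝ) ^ α) l y) : ℝ) ≤ 2 * (y : ℝ) ^ θ')
    (fun D ε hε => by
      obtain ⟨N₀, h⟩ := hall D ε hε
      exact ⟨N₀, fun N hN => not_not.2 (h N hN)⟩)
    (fun ε hε => by
      obtain ⟨N₁, h1⟩ := ev_pi C hC (ε / 2) (by positivity)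
      refine ⟨N₁, fun N hN D D' hDA hQ hb hb' => hb fun l hl hll => ?_⟩
      refine le_trans ?_ (hb' l hl hll)
      have hsub : badG D ε (C * Real.log N) ((N : ℝ) ^ α) l N ⊆
          badG D' (ε / 2) (C * Real.log N) ((N : ℝ) ^ α) l N := by
        intro q hq
        rw [badG, mem_filter] at hq ⊢
        obtain ⟨hm, x, hx1, hx2, hx3⟩ := hq
        refine ⟨hm, x, hx1, hx2, ?_⟩
        have hπ := h1 N hN x hx1
        have hPx : (0 : ℝ) ≤ (Nat.primeCounting x : ℝ) := Nat.cast_nonneg _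
        have hx0 : (0 : ℝ) < x := by
          rcases Nat.eq_zero_or_pos x with h0 | h0
          · exfalso
            rw [h0] at hπ
            have : (Nat.primeCounting 0 : ℝ) = 0 := by simp [Nat.primeCounting, Nat.primeCounting']
            rw [this, mul_zero] at hπ
            have : (0 : ℝ) ≤ N := Nat.cast_nonneg _
            linarith
          · exact_mod_cast h0
        have hQ' : ∀ p : ℕ, N < p → p ≤ x → ∀ a : ZMod p, D.Q p a ↔ D'.Q p a := by
          intro p hp1 hp2 a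
          refine hQ p hp1 ?_ a
          have : (p : ℝ) ≤ x := by exact_mod_cast hp2
          refine this.trans ?_
          rwa [← Real.log_le_iff_le_exp hx0]
        have c1 := cntE_close (l * q) hQ'
        have c2 := cntE_close (d := D') (d' := D) (l * q) fun p h1 h2 a => (hQ' p h1 h2 a).symm
        rw [hDA] at hx3
        have c3 : |(cntE D (l * q) x : ℝ) - cntE D' (l * q) x| ≤ N + 1 := by
          rw [abs_le]
          constructor <;> linarith
        have c4 : |(cntE D (l * q) x : ℝ) - D'.A * (Nat.primeCounting x : ℝ)| ≤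
            |(cntE D (l * q) x : ℝ) - cntE D' (l * q) x| +
              |(cntE D' (l * q) x : ℝ) - D'.A * (Nat.primeCounting x : ℝ)| := abs_sub_le _ _ _
        linarith
      exact_mod_cast card_le_card hsub) ε hε
  exact ⟨k, N₀, fun N hN i hi => not_not.1 (h N hN i hi)⟩

end Pool.Agent.W171.EP
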