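import Mathlib
import Pool.Agent.W171.EP.AvgP
import Pool.Agent.H730R2.AA.Grid
import Pool.Agent.H771R4.SE.AllX

set_option autoImplicit false

/-! # All `x ≤ exp (y ^ α)` at the same time, for the multiples `l q` of the primes `q ≤ y` -/

namespace Pool.Agent.W171.EP

open Finset Filter Topology
open Pool.Agent.H386R2.Artin (PP)
open Pool.Agent.H771R4.SE (Dat cntE cntE_mono)
open Pool.Agent.H730R2.AA.Grid (g g_ge g_one_le g_step g_mono interp pi_ratio)

open Classical in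
/-- the primes `q ≤ y` for which `l q` is exceptional for some `x` of the range -/
noncomputable def badPX (d : Dat) (ε α c₀ : ℝ) (l y : ℕ) : Finset ℕ :=
  (PP y).filter (fun q : ℕ => ∃ x : ℕ, (Real.log y) ^ (1 + c₀) ≤ Real.log x ∧
    Real.log x ≤ (y : ℝ) ^ α ∧
    ε * (Nat.primeCounting x : ℝ) < |(cntE d (l * q) x : ℝ) - d.A * (Nat.primeCounting x : ℝ)|)

theorem allXP (α θ c₀ : ℝ) (hα : 0 < α) (hθ : 1 / 2 + 2 * α < θ) (hc₀ : 0 < c₀) (d : Dat) (ε : ℝ)
    (hε : 0 < ε) : ∃ N₀ : ℕ, ∀ y : ℕ, N₀ ≤ y → ∀ l : ℕ, 0 < l → Real.log l ≤ y →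
      (#(badPX d ε α c₀ l y) : ℝ) ≤ (y : ℝ) ^ θ := by
  classical
  obtain ⟨κ, hκd⟩ : ∃ κ : ℝ, κ = (θ - 1 / 2 - 2 * α) / 4 := ⟨_, rfl⟩
  have hκ : 0 < κ := by rw [hκd]; linarith
  obtain ⟨β, hβd⟩ : ∃ β : ℝ, β = α + κ := ⟨_, rfl⟩
  obtain ⟨θ₀, hθ₀d⟩ : ∃ θ₀ : ℝ, θ₀ = 1 / 2 + β + κ := ⟨_, rfl⟩
  have hβ : 0 < β := by linarith
  have hslack : 0 < θ - θ₀ - β := by rw [hθ₀d, hβd]; linarith
  have hθ₀ : 1 / 2 + β < θ₀ := by linarith
  have hd := abs_nonneg d.A
  set e : ℝ := min 1 (ε / (|d.A| + 3)) with hedef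
  have he : 0 < e := lt_min one_pos (by positivity)
  have he1 : e ≤ 1 := min_le_left _ _
  have hee : (|d.A| + 3) * e ≤ ε := by
    have : e ≤ ε / (|d.A| + 3) := min_le_right _ _
    rw [le_div_iff₀ (by positivity)] at this
    linarith
  obtain ⟨N₁, hexc⟩ := excP d hβ hθ₀ (show 0 < c₀ / 2 by positivity) e he
  obtain ⟨ρ, hρ, hρ2, X, hX2, hpi⟩ := pi_ratio e he
  have hρρ : 0 < ρ ^ 2 - ρ := by nlinarith
  have hlρ : 0 < Real.log ρ := Real.log_pos hρ
  have hρ4 : ρ ^ 2 ≤ 4 := by nlinarith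
  have hlog : Tendsto (fun y : ℕ => Real.log (y : ℝ)) atTop atTop :=
    Real.tendsto_log_atTop.comp tendsto_natCast_atTop_atTop
  -- the number of grid points
  have hJev : ∀ᶠ y : ℕ in atTop, 2 * ((y : ℝ) ^ β / Real.log ρ + 1) ≤
      (y : ℝ) ^ (θ - θ₀) := by
    have h1 : ∀ᶠ y : ℕ in atTop, 4 / Real.log ρ ≤ (y : ℝ) ^ (θ - θ₀ - β) :=
      ((tendsto_rpow_atTop hslack).comp tendsto_natCast_atTop_atTop).eventually_ge_atTop _
    have h3 : ∀ᶠ y : ℕ in atTop, (4 : ℝ) ≤ (y : ℝ) ^ (θ - θ₀) :=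
      ((tendsto_rpow_atTop (by linarith)).comp tendsto_natCast_atTop_atTop).eventually_ge_atTop _
    filter_upwards [h1, h3, eventually_ge_atTop 1] with y h1 h3 h4
    have hy : (0 : ℝ) < y := by exact_mod_cast (by omega : 0 < y)
    have h5 : (y : ℝ) ^ β * (y : ℝ) ^ (θ - θ₀ - β) = (y : ℝ) ^ (θ - θ₀) := by
      rw [← Real.rpow_add hy]
      congr 1
      ring
    have h6 : (y : ℝ) ^ β * (4 / Real.log ρ) ≤ (y : ℝ) ^ (θ - θ₀) := by
      rw [← h5]
      gcongr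
    have h7 : (y : ℝ) ^ β * (4 / Real.log ρ) = 4 * ((y : ℝ) ^ β / Real.log ρ) := by ring
    linarith
  have hbig : ∀ᶠ N : ℕ in atTop, ((X : ℝ) + 1 / (ρ ^ 2 - ρ)) + 4 ≤ (N : ℝ) :=
    (tendsto_natCast_atTop_atTop (R := ℝ)).eventually_ge_atTop _
  have hup : ∀ᶠ y : ℕ in atTop, (y : ℝ) ^ α + Real.log 4 ≤ (y : ℝ) ^ β := by
    have h2 := ((tendsto_rpow_atTop hκ).comp
      (tendsto_natCast_atTop_atTop (R := ℝ))).eventually_ge_atTop 2
    have h3 := ((tendsto_rpow_atTop hα).comp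
      (tendsto_natCast_atTop_atTop (R := ℝ))).eventually_ge_atTop (Real.log 4)
    filter_upwards [h2, h3, eventually_ge_atTop 1] with y h2 h3 h4
    simp only [Function.comp] at h2 h3
    have hy : (0 : ℝ) < y := by exact_mod_cast (by omega : 0 < y)
    have h5 : (y : ℝ) ^ β = (y : ℝ) ^ α * (y : ℝ) ^ κ := by
      rw [← Real.rpow_add hy, hβd]
    have h6 : 0 < (y : ℝ) ^ α := by positivity
    rw [h5]
    nlinarith
  have hlow : ∀ᶠ y : ℕ in atTop, (Real.log y) ^ (1 + c₀ / 2) + Real.log 4 ≤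
      (Real.log y) ^ (1 + c₀) := by
    have h1 : ∀ᶠ l : ℝ in atTop, l ^ (1 + c₀ / 2) + Real.log 4 ≤ l ^ (1 + c₀) := by
      have h2 := (tendsto_rpow_atTop (show 0 < c₀ / 2 by positivity)).eventually_ge_atTop 2
      have h3 := (tendsto_rpow_atTop (show 0 < 1 + c₀ / 2 by positivity)).eventually_ge_atTop
        (Real.log 4)
      filter_upwards [h2, h3, eventually_gt_atTop 0] with l h2 h3 h4
      have h5 : l ^ (1 + c₀) = l ^ (1 + c₀ / 2) * l ^ (c₀ / 2) := by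
        rw [← Real.rpow_add h4]; congr 1; ring
      have h6 : 0 < l ^ (1 + c₀ / 2) := by positivity
      rw [h5]
      nlinarith
    exact hlog.eventually h1
  have h2Y : ∀ᶠ y : ℕ in atTop, 2 * Real.log y ≤ (Real.log y) ^ (1 + c₀ / 2) := by
    have h1 : ∀ᶠ l : ℝ in atTop, 2 * l ≤ l ^ (1 + c₀ / 2) := by
      have h2 := (tendsto_rpow_atTop (show 0 < c₀ / 2 by positivity)).eventually_ge_atTop 2
      filter_upwards [h2, eventually_gt_atTop 0] with l h2 h4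
      rw [Real.rpow_add h4, Real.rpow_one]
      nlinarith
    exact hlog.eventually h1
  obtain ⟨N₀, hN₀⟩ := eventually_atTop.1 (((hJev.and hbig).and ((hlow.and h2Y).and hup)).and
    (eventually_ge_atTop N₁))
  refine ⟨N₀, fun N hN l hl hll => ?_⟩
  obtain ⟨⟨⟨hJ, hB⟩, ⟨⟨hlow, h2Y⟩, hup⟩⟩, hNN1⟩ := hN₀ N hN
  have hq : 0 < 1 / (ρ ^ 2 - ρ) := by positivity
  have hXnn : (0 : ℝ) ≤ X := Nat.cast_nonneg _
  have hN4 : (4 : ℝ) ≤ N := by linarith
  have hN0 : (0 : ℝ) < N := by linarith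
  have hN1 : (1 : ℝ) ≤ N := by linarith
  have hl0 : 0 < Real.log N := Real.log_pos (by linarith)
  set Y : ℝ := (N : ℝ) ^ β with hY
  have hY0 : 0 < Y := by positivity
  set J : ℕ := ⌊Y / Real.log ρ⌋₊ + 1 with hJdef
  have hJr : 2 * (J : ℝ) ≤ (N : ℝ) ^ (θ - θ₀) := by
    refine le_trans ?_ hJ
    rw [hJdef]
    push_cast
    have : (⌊Y / Real.log ρ⌋₊ : ℝ) ≤ Y / Real.log ρ := Nat.floor_le (by positivity)
    linarith
  -- the exceptional set at one grid point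
  set Bd : ℕ → Finset ℕ := fun j => if (Real.log N) ^ (1 + c₀ / 2) ≤ Real.log (g ρ j) ∧
    Real.log (g ρ j) ≤ Y then exP d e l N (g ρ j) else ∅ with hBd
  have hsq : ∀ x : ℕ, (Real.log N) ^ (1 + c₀ / 2) ≤ Real.log x → Real.log l ≤ √x ∧ N ≤ x := by
    intro x hx
    have h1 : Real.log ((N : ℝ) ^ 2) ≤ Real.log x := by
      rw [Real.log_pow]
      push_cast
      linarith
    have hx0 : (0 : ℝ) < x := by
      by_contra hcon
      have : x = 0 := by
        have h3 : (x : ℝ) ≤ 0 := not_lt.1 hcon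
        exact_mod_cast le_antisymm h3 (Nat.cast_nonneg _)
      rw [this] at hx
      simp only [Nat.cast_zero, Real.log_zero] at hx
      have : 0 < (Real.log N) ^ (1 + c₀ / 2) := by positivity
      linarith
    have h2 := (Real.log_le_log_iff (by positivity) hx0).1 h1
    refine ⟨hll.trans (Real.le_sqrt_of_sq_le h2), ?_⟩
    have h3 : (N : ℝ) ≤ (N : ℝ) ^ 2 := by nlinarith
    exact_mod_cast h3.trans h2
  have hBdc : ∀ j, (#(Bd j) : ℝ) ≤ 2 * (N : ℝ) ^ θ₀ := by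
    intro j
    simp only [hBd]
    split_ifs with h
    · exact hexc N (g ρ j) hNN1 h.1 h.2 l hl (hsq _ h.1).1
    · rw [card_empty, Nat.cast_zero]
      positivity
  have hincl : badPX d ε α c₀ l N ⊆ (range J).biUnion Bd := by
    intro n hn
    unfold badPX at hn
    rw [mem_filter] at hn
    obtain ⟨hn, x, hxN, hxN', hx⟩ := hn
    have hxl : (Real.log N) ^ (1 + c₀ / 2) ≤ Real.log x := by
      have := Real.log_nonneg (show (1 : ℝ) ≤ 4 by norm_num)
      linarith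
    have hNx := (hsq x hxl).2
    have hx1 : (1 : ℝ) ≤ x := by
      have : (N : ℝ) ≤ x := by exact_mod_cast hNx
      linarith
    have hx0 : (0 : ℝ) < x := by linarith
    obtain ⟨j, hj1, hj2⟩ := exists_nat_pow_near hx1 hρ
    have hgx : g ρ j ≤ x := Nat.ceil_le.2 hj1
    have hxg : x ≤ g ρ (j + 1) := by
      have : (x : ℝ) ≤ g ρ (j + 1) := hj2.le.trans (g_ge _)
      exact_mod_cast this
    have hgx' : (g ρ j : ℝ) ≤ x := by exact_mod_cast hgx
    have hxg' : (x : ℝ) ≤ g ρ (j + 1) := by exact_mod_cast hxg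
    have hgj1 : (x : ℝ) ≤ ρ * g ρ j := by
      calc (x : ℝ) ≤ ρ ^ (j + 1) := hj2.le
        _ = ρ * ρ ^ j := by rw [pow_succ, mul_comm]
        _ ≤ ρ * g ρ j := by
          have := g_ge (ρ := ρ) j
          gcongr
    have hx4 : (x : ℝ) ≤ 4 * g ρ j := by
      have h0 : (0 : ℝ) ≤ g ρ j := Nat.cast_nonneg _
      exact hgj1.trans (by nlinarith)
    have hg0 : (0 : ℝ) < g ρ j := by linarith
    have hg10 : (0 : ℝ) < g ρ (j + 1) := by linarith
    have hgjlow : (Real.log N) ^ (1 + c₀ / 2) ≤ Real.log (g ρ j) := by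
      have h1 := Real.log_le_log hx0 hx4
      rw [Real.log_mul (by norm_num) hg0.ne'] at h1
      linarith
    have hgN : (N : ℝ) ≤ g ρ j := by exact_mod_cast (hsq _ hgjlow).2
    have hstep : (g ρ (j + 1) : ℝ) ≤ ρ ^ 2 * g ρ j := by
      refine g_step ?_ hρ
      have h1 : 1 / (ρ ^ 2 - ρ) ≤ g ρ j := by linarith
      rw [div_le_iff₀ hρρ] at h1
      linarith
    have hgj1up : Real.log (g ρ (j + 1)) ≤ Y := by
      have h1 : (g ρ (j + 1) : ℝ) ≤ 4 * x :=
        hstep.trans (mul_le_mul hρ4 hgx' hg0.le (by norm_num))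
      have h2 := Real.log_le_log hg10 h1
      rw [Real.log_mul (by norm_num) hx0.ne'] at h2
      linarith
    have hgjup : Real.log (g ρ j) ≤ Y :=
      (Real.log_le_log hg0 (hgx'.trans hxg')).trans hgj1up
    have hgj1low : (Real.log N) ^ (1 + c₀ / 2) ≤ Real.log (g ρ (j + 1)) :=
      hgjlow.trans (Real.log_le_log hg0 (hgx'.trans hxg'))
    have hidx : ∀ i : ℕ, Real.log (g ρ i) ≤ Y → i < J := by
      intro i hi
      have h2 : Real.log (ρ ^ i) ≤ Real.log (g ρ i) := Real.log_le_log (by positivity) (g_ge i)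
      rw [Real.log_pow] at h2
      have h3 : (i : ℝ) ≤ Y / Real.log ρ := by
        rw [le_div_iff₀ hlρ]
        exact h2.trans hi
      have h4 : i ≤ ⌊Y / Real.log ρ⌋₊ := Nat.le_floor h3
      omega
    rw [mem_biUnion]
    by_contra hcon
    push Not at hcon
    have hn0 := hcon j (mem_range.2 (hidx j hgjup))
    have hn1 := hcon (j + 1) (mem_range.2 (hidx (j + 1) hgj1up))
    simp only [hBd] at hn0 hn1
    rw [if_pos ⟨hgjlow, hgjup⟩, exP, mem_filter, not_and, not_lt] at hn0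
    rw [if_pos ⟨hgj1low, hgj1up⟩, exP, mem_filter, not_and, not_lt] at hn1
    have ha0 := hn0 hn
    have ha1 := hn1 hn
    have hXg : X ≤ g ρ j := by
      have : (X : ℝ) ≤ g ρ j := le_trans (by linarith) hgN
      exact_mod_cast this
    have hpij : (Nat.primeCounting (g ρ (j + 1)) : ℝ) ≤ (1 + e) * Nat.primeCounting (g ρ j) :=
      hpi _ _ hXg (hgx.trans hxg) hstep
    have hfin := interp (δ := d.A) (e := e) (P0 := (Nat.primeCounting (g ρ j) : ℝ))
      (P := (Nat.primeCounting x : ℝ)) (P1 := (Nat.primeCounting (g ρ (j + 1)) : ℝ))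
      (A0 := (cntE d (l * n) (g ρ j) : ℝ)) (A := (cntE d (l * n) x : ℝ))
      (A1 := (cntE d (l * n) (g ρ (j + 1)) : ℝ)) he he1 (Nat.cast_nonneg _)
      (by exact_mod_cast Nat.monotone_primeCounting hgx)
      (by exact_mod_cast Nat.monotone_primeCounting hxg) hpij
      (by exact_mod_cast cntE_mono d (l * n) hgx) (by exact_mod_cast cntE_mono d (l * n) hxg)
      ha0 ha1
    have hlast : (|d.A| + 3) * e * (Nat.primeCounting x : ℝ) ≤
        ε * (Nat.primeCounting x : ℝ) := by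
      gcongr
    linarith
  have h1 : (#(badPX d ε α c₀ l N) : ℝ) ≤ ∑ j ∈ range J, (#(Bd j) : ℝ) := by
    exact_mod_cast (card_le_card hincl).trans card_biUnion_le
  calc (#(badPX d ε α c₀ l N) : ℝ) ≤ ∑ j ∈ range J, (#(Bd j) : ℝ) := h1
    _ ≤ ∑ _j ∈ range J, 2 * (N : ℝ) ^ θ₀ := Finset.sum_le_sum fun j _ => hBdc j
    _ = (2 * J) * (N : ℝ) ^ θ₀ := by rw [Finset.sum_const, nsmul_eq_mul, card_range]; ring
    _ ≤ (N : ℝ) ^ (θ - θ₀) * (N : ℝ) ^ θ₀ := by gcongr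
    _ = (N : ℝ) ^ θ := by
      rw [← Real.rpow_add hN0]; congr 1; ring

end Pool.Agent.W171.EP
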