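import Mathlib
import Pool.Agent.W171.EP.AllXP
import Pool.Agent.H386R2.Artin.SmoothFew
import Pool.Agent.H386R2.Artin.Integers

set_option autoImplicit false

/-! # Almost all integers `n ≤ N`, for all `x ≤ exp (N ^ c)` -/

namespace Pool.Agent.W171.EP

open Finset Filter Topology
open Pool.Agent.H386R2.Artin (PP smoothFew int_harm)
open Pool.Agent.H771R4.SE (Dat cntE)

open Classical in
/-- the integers `n ≤ N` that are exceptional for some `x` with
`(log N) ^ (1 + c₀) ≤ log x ≤ N ^ b` -/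
noncomputable def badI (d : Dat) (ε c₀ b : ℝ) (N : ℕ) : Finset ℕ :=
  (Icc 1 N).filter (fun n : ℕ => ∃ x : ℕ, (Real.log N) ^ (1 + c₀) ≤ Real.log x ∧
    Real.log x ≤ (N : ℝ) ^ b ∧
    ε * (Nat.primeCounting x : ℝ) < |(cntE d n x : ℝ) - d.A * (Nat.primeCounting x : ℝ)|)

open Classical in
/-- covering by smooth numbers and multiples of large primes -/
theorem cover_I (d : Dat) (ε α c₀ b : ℝ) (hα : 0 < α) (hc₀ : 0 < c₀) (N : ℕ)
    (z : ℝ) (hz0 : 0 ≤ z) (hz : (N : ℝ) ^ b ≤ z ^ α) :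
    #(badI d ε c₀ b N) ≤ #{a ∈ Icc 1 N | ∀ p : ℕ, p.Prime → p ∣ a → (p : ℝ) ≤ z} +
      ∑ l ∈ (Icc 1 N).filter (fun l : ℕ => z < ((N / l : ℕ) : ℝ)), #(badPX d ε α c₀ l (N / l)) := by
  set L := (Icc 1 N).filter (fun l : ℕ => z < ((N / l : ℕ) : ℝ)) with hL
  have hsub : badI d ε c₀ b N ⊆
      {a ∈ Icc 1 N | ∀ p : ℕ, p.Prime → p ∣ a → (p : ℝ) ≤ z} ∪
      L.biUnion fun l => (badPX d ε α c₀ l (N / l)).image fun q => l * q := by
    intro a ha
    rw [badI, mem_filter] at ha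
    obtain ⟨haN, x, hx1, hx2, hx3⟩ := ha
    have haI := mem_Icc.1 haN
    by_cases hs : ∀ p : ℕ, p.Prime → p ∣ a → (p : ℝ) ≤ z
    · exact mem_union_left _ (mem_filter.2 ⟨haN, hs⟩)
    · push Not at hs
      obtain ⟨p, hp, ⟨k, hk⟩, hpz⟩ := hs
      have hk0 : 0 < k := by
        rcases Nat.eq_zero_or_pos k with h | h
        · rw [h, mul_zero] at hk; omega
        · exact h
      have hpk : p ≤ N / k := (Nat.le_div_iff_mul_le hk0).2 (hk ▸ haI.2)
      have hkN : k ≤ N := by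
        calc k ≤ p * k := Nat.le_mul_of_pos_left k hp.pos
          _ = a := hk.symm
          _ ≤ N := haI.2
      have hzk : z < ((N / k : ℕ) : ℝ) := hpz.trans_le (by exact_mod_cast hpk)
      apply mem_union_right
      rw [mem_biUnion]
      refine ⟨k, ?_, ?_⟩
      · rw [hL, mem_filter, mem_Icc]
        exact ⟨⟨hk0, hkN⟩, hzk⟩
      · rw [mem_image]
        refine ⟨p, ?_, by rw [hk, mul_comm]⟩
        rw [badPX, mem_filter]
        refine ⟨?_, x, ?_, ?_, ?_⟩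
        · rw [PP, mem_filter, mem_range]
          exact ⟨by omega, hp⟩
        · refine le_trans ?_ hx1
          have h1 : 1 ≤ N / k := by
            have : 2 ≤ p := hp.two_le
            omega
          have h2 : (1 : ℝ) ≤ ((N / k : ℕ) : ℝ) := by exact_mod_cast h1
          have h3 : ((N / k : ℕ) : ℝ) ≤ N := by exact_mod_cast Nat.div_le_self N k
          exact Real.rpow_le_rpow (Real.log_nonneg h2)
            (Real.log_le_log (by linarith) h3) (by linarith)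
        · refine hx2.trans (hz.trans ?_)
          exact Real.rpow_le_rpow hz0 hzk.le hα.le
        · have : k * p = a := by rw [hk, mul_comm]
          rw [this]
          exact hx3
  refine (card_le_card hsub).trans ((card_union_le _ _).trans ?_)
  gcongr
  exact card_biUnion_le.trans (sum_le_sum fun m _ => card_image_le)

theorem intRange (c₀ : ℝ) (hc₀ : 0 < c₀) (η : ℝ) (hη : 0 < η) :
    ∃ b : ℝ, 0 < b ∧ ∀ (d : Dat) (ε : ℝ), 0 < ε → ∃ N₀ : ℕ, ∀ N : ℕ, N₀ ≤ N →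
      (#(badI d ε c₀ b N) : ℝ) ≤ η * N := by
  classical
  obtain ⟨u, hu, N₁, hN₁⟩ := smoothFew (η / 2) (half_pos hη)
  have hu' : (0 : ℝ) < u := by exact_mod_cast hu
  refine ⟨1 / (5 * u), by positivity, fun d ε hε => ?_⟩
  obtain ⟨Y₁, hY₁⟩ := allXP (1 / 5) (19 / 20) c₀ (by norm_num) (by norm_num) hc₀ d ε hε
  have hlog : Tendsto (fun x : ℕ => Real.log (x : ℝ)) atTop atTop :=
    Real.tendsto_log_atTop.comp tendsto_natCast_atTop_atTop
  have hzt : Tendsto (fun N : ℕ => (N : ℝ) ^ (1 / (u : ℝ))) atTop atTop :=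
    (tendsto_rpow_atTop (by positivity)).comp tendsto_natCast_atTop_atTop
  have e1 : ∀ᶠ N : ℕ in atTop, (Y₁ : ℝ) + 1 ≤ (N : ℝ) ^ (1 / (u : ℝ)) :=
    hzt.eventually_ge_atTop _
  have e2 : ∀ᶠ N : ℕ in atTop, Real.log N ≤ (N : ℝ) ^ (1 / (u : ℝ)) := by
    have h := (isLittleO_log_rpow_atTop (r := 1 / (u : ℝ)) (by positivity)).bound (c := 1) one_pos
    have h2 := tendsto_natCast_atTop_atTop (R := ℝ) |>.eventually h
    filter_upwards [h2] with x hx
    rw [one_mul, Real.norm_of_nonneg (Real.log_natCast_nonneg x),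
      Real.norm_of_nonneg (by positivity)] at hx
    exact hx
  have e3 : ∀ᶠ N : ℕ in atTop, 2 * Real.log N ≤ η / 2 * (N : ℝ) ^ (1 / (u : ℝ) * (1 / 20)) := by
    have h := (isLittleO_log_rpow_atTop (r := 1 / (u : ℝ) * (1 / 20)) (by positivity)).bound
      (c := η / 4) (by positivity)
    have h2 := tendsto_natCast_atTop_atTop (R := ℝ) |>.eventually h
    filter_upwards [h2] with x hx
    rw [Real.norm_of_nonneg (Real.log_natCast_nonneg x),
      Real.norm_of_nonneg (by positivity)] at hx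
    linarith
  have e4 : ∀ᶠ N : ℕ in atTop, (1 : ℝ) ≤ Real.log N := hlog.eventually_ge_atTop _
  obtain ⟨N₂, hN₂⟩ := eventually_atTop.1 ((e1.and e2).and (e3.and e4))
  refine ⟨max (max N₁ N₂) 2, fun N hN => ?_⟩
  have hNN1 : N₁ ≤ N := (le_max_left _ _).trans ((le_max_left _ _).trans hN)
  have hNN2 : N₂ ≤ N := (le_max_right _ _).trans ((le_max_left _ _).trans hN)
  have hN2 : 2 ≤ N := (le_max_right _ _).trans hN
  obtain ⟨⟨e1, e2⟩, ⟨e3, e4⟩⟩ := hN₂ N hNN2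
  have hN0 : (0 : ℝ) < N := by exact_mod_cast (by omega : 0 < N)
  set z : ℝ := (N : ℝ) ^ (1 / (u : ℝ)) with hz
  have hz0 : 0 < z := by positivity
  have hY10 : (0 : ℝ) ≤ Y₁ := Nat.cast_nonneg _
  have hz1 : 1 ≤ z := by linarith
  have hzb : (N : ℝ) ^ (1 / (5 * u : ℝ)) ≤ z ^ (1 / 5 : ℝ) := by
    rw [hz, ← Real.rpow_mul hN0.le]
    apply le_of_eq
    congr 1
    field_simp
  have hcov := cover_I d ε (1 / 5) c₀ (1 / (5 * u)) (by norm_num) hc₀ N z hz0.le hzb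
  have hcov' : (#(badI d ε c₀ (1 / (5 * u)) N) : ℝ) ≤
      (#{a ∈ Icc 1 N | ∀ p : ℕ, p.Prime → p ∣ a → (p : ℝ) ≤ z} : ℝ) +
      ∑ l ∈ (Icc 1 N).filter (fun l : ℕ => z < ((N / l : ℕ) : ℝ)),
        (#(badPX d ε (1 / 5) c₀ l (N / l)) : ℝ) := by
    exact_mod_cast hcov
  refine hcov'.trans ?_
  have hsm := hN₁ N hNN1
  have hterm : ∀ l ∈ (Icc 1 N).filter (fun l : ℕ => z < ((N / l : ℕ) : ℝ)),
      (#(badPX d ε (1 / 5) c₀ l (N / l)) : ℝ) ≤ N * z ^ (-(1 / 20) : ℝ) * (1 / l) := by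
    intro l hl
    rw [mem_filter, mem_Icc] at hl
    obtain ⟨⟨hl1, hlN⟩, hlz⟩ := hl
    have hl0 : (0 : ℝ) < l := by exact_mod_cast hl1
    have hyR : ((N / l : ℕ) : ℝ) ≤ (N : ℝ) / l := Nat.cast_div_le
    have hy0 : (0 : ℝ) < ((N / l : ℕ) : ℝ) := hz0.trans hlz
    have hb := hY₁ (N / l) (by
      have : (Y₁ : ℝ) ≤ ((N / l : ℕ) : ℝ) := by linarith
      exact_mod_cast this) l hl1 (by
      refine le_trans (Real.log_le_log hl0 (?_ : (l : ℝ) ≤ N)) (e2.trans hlz.le)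
      exact_mod_cast hlN)
    refine hb.trans ?_
    have h1 : ((N / l : ℕ) : ℝ) ^ (19 / 20 : ℝ) =
        ((N / l : ℕ) : ℝ) * ((N / l : ℕ) : ℝ) ^ (-(1 / 20) : ℝ) := by
      rw [← Real.rpow_one_add' hy0.le (by norm_num)]
      norm_num
    rw [h1]
    calc ((N / l : ℕ) : ℝ) * ((N / l : ℕ) : ℝ) ^ (-(1 / 20) : ℝ)
        ≤ ((N : ℝ) / l) * z ^ (-(1 / 20) : ℝ) := by
          apply mul_le_mul hyR _ (by positivity) (by positivity)
          exact Real.rpow_le_rpow_of_nonpos hz0 hlz.le (by norm_num)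
      _ = N * z ^ (-(1 / 20) : ℝ) * (1 / l) := by ring
  have hsum : ∑ l ∈ (Icc 1 N).filter (fun l : ℕ => z < ((N / l : ℕ) : ℝ)),
        (#(badPX d ε (1 / 5) c₀ l (N / l)) : ℝ) ≤ η / 2 * N := by
    refine (sum_le_sum hterm).trans ?_
    rw [← mul_sum]
    have hh : ∑ l ∈ (Icc 1 N).filter (fun l : ℕ => z < ((N / l : ℕ) : ℝ)), (1 : ℝ) / l
        ≤ 2 * Real.log N := by
      refine (sum_le_sum_of_subset_of_nonneg (filter_subset _ _) fun m _ _ => by positivity).trans ?_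
      refine (int_harm N).trans ?_
      linarith
    have hzz : z ^ (-(1 / 20) : ℝ) * (N : ℝ) ^ (1 / (u : ℝ) * (1 / 20)) = 1 := by
      rw [Real.rpow_mul hN0.le, ← hz, ← Real.rpow_add hz0]
      norm_num
    calc (N : ℝ) * z ^ (-(1 / 20) : ℝ) *
          ∑ l ∈ (Icc 1 N).filter (fun l : ℕ => z < ((N / l : ℕ) : ℝ)), (1 : ℝ) / l
        ≤ (N : ℝ) * z ^ (-(1 / 20) : ℝ) * (2 * Real.log N) := by gcongr
      _ ≤ (N : ℝ) * z ^ (-(1 / 20) : ℝ) * (η / 2 * (N : ℝ) ^ (1 / (u : ℝ) * (1 / 20))) := by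
          gcongr
      _ = η / 2 * N * (z ^ (-(1 / 20) : ℝ) * (N : ℝ) ^ (1 / (u : ℝ) * (1 / 20))) := by ring
      _ = η / 2 * N := by rw [hzz, mul_one]
  linarith

end Pool.Agent.W171.EP
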