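import Mathlib

set_option autoImplicit false

/-! # The density of Q1 is close to Artin's constant for large squarefree parts -/

namespace Pool.Agent.W171.EP

open Finset

/-- Artin's constant -/
noncomputable def artA : ℝ :=
  ∏' p : Nat.Primes, (1 - 1 / (((p : ℕ) : ℝ) * (((p : ℕ) : ℝ) - 1)))

/-- the density of Q1 -/
noncomputable def dl (D : ℤ) : ℝ :=
  (1 - ((ArithmeticFunction.moebius D.natAbs : ℤ) : ℝ) *
      ∏ q ∈ D.natAbs.primeFactors, (1 / ((q : ℝ) ^ 2 - (q : ℝ) - 1))) *
    ∏' p : Nat.Primes, (1 - 1 / (((p : ℕ) : ℝ) * (((p : ℕ) : ℝ) - 1)))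

lemma dl_close (n : ℤ) (hn : Squarefree n) (h4 : n % 4 = 1) :
    |dl n - artA| ≤ |artA| / |(n : ℝ)| := by
  have hsq : Squarefree n.natAbs := Int.squarefree_natAbs.2 hn
  have hodd : ¬ 2 ∣ n.natAbs := by
    intro h
    have : (2 : ℤ) ∣ n := Int.natCast_dvd.2 h
    omega
  have h0 : (0 : ℝ) < |(n : ℝ)| := by
    rw [abs_pos]
    exact_mod_cast hn.ne_zero
  have habs : |(n : ℝ)| = ((n.natAbs : ℕ) : ℝ) := by
    rw [← Int.cast_abs, Int.abs_eq_natAbs]
    simp
  have hprod : ∏ q ∈ n.natAbs.primeFactors, (1 / ((q : ℝ) ^ 2 - (q : ℝ) - 1)) ≤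
      1 / |(n : ℝ)| ∧ 0 ≤ ∏ q ∈ n.natAbs.primeFactors, (1 / ((q : ℝ) ^ 2 - (q : ℝ) - 1)) := by
    have hq3 : ∀ q ∈ n.natAbs.primeFactors, (3 : ℝ) ≤ q := by
      intro q hq
      have hqp := Nat.prime_of_mem_primeFactors hq
      have hqd := Nat.dvd_of_mem_primeFactors hq
      have : q ≠ 2 := fun h => hodd (h ▸ hqd)
      have h2 := hqp.two_le
      exact_mod_cast (by omega : 3 ≤ q)
    constructor
    · calc ∏ q ∈ n.natAbs.primeFactors, (1 / ((q : ℝ) ^ 2 - (q : ℝ) - 1))
          ≤ ∏ q ∈ n.natAbs.primeFactors, (1 / (q : ℝ)) := by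
            apply Finset.prod_le_prod
            · intro q hq
              have := hq3 q hq
              apply one_div_nonneg.2
              nlinarith
            · intro q hq
              have := hq3 q hq
              apply one_div_le_one_div_of_le
              · linarith
              · nlinarith
        _ = 1 / |(n : ℝ)| := by
          rw [habs]
          have h1 : ∏ q ∈ n.natAbs.primeFactors, (1 / (q : ℝ)) =
              1 / ∏ q ∈ n.natAbs.primeFactors, (q : ℝ) := by
            rw [Finset.prod_div_distrib]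
            simp
          rw [h1]
          have h2 := Nat.prod_primeFactors_of_squarefree hsq
          have h3 : ∏ q ∈ n.natAbs.primeFactors, (q : ℝ) = ((n.natAbs : ℕ) : ℝ) := by
            rw [← Nat.cast_prod, h2]
          rw [h3]
    · apply Finset.prod_nonneg
      intro q hq
      have := hq3 q hq
      apply one_div_nonneg.2
      nlinarith
  have hmu : |((ArithmeticFunction.moebius n.natAbs : ℤ) : ℝ)| ≤ 1 := by
    have := ArithmeticFunction.abs_moebius_le_one (n := n.natAbs)
    have h2 : ((|ArithmeticFunction.moebius n.natAbs| : ℤ) : ℝ) ≤ ((1 : ℤ) : ℝ) := by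
      exact_mod_cast this
    rw [Int.cast_abs] at h2
    simpa using h2
  have e : dl n - artA = -(((ArithmeticFunction.moebius n.natAbs : ℤ) : ℝ) *
      (∏ q ∈ n.natAbs.primeFactors, (1 / ((q : ℝ) ^ 2 - (q : ℝ) - 1)))) * artA := by
    unfold dl artA
    ring
  rw [e, abs_mul, abs_neg, abs_mul, abs_of_nonneg hprod.2]
  calc |((ArithmeticFunction.moebius n.natAbs : ℤ) : ℝ)| *
        (∏ q ∈ n.natAbs.primeFactors, (1 / ((q : ℝ) ^ 2 - (q : ℝ) - 1))) * |artA|
      ≤ 1 * (1 / |(n : ℝ)|) * |artA| := by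
        gcongr
        exact hprod.2
        exact hprod.1
    _ = |artA| / |(n : ℝ)| := by ring

/-- a prime is determined by the squarefree part of its product with `m` -/
lemma prime_unique {m n : ℤ} (hm : m ≠ 0) {q r : ℕ} (hq : q.Prime) (hr : r.Prime)
    {k j : ℤ} (h1 : m * q = n * k ^ 2) (h2 : m * r = n * j ^ 2) : q = r := by
  by_contra hne
  have hq0 : (q : ℤ) ≠ 0 := by exact_mod_cast hq.ne_zero
  have hr0 : (r : ℤ) ≠ 0 := by exact_mod_cast hr.ne_zero
  have h3 : (q : ℤ) * j ^ 2 = r * k ^ 2 := by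
    have hn : n ≠ 0 := by
      rintro rfl
      rw [zero_mul] at h1
      exact (mul_ne_zero hm hq0) h1
    have e : (m * n) * ((q : ℤ) * j ^ 2) = (m * n) * (r * k ^ 2) := by
      calc (m * n) * ((q : ℤ) * j ^ 2) = (m * q) * (n * j ^ 2) := by ring
        _ = (n * k ^ 2) * (m * r) := by rw [h1, h2]
        _ = (m * n) * (r * k ^ 2) := by ring
    exact mul_left_cancel₀ (mul_ne_zero hm hn) e
  have hj0 : j ≠ 0 := by
    rintro rfl
    have : m * (r : ℤ) = 0 := by rw [h2]; ring
    exact (mul_ne_zero hm hr0) this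
  have hk0 : k ≠ 0 := by
    rintro rfl
    have : m * (q : ℤ) = 0 := by rw [h1]; ring
    exact (mul_ne_zero hm hq0) this
  have h4 : q * j.natAbs ^ 2 = r * k.natAbs ^ 2 := by
    have := congrArg Int.natAbs h3
    simpa [Int.natAbs_mul, Int.natAbs_pow] using this
  have h5 : (q * j.natAbs ^ 2).factorization q = (r * k.natAbs ^ 2).factorization q := by
    rw [h4]
  rw [Nat.factorization_mul hq.ne_zero (pow_ne_zero _ (Int.natAbs_ne_zero.2 hj0)),
    Nat.factorization_mul hr.ne_zero (pow_ne_zero _ (Int.natAbs_ne_zero.2 hk0)),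
    Nat.factorization_pow, Nat.factorization_pow] at h5
  simp only [Finsupp.add_apply, Finsupp.smul_apply, hq.factorization_self, smul_eq_mul] at h5
  have h6 : r.factorization q = 0 := by
    rw [Nat.Prime.factorization hr]
    exact Finsupp.single_eq_of_ne (fun h => hne h)
  rw [h6] at h5
  omega

end Pool.Agent.W171.EP
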