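import Mathlib
import Pool.Agent.W171.EP.Delta
import Pool.Agent.H730R2.AA.Defs
import Pool.Agent.H386R2.Artin.Defs

set_option autoImplicit false

/-! # From Artin's constant for almost all positive and negative integers to the density of Q1 -/

namespace Pool.Agent.W171.EP

open Finset Filter
open Pool.Agent.H386R2.Artin (artinC)
open Pool.Agent.H730R2.AA (cnt)

open Classical in
/-- the `m ≤ N` such that `D m` is exceptional at some `x` of the range `R N` -/
noncomputable def badR (R : ℕ → ℕ → Prop) (D : ℤ) (ε : ℝ) (N : ℕ) : Finset ℕ :=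
  (Icc 1 N).filter (fun m : ℕ => ∃ x : ℕ, R N x ∧
    ε * (Nat.primeCounting x : ℝ) <
      |(cnt (D * (m : ℤ)) x : ℝ) - artinC * (Nat.primeCounting x : ℝ)|)

open Classical in
theorem transfer (R : ℕ → ℕ → Prop) (ε : ℝ) (hε : 0 < ε) : ∃ K : ℕ, ∀ N : ℕ,
    (#((Icc (-(N : ℤ)) N).filter (fun n : ℤ => ∃ n' : ℤ, Squarefree n' ∧ n' % 4 = 1 ∧
      (∃ k : ℤ, k ≠ 0 ∧ n = n' * k ^ 2) ∧ ∃ x : ℕ, R N x ∧
        ε * (Nat.primeCounting x : ℝ) <
          |(cnt n x : ℝ) - dl n' * (Nat.primeCounting x : ℝ)|)) : ℝ) ≤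
      (#(badR R 1 (ε / 2) N) : ℝ) + (#(badR R (-1) (ε / 2) N) : ℝ) +
        (2 * K + 1) * ((Nat.sqrt N : ℝ) + 1) := by
  obtain ⟨K, hK⟩ := exists_nat_ge (2 * |artA| / ε)
  rw [div_le_iff₀ hε] at hK
  refine ⟨K, fun N => ?_⟩
  set B := (Icc (-(N : ℤ)) N).filter (fun n : ℤ => ∃ n' : ℤ, Squarefree n' ∧ n' % 4 = 1 ∧
      (∃ k : ℤ, k ≠ 0 ∧ n = n' * k ^ 2) ∧ ∃ x : ℕ, R N x ∧
        ε * (Nat.primeCounting x : ℝ) <
          |(cnt n x : ℝ) - dl n' * (Nat.primeCounting x : ℝ)|) with hB
  set S : Finset ℤ := ((Icc (-(K : ℤ)) K) ×ˢ (range (Nat.sqrt N + 1))).image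
    (fun a : ℤ × ℕ => a.1 * (a.2 : ℤ) ^ 2) with hS
  have hSc : #S ≤ (2 * K + 1) * (Nat.sqrt N + 1) := by
    refine card_image_le.trans ?_
    rw [card_product, card_range, Int.card_Icc]
    apply Nat.mul_le_mul_right
    omega
  have hsub : B ⊆ S ∪ ((badR R 1 (ε / 2) N).image (fun m : ℕ => (m : ℤ)) ∪
      (badR R (-1) (ε / 2) N).image (fun m : ℕ => -(m : ℤ))) := by
    intro n hn
    rw [hB, mem_filter, mem_Icc] at hn
    obtain ⟨⟨hn1, hn2⟩, n', hn', hn4, ⟨k, hk0, hk⟩, x, hR, hx⟩ := hn
    rw [mem_union, mem_union]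
    by_cases hnK : n' ∈ Finset.Icc (-(K : ℤ)) K
    · left
      rw [hS, mem_image]
      refine ⟨(n', k.natAbs), ?_, ?_⟩
      · rw [mem_product, mem_range]
        refine ⟨hnK, ?_⟩
        have h1 : k.natAbs ^ 2 ≤ N := by
          have h2 : n.natAbs = n'.natAbs * k.natAbs ^ 2 := by
            rw [hk, Int.natAbs_mul, Int.natAbs_pow]
          have h3 : 1 ≤ n'.natAbs := Int.natAbs_pos.2 hn'.ne_zero
          have h4 : n.natAbs ≤ N := by omega
          nlinarith
        have h5 : k.natAbs ≤ Nat.sqrt N := by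
          rw [Nat.le_sqrt']
          exact h1
        simp only
        omega
      · simp only
        rw [hk]
        congr 1
        rw [Int.natCast_natAbs, sq_abs]
    · right
      have hnK' : (K : ℝ) ≤ |(n' : ℝ)| := by
        rw [mem_Icc, not_and_or, not_le, not_le] at hnK
        have : (K : ℤ) ≤ |n'| := by
          rcases hnK with h | h
          · exact le_abs.2 (Or.inr (by omega))
          · exact le_abs.2 (Or.inl (by omega))
        have h2 : ((K : ℤ) : ℝ) ≤ ((|n'| : ℤ) : ℝ) := by exact_mod_cast this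
        rw [Int.cast_abs] at h2
        exact_mod_cast h2
      have hn0 : (0 : ℝ) < |(n' : ℝ)| := by
        rw [abs_pos]
        exact_mod_cast hn'.ne_zero
      have hclose : |dl n' - artinC| ≤ ε / 2 := by
        have h5 := dl_close n' hn' hn4
        have h6 : artinC = artA := rfl
        rw [h6]
        refine h5.trans ?_
        rw [div_le_iff₀ hn0]
        have : ε * (K : ℝ) ≤ ε * |(n' : ℝ)| := by gcongr
        linarith
      have hpi : (0 : ℝ) ≤ (Nat.primeCounting x : ℝ) := Nat.cast_nonneg _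
      have hx4 : ε / 2 * (Nat.primeCounting x : ℝ) <
          |(cnt n x : ℝ) - artinC * (Nat.primeCounting x : ℝ)| := by
        have h7 : |(cnt n x : ℝ) - dl n' * (Nat.primeCounting x : ℝ)| ≤
            |(cnt n x : ℝ) - artinC * (Nat.primeCounting x : ℝ)| +
            |(dl n' - artinC) * (Nat.primeCounting x : ℝ)| := by
          have : (cnt n x : ℝ) - dl n' * (Nat.primeCounting x : ℝ) =
              ((cnt n x : ℝ) - artinC * (Nat.primeCounting x : ℝ)) -
              (dl n' - artinC) * (Nat.primeCounting x : ℝ) := by ring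
          rw [this]
          exact abs_sub _ _
        have h8 : |(dl n' - artinC) * (Nat.primeCounting x : ℝ)| ≤
            ε / 2 * (Nat.primeCounting x : ℝ) := by
          rw [abs_mul, abs_of_nonneg hpi]
          gcongr
        linarith
      have hn00 : n ≠ 0 := by
        rw [hk]
        exact mul_ne_zero hn'.ne_zero (pow_ne_zero _ hk0)
      rcases lt_or_gt_of_ne hn00 with h | h
      · right
        rw [mem_image]
        refine ⟨n.natAbs, ?_, by omega⟩
        unfold badR
        rw [mem_filter, mem_Icc]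
        refine ⟨⟨Int.natAbs_pos.2 hn00, by omega⟩, x, hR, ?_⟩
        have : (-1 : ℤ) * (n.natAbs : ℤ) = n := by omega
        rw [this]
        exact hx4
      · left
        rw [mem_image]
        refine ⟨n.natAbs, ?_, by omega⟩
        unfold badR
        rw [mem_filter, mem_Icc]
        refine ⟨⟨Int.natAbs_pos.2 hn00, by omega⟩, x, hR, ?_⟩
        have : (1 : ℤ) * (n.natAbs : ℤ) = n := by omega
        rw [this]
        exact hx4
  have h9 := (card_le_card hsub).trans ((card_union_le _ _).trans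
    (Nat.add_le_add_left ((card_union_le _ _).trans
      (Nat.add_le_add card_image_le card_image_le)) _))
  have h10 : (#B : ℝ) ≤ (#S : ℝ) +
      ((#(badR R 1 (ε / 2) N) : ℝ) + (#(badR R (-1) (ε / 2) N) : ℝ)) := by exact_mod_cast h9
  have h11 : (#S : ℝ) ≤ (2 * K + 1) * ((Nat.sqrt N : ℝ) + 1) := by exact_mod_cast hSc
  linarith

end Pool.Agent.W171.EP
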