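import Mathlib
import Pool.Agent.W171.EP.GridL
import Pool.Agent.W171.EP.Transfer

set_option autoImplicit false

/-! # Few exceptions for `N ^ (1 / K) ≤ x ≤ N ^ 2` -/

namespace Pool.Agent.W171.EP

open Finset Filter Topology
open Pool.Agent.H730R2.AA
open Pool.Agent.H730R2.AA.Grid
open Pool.Agent.H386R2.Artin (artinC PP card_PP)

/-- the growth conditions -/
lemma lp_ev (K C c₁ : ℝ) (hK : 1 ≤ K) (hC : 0 < C) (hc₁ : 0 < c₁) : ∀ᶠ N : ℝ in atTop,
    (c₁ * (Real.log 4 + 2 * Real.log N) + 2) *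
      (4 * C * (1 + (Real.log 4 + 2 * Real.log N)) ^ 4 * N ^ (-(1 / (20 * K)) : ℝ) * N) ≤
      N ^ (1 - 1 / (400 * K)) := by
  have hs : 0 < 1 / (400 * K) := by positivity
  have h := (isLittleO_log_rpow_atTop (r := 1 / (400 * K)) hs).bound (c := 1) one_pos
  have h2 := (tendsto_rpow_atTop (show 0 < 1 / (100 * K) by positivity)).eventually_ge_atTop
    ((5 * c₁ + 2) * (4 * C * 6 ^ 4))
  have h3 := Real.tendsto_log_atTop.eventually_ge_atTop (2 : ℝ)
  filter_upwards [h, h2, h3, eventually_ge_atTop 1] with N h h2 h3 h4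
  have hN0 : 0 < N := by linarith
  have hl4 : Real.log 4 ≤ 2 := by
    have := Real.log_le_sub_one_of_pos (show (0 : ℝ) < 2 by norm_num)
    have e : Real.log 4 = 2 * Real.log 2 := by
      rw [show (4 : ℝ) = 2 ^ 2 by norm_num, Real.log_pow]; norm_num
    rw [e]; linarith
  have hl40 : 0 ≤ Real.log 4 := Real.log_nonneg (by norm_num)
  set l := Real.log N with hl
  have hl0 : 0 < l := by linarith
  rw [Real.norm_of_nonneg hl0.le, Real.norm_of_nonneg (by positivity), one_mul] at h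
  set t : ℝ := N ^ (1 / (400 * K)) with ht
  have ht0 : 0 < t := by positivity
  have ht1 : 1 ≤ t := Real.one_le_rpow h4 hs.le
  have e1 : c₁ * (Real.log 4 + 2 * l) + 2 ≤ (5 * c₁ + 2) * t := by
    have : Real.log 4 + 2 * l ≤ 5 * t := by linarith
    nlinarith
  have e2 : 1 + (Real.log 4 + 2 * l) ≤ 6 * t := by linarith
  have e3 : (1 + (Real.log 4 + 2 * l)) ^ 4 ≤ (6 * t) ^ 4 :=
    pow_le_pow_left₀ (by linarith) e2 4
  have hp : ∀ k : ℕ, t ^ k = N ^ ((k : ℝ) / (400 * K)) := by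
    intro k
    rw [ht, ← Real.rpow_natCast, ← Real.rpow_mul hN0.le]
    congr 1
    ring
  have e5 : N ^ (1 / (100 * K)) * N ^ (-(1 / (20 * K)) : ℝ) * N * t ^ 5 ≤
      N ^ (1 - 1 / (400 * K)) := by
    rw [hp 5]
    have : N ^ (1 / (100 * K)) * N ^ (-(1 / (20 * K)) : ℝ) * N * N ^ (((5 : ℕ) : ℝ) / (400 * K)) =
        N ^ (1 / (100 * K) + -(1 / (20 * K)) + 1 + ((5 : ℕ) : ℝ) / (400 * K)) := by
      rw [Real.rpow_add hN0, Real.rpow_add hN0, Real.rpow_add hN0, Real.rpow_one]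
    rw [this]
    apply Real.rpow_le_rpow_of_exponent_le h4
    have e6 : 1 / (100 * K) + -(1 / (20 * K)) + 1 + ((5 : ℕ) : ℝ) / (400 * K) =
        1 - 11 * (1 / (400 * K)) := by
      push_cast; field_simp; ring
    rw [e6]
    linarith
  calc (c₁ * (Real.log 4 + 2 * l) + 2) *
      (4 * C * (1 + (Real.log 4 + 2 * l)) ^ 4 * N ^ (-(1 / (20 * K)) : ℝ) * N)
      ≤ ((5 * c₁ + 2) * t) * (4 * C * (6 * t) ^ 4 * N ^ (-(1 / (20 * K)) : ℝ) * N) := by
        gcongr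
    _ = ((5 * c₁ + 2) * (4 * C * 6 ^ 4)) * N ^ (-(1 / (20 * K)) : ℝ) * N * t ^ 5 := by ring
    _ ≤ N ^ (1 / (100 * K)) * N ^ (-(1 / (20 * K)) : ℝ) * N * t ^ 5 := by gcongr
    _ ≤ _ := e5

open Classical in
theorem lowPow (D : ℤ) (hD : D ≠ 0) (K : ℝ) (hK : 1 ≤ K) (ε : ℝ) (hε : 0 < ε) :
    ∃ N₀ : ℕ, ∀ N : ℕ, N₀ ≤ N →
      (#(badR (fun N x => (N : ℝ) ^ (1 / K) ≤ x ∧ (x : ℝ) ≤ (N : ℝ) ^ (2 : ℝ)) D ε N) : ℝ) ≤
        (N : ℝ) ^ (1 - 1 / (400 * K)) := by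
  have hd := abs_nonneg artinC
  set ε₁ : ℝ := min 1 (ε / (|artinC| + 3)) with hε₁def
  have hε₁ : 0 < ε₁ := lt_min one_pos (by positivity)
  have hε₁1 : ε₁ ≤ 1 := min_le_left _ _
  have hεε : (|artinC| + 3) * ε₁ ≤ ε := by
    have : ε₁ ≤ ε / (|artinC| + 3) := min_le_right _ _
    rw [le_div_iff₀ (by positivity)] at this
    linarith
  obtain ⟨C, X1, hC, hX1, hbad⟩ := one_xL D hD (ε₁ / 2) (by positivity)
  obtain ⟨ρ, hρ, hρ2, X2, hX2, hpi⟩ := pi_ratio ε₁ hε₁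
  have hml := mainL_lim D hD
  rw [Metric.tendsto_atTop] at hml
  obtain ⟨X3, hX3⟩ := hml (ε₁ / 2) (by positivity)
  have hρρ : 0 < ρ ^ 2 - ρ := by nlinarith
  set X := max (max X1 X2) X3 with hX
  have hXX1 : X1 ≤ X := (le_max_left _ _).trans (le_max_left _ _)
  have hXX2 : X2 ≤ X := (le_max_right _ _).trans (le_max_left _ _)
  have hXX3 : X3 ≤ X := le_max_right _ _
  have hlρ : 0 < Real.log ρ := Real.log_pos hρ
  have hq : 0 < 1 / (ρ ^ 2 - ρ) := by positivity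
  have hmain : ∀ x : ℕ, X ≤ x → |mainL D x - artinC * Nat.primeCounting x| ≤
      ε₁ / 2 * Nat.primeCounting x := by
    intro x hx
    have hx2 : 2 ≤ x := by omega
    have hpos : (0 : ℝ) < Nat.primeCounting x := by
      have h1 : Nat.primeCounting 2 ≤ Nat.primeCounting x := Nat.monotone_primeCounting hx2
      have h2 : Nat.primeCounting 2 = 1 := by decide
      have : 0 < Nat.primeCounting x := by omega
      exact_mod_cast this
    have h1 := hX3 x (hXX3.trans hx)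
    rw [Real.dist_eq] at h1
    have h2 : mainL D x - artinC * Nat.primeCounting x =
        (mainL D x / Nat.primeCounting x - artinC) * Nat.primeCounting x := by
      field_simp
    rw [h2, abs_mul, abs_of_pos hpos]
    gcongr
  -- growth
  have hcast := tendsto_natCast_atTop_atTop (R := ℝ)
  have hp1 : ∀ᶠ N : ℕ in atTop, 4 * ((X : ℝ) + 1 / (ρ ^ 2 - ρ)) + 16 ≤ (N : ℝ) ^ (1 / K) :=
    ((tendsto_rpow_atTop (by positivity)).comp hcast).eventually_ge_atTop _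
  have hp2 := hcast.eventually (lp_ev K C (1 / Real.log ρ) hK hC (by positivity))
  obtain ⟨N₀, hN₀⟩ := eventually_atTop.1 ((hp1.and hp2).and (eventually_ge_atTop 16))
  refine ⟨N₀, fun N hN => ?_⟩
  obtain ⟨⟨hN1, hN2⟩, hN16⟩ := hN₀ N hN
  have hN16' : (16 : ℝ) ≤ N := by exact_mod_cast hN16
  have hNpos : (0 : ℝ) < N := by linarith
  have hNone : (1 : ℝ) ≤ N := by linarith
  set V : ℝ := (N : ℝ) ^ (1 / K) with hV
  have hV0 : 0 < V := by positivity
  have hXnn : (0 : ℝ) ≤ X := Nat.cast_nonneg _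
  have hV16 : 16 ≤ V := by
    have : 0 ≤ 4 * ((X : ℝ) + 1 / (ρ ^ 2 - ρ)) := by positivity
    linarith
  -- the first grid point
  obtain ⟨J0, hJ1, hJ2⟩ := exists_nat_pow_near (show 1 ≤ V / 2 by linarith) hρ
  have hgJ0up : (g ρ J0 : ℝ) ≤ V := by
    have : (g ρ J0 : ℝ) < ρ ^ J0 + 1 := Nat.ceil_lt_add_one (by positivity)
    linarith
  have hgJ0low : V / 4 ≤ (g ρ J0 : ℝ) := by
    have h1 := g_ge (ρ := ρ) J0
    have h2 : V / 2 ≤ ρ * ρ ^ J0 := by rw [← pow_succ']; exact hJ2.le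
    have h3 : (0 : ℝ) ≤ ρ ^ J0 := by positivity
    nlinarith
  have hgJ0X : X ≤ g ρ J0 := by
    have : (X : ℝ) ≤ g ρ J0 := by linarith
    exact_mod_cast this
  have hgJ01 : 1 ≤ (ρ ^ 2 - ρ) * g ρ J0 := by
    have h1 : 1 / (ρ ^ 2 - ρ) ≤ g ρ J0 := by linarith
    rw [div_le_iff₀ hρρ] at h1
    linarith
  have hρ0 : 0 < ρ := by linarith
  have hρ4 : ρ ^ 2 ≤ 4 := by nlinarith
  set Y : ℝ := (N : ℝ) ^ (2 : ℝ) with hY
  have hYpos : 0 < Y := by positivity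
  set ll : ℝ := Real.log 4 + 2 * Real.log N with hll
  have hlogg : ∀ j : ℕ, (g ρ j : ℝ) ≤ ρ ^ 2 * Y → Real.log (g ρ j) ≤ ll := by
    intro j hj
    have h1 : Real.log (g ρ j) ≤ Real.log (4 * Y) :=
      Real.log_le_log (by linarith [g_one_le hρ j]) (hj.trans (by gcongr))
    rw [Real.log_mul (by norm_num) hYpos.ne', hY, Real.log_rpow hNpos] at h1
    exact h1
  have hll0 : 0 ≤ ll := by
    have := Real.log_nonneg (show (1 : ℝ) ≤ 4 by norm_num)
    have := Real.log_nonneg hNone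
    rw [hll]; linarith
  set L : ℕ := ⌊ll / Real.log ρ⌋₊ with hL
  have hLj : ∀ j : ℕ, (g ρ j : ℝ) ≤ ρ ^ 2 * Y → j ≤ L := by
    intro j hj
    have h1 := hlogg j hj
    have h2 : (j : ℝ) * Real.log ρ ≤ Real.log (g ρ j) := by
      rw [← Real.log_pow]
      exact Real.log_le_log (by positivity) (g_ge j)
    have h3 : (j : ℝ) ≤ ll / Real.log ρ := by
      rw [le_div_iff₀ hlρ]
      linarith
    exact Nat.le_floor h3
  have hsub := inclL D hε₁ hε₁1 hεε hρ (fun x y hx => hpi x y (hXX2.trans hx)) hmain hgJ0X hgJ01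
    hLj N
  set I := (Ico J0 (L + 1)).filter (fun j => (g ρ j : ℝ) ≤ ρ ^ 2 * Y) with hI
  set E : ℝ := 4 * C * (1 + ll) ^ 4 * (N : ℝ) ^ (-(1 / (20 * K)) : ℝ) * N with hE
  have hE0 : 0 ≤ E := by positivity
  have hterm : ∀ j ∈ I, ((badL D (ε₁ / 2) (mainL D (g ρ j)) (g ρ j) N).card : ℝ) ≤ E := by
    intro j hj
    rw [hI, mem_filter, mem_Ico] at hj
    obtain ⟨⟨hj1, hj2⟩, hj3⟩ := hj
    have hgX : X1 ≤ g ρ j := hXX1.trans (hgJ0X.trans (g_mono hρ hj1))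
    have hg1 := g_one_le hρ j
    have hg0 : (0 : ℝ) < g ρ j := by linarith
    have hlg0 : 0 ≤ Real.log (g ρ j) := Real.log_nonneg hg1
    have hlg := hlogg j hj3
    have hgV : V / 4 ≤ (g ρ j : ℝ) := by
      refine hgJ0low.trans ?_
      exact_mod_cast g_mono hρ hj1
    have hlN : Real.log N ≤ ll := by
      have := Real.log_nonneg (show (1 : ℝ) ≤ 4 by norm_num)
      have := Real.log_nonneg hNone
      rw [hll]; linarith
    have hlN0 := Real.log_nonneg hNone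
    -- the negative powers
    have hneg : ((g ρ j : ℕ) : ℝ) ^ (-(1 : ℝ) / 2) ≤ 2 * (N : ℝ) ^ (-(1 / (20 * K)) : ℝ) := by
      calc ((g ρ j : ℕ) : ℝ) ^ (-(1 : ℝ) / 2) ≤ (V / 4) ^ (-(1 : ℝ) / 2) :=
            Real.rpow_le_rpow_of_nonpos (by positivity) hgV (by norm_num)
        _ = 2 * V ^ (-(1 : ℝ) / 2) := by
            rw [Real.div_rpow hV0.le (by norm_num)]
            have : (4 : ℝ) ^ (-(1 : ℝ) / 2) = 1 / 2 := by
              rw [show (4 : ℝ) = 2 ^ (2 : ℝ) by norm_num, ← Real.rpow_mul (by norm_num)]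
              norm_num
            rw [this]; ring
        _ ≤ 2 * (N : ℝ) ^ (-(1 / (20 * K)) : ℝ) := by
            rw [hV, ← Real.rpow_mul hNpos.le]
            gcongr 2 * ?_
            apply Real.rpow_le_rpow_of_exponent_le hNone
            have : 1 / K * (-(1 : ℝ) / 2) = -(10 * (1 / (20 * K))) := by field_simp; norm_num
            rw [this]
            have : 0 < 1 / (20 * K) := by positivity
            linarith
    have h1l : 1 ≤ 1 + ll := by linarith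
    by_cases hc : ((g ρ j : ℕ) : ℝ) ^ 2 ≤ N
    · have h1 := hbad 1 N (g ρ j) le_rfl (by omega) hgX (by simpa using hc)
      refine h1.trans ?_
      have h2 : ((1 : ℕ) : ℝ) = 1 := by norm_num
      rw [h2]
      have h3 : (1 + Real.log (N : ℝ)) ^ (((1 : ℝ) - 1) / 2) = 1 := by norm_num
      rw [h3]
      have h4 : (-(1 : ℝ)) / (2 * 1) = -1 / 2 := by norm_num
      rw [h4, mul_one]
      calc C * N * ((1 + Real.log (g ρ j)) ^ 2 * (((g ρ j : ℕ) : ℝ) ^ (-(1 : ℝ) / 2) +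
            ((g ρ j : ℕ) : ℝ) ^ (-(1 : ℝ) / 2)))
          ≤ C * N * ((1 + ll) ^ 2 * (2 * (N : ℝ) ^ (-(1 / (20 * K)) : ℝ) +
            2 * (N : ℝ) ^ (-(1 / (20 * K)) : ℝ))) := by gcongr
        _ = 4 * C * (1 + ll) ^ 2 * (N : ℝ) ^ (-(1 / (20 * K)) : ℝ) * N := by ring
        _ ≤ E := by
          rw [hE]
          gcongr
          · norm_num
    · push Not at hc
      have hx5 : ((g ρ j : ℕ) : ℝ) ^ 2 ≤ (N : ℝ) ^ 5 := by
        have h1 : (g ρ j : ℝ) ≤ 4 * (N : ℝ) ^ 2 := by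
          refine hj3.trans ?_
          rw [hY]
          have : (N : ℝ) ^ (2 : ℝ) = (N : ℝ) ^ 2 := by norm_cast
          rw [this]
          gcongr
        calc ((g ρ j : ℕ) : ℝ) ^ 2 ≤ (4 * (N : ℝ) ^ 2) ^ 2 := by gcongr
          _ = 16 * (N : ℝ) ^ 4 := by ring
          _ ≤ N * (N : ℝ) ^ 4 := by gcongr
          _ = (N : ℝ) ^ 5 := by ring
      have h1 := hbad 5 N (g ρ j) (by norm_num) (by omega) hgX hx5
      refine h1.trans ?_
      have h2 : ((5 : ℕ) : ℝ) = 5 := by norm_num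
      rw [h2]
      have h3 : (((5 : ℝ) - 1) / 2) = 2 := by norm_num
      rw [h3, Real.rpow_two]
      have h6 : ((g ρ j : ℕ) : ℝ) ^ (-(1 : ℝ) / (2 * 5)) ≤ (N : ℝ) ^ (-(1 / (20 * K)) : ℝ) := by
        have h7 : (N : ℝ) ^ (1 / 2 : ℝ) ≤ (g ρ j : ℝ) := by
          rw [← Real.sqrt_eq_rpow]
          exact Real.sqrt_le_iff.2 ⟨hg0.le, hc.le⟩
        calc ((g ρ j : ℕ) : ℝ) ^ (-(1 : ℝ) / (2 * 5)) ≤ ((N : ℝ) ^ (1 / 2 : ℝ)) ^ (-(1 : ℝ) / (2 * 5)) :=
              Real.rpow_le_rpow_of_nonpos (by positivity) h7 (by norm_num)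
          _ = (N : ℝ) ^ (-(1 / 20) : ℝ) := by
              rw [← Real.rpow_mul hNpos.le]; norm_num
          _ ≤ _ := by
              apply Real.rpow_le_rpow_of_exponent_le hNone
              apply neg_le_neg
              apply one_div_le_one_div_of_le (by norm_num)
              linarith
      set Q : ℝ := (N : ℝ) ^ (-(1 / (20 * K)) : ℝ) with hQ
      have hQ0 : 0 ≤ Q := by positivity
      calc C * N * ((1 + Real.log (g ρ j)) ^ 2 * (((g ρ j : ℕ) : ℝ) ^ (-(1 : ℝ) / (2 * 5)) *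
            (1 + Real.log (N : ℝ)) ^ 2 + ((g ρ j : ℕ) : ℝ) ^ (-(1 : ℝ) / 2)))
          ≤ C * N * ((1 + ll) ^ 2 * (Q * (1 + ll) ^ 2 + 2 * Q)) := by gcongr
        _ ≤ C * N * ((1 + ll) ^ 2 * (Q * (1 + ll) ^ 2 + 2 * Q * (1 + ll) ^ 2)) := by
            have h9 : 2 * Q ≤ 2 * Q * (1 + ll) ^ 2 :=
              le_mul_of_one_le_right (by positivity) (one_le_pow₀ h1l)
            gcongr
        _ = 3 * C * (1 + ll) ^ 4 * Q * N := by ring
        _ ≤ E := by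
            rw [hE]
            gcongr
            norm_num
  have hsub2 : badR (fun N x => (N : ℝ) ^ (1 / K) ≤ x ∧ (x : ℝ) ≤ (N : ℝ) ^ (2 : ℝ)) D ε N ⊆
      badAllL D ε (g ρ J0) Y N := by
    intro m hm
    unfold badR at hm
    rw [Finset.mem_filter] at hm
    obtain ⟨hm, x, ⟨h1, h2⟩, h3⟩ := hm
    unfold badAllL
    rw [Finset.mem_filter]
    refine ⟨hm, x, ?_, h2, h3⟩
    have : (g ρ J0 : ℝ) ≤ x := hgJ0up.trans h1
    exact_mod_cast this
  have hIc : (#I : ℝ) ≤ 1 / Real.log ρ * ll + 2 := by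
    have h1 : #I ≤ L + 1 := by
      refine (card_filter_le _ _).trans ?_
      rw [Nat.card_Ico]
      exact Nat.sub_le _ _
    have h2 : (L : ℝ) ≤ ll / Real.log ρ := Nat.floor_le (by positivity)
    have h3 : (#I : ℝ) ≤ (L : ℝ) + 1 := by exact_mod_cast h1
    have h4 : ll / Real.log ρ = 1 / Real.log ρ * ll := by ring
    linarith
  calc (#(badR (fun N x => (N : ℝ) ^ (1 / K) ≤ x ∧ (x : ℝ) ≤ (N : ℝ) ^ (2 : ℝ)) D ε N) : ℝ)
      ≤ (#(I.biUnion (fun j => badL D (ε₁ / 2) (mainL D (g ρ j)) (g ρ j) N)) : ℝ) := by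
        exact_mod_cast card_le_card (hsub2.trans hsub)
    _ ≤ ∑ j ∈ I, ((badL D (ε₁ / 2) (mainL D (g ρ j)) (g ρ j) N).card : ℝ) := by
        exact_mod_cast card_biUnion_le
    _ ≤ ∑ _j ∈ I, E := sum_le_sum hterm
    _ = #I * E := by rw [sum_const, nsmul_eq_mul]
    _ ≤ (1 / Real.log ρ * ll + 2) * E := by gcongr
    _ ≤ _ := hN2

end Pool.Agent.W171.EP
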