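import Mathlib
import Pool.Agent.W171.EP.AvgS
import Pool.Agent.H730R2.AA.Grid
import Pool.Agent.H771R4.SE.AllX

set_option autoImplicit false

/-! # All `x` of a range at the same time, for the multiples `l q`, `q ∈ S y` -/

namespace Pool.Agent.W171.EP

open Finset Filter Topology
open Pool.Agent.H386R2.Artin (PP Good)
open Pool.Agent.H771R4.SE (Dat cntE cntE_mono)
open Pool.Agent.H730R2.AA.Grid (g g_ge g_one_le g_step g_mono interp pi_ratio)

open Classical in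
/-- the `q ∈ S y` for which `l q` is exceptional for some `x` with `L ≤ log x ≤ U` -/
noncomputable def badS (S : ℕ → Finset ℕ) (d : Dat) (ε L U : ℝ) (l y : ℕ) : Finset ℕ :=
  (S y).filter (fun q : ℕ => ∃ x : ℕ, L ≤ Real.log x ∧ Real.log x ≤ U ∧
    ε * (Nat.primeCounting x : ℝ) < |(cntE d (l * q) x : ℝ) - d.A * (Nat.primeCounting x : ℝ)|)

open Classical in
theorem allS (S : ℕ → Finset ℕ) (hS : ∀ y, S y ⊆ Icc 1 y) (L U L' U' : ℕ → ℝ) {θ θ₀ κ c δ : ℝ} (hθ₀ : 1 / 2 < θ₀) (hκ : 0 < κ)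
    (hc : 0 < c) (hδ : 0 < δ)
    (h1 : ∀ᶠ y : ℕ in atTop, (1 + κ) * Real.log y ≤ L y)
    (h2 : ∀ᶠ y : ℕ in atTop, L y + Real.log 4 ≤ L' y)
    (h3 : ∀ᶠ y : ℕ in atTop, U' y + Real.log 4 ≤ U y)
    (h4 : ∀ K : ℝ, 0 < K → ∀ᶠ y : ℕ in atTop, K * (|U y| + 1) ≤ (y : ℝ) ^ (θ - θ₀))
    (hF : ∃ N₁ : ℕ, ∀ y x : ℕ, N₁ ≤ y → L y ≤ Real.log x → Real.log x ≤ U y →
      ∀ E : Finset ℕ, E ⊆ S y → (y : ℝ) ^ θ₀ ≤ (#E : ℝ) →
        (#{p ∈ PP x | ¬ Good E ((#E : ℝ) / (Real.log x) ^ c) p} : ℝ) ≤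
          12 * (x : ℝ) ^ (1 - δ))
    (d : Dat) (ε : ℝ) (hε : 0 < ε) : ∃ N₀ : ℕ, ∀ y : ℕ, N₀ ≤ y → ∀ l : ℕ, 0 < l →
      Real.log l ≤ √y → (#(badS S d ε (L' y) (U' y) l y) : ℝ) ≤ (y : ℝ) ^ θ := by
  classical
  have hd := abs_nonneg d.A
  set e : ℝ := min 1 (ε / (|d.A| + 3)) with hedef
  have he : 0 < e := lt_min one_pos (by positivity)
  have he1 : e ≤ 1 := min_le_left _ _
  have hee : (|d.A| + 3) * e ≤ ε := by
    have : e ≤ ε / (|d.A| + 3) := min_le_right _ _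
    rw [le_div_iff₀ (by positivity)] at this
    linarith
  obtain ⟨N₁, hexc⟩ := excS S hS d (fun y x => L y ≤ Real.log x ∧ Real.log x ≤ U y) hθ₀ hκ hc hδ
    (by
      obtain ⟨N, hN⟩ := eventually_atTop.1 h1
      exact ⟨N, fun y x hy hR => (hN y hy).trans hR.1⟩)
    (by
      obtain ⟨N, hN⟩ := hF
      exact ⟨N, fun y x hy hR => hN y x hy hR.1 hR.2⟩) e he
  obtain ⟨ρ, hρ, hρ2, X, hX2, hpi⟩ := pi_ratio e he
  have hρρ : 0 < ρ ^ 2 - ρ := by nlinarith
  have hlρ : 0 < Real.log ρ := Real.log_pos hρ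
  have hρ4 : ρ ^ 2 ≤ 4 := by nlinarith
  have hlog : Tendsto (fun y : ℕ => Real.log (y : ℝ)) atTop atTop :=
    Real.tendsto_log_atTop.comp tendsto_natCast_atTop_atTop
  -- the number of grid points
  have hJev := h4 (2 * (1 / Real.log ρ + 1)) (by positivity)
  have hbig : ∀ᶠ N : ℕ in atTop, ((X : ℝ) + 1 / (ρ ^ 2 - ρ)) + 4 ≤ (N : ℝ) :=
    (tendsto_natCast_atTop_atTop (R := ℝ)).eventually_ge_atTop _
  obtain ⟨N₀, hN₀⟩ := eventually_atTop.1 (((hJev.and hbig).and ((h1.and h2).and h3)).and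
    (eventually_ge_atTop N₁))
  refine ⟨N₀, fun N hN l hl hll => ?_⟩
  obtain ⟨⟨⟨hJ, hB⟩, ⟨⟨h1Y, hlow⟩, hup⟩⟩, hNN1⟩ := hN₀ N hN
  have hq : 0 < 1 / (ρ ^ 2 - ρ) := by positivity
  have hXnn : (0 : ℝ) ≤ X := Nat.cast_nonneg _
  have hN4 : (4 : ℝ) ≤ N := by linarith
  have hN0 : (0 : ℝ) < N := by linarith
  have hN1 : (1 : ℝ) ≤ N := by linarith
  have hl0 : 0 < Real.log N := Real.log_pos (by linarith)
  set Y : ℝ := U N with hY
  set J : ℕ := ⌊|Y| / Real.log ρ⌋₊ + 1 with hJdef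
  have hJr : 2 * (J : ℝ) ≤ (N : ℝ) ^ (θ - θ₀) := by
    refine le_trans ?_ hJ
    rw [hJdef]
    push_cast
    have h5 : (⌊|Y| / Real.log ρ⌋₊ : ℝ) ≤ |Y| / Real.log ρ := Nat.floor_le (by positivity)
    have h6 : 2 * (1 / Real.log ρ + 1) * (|Y| + 1) =
        2 * (|Y| / Real.log ρ + 1) + 2 * (|Y| + 1 / Real.log ρ) := by field_simp; ring
    have h7 : 0 ≤ 2 * (|Y| + 1 / Real.log ρ) := by positivity
    rw [h6]
    linarith
  -- the exceptional set at one grid point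
  set Bd : ℕ → Finset ℕ := fun j => if L N ≤ Real.log (g ρ j) ∧
    Real.log (g ρ j) ≤ Y then exS S d e l N (g ρ j) else ∅ with hBd
  have hsq : ∀ x : ℕ, L N ≤ Real.log x → Real.log l ≤ √x ∧ N ≤ x := by
    intro x hx
    have h1 : Real.log (N : ℝ) ≤ Real.log x := by nlinarith
    have hx0 : (0 : ℝ) < x := by
      by_contra hcon
      have : x = 0 := by
        have h3 : (x : ℝ) ≤ 0 := not_lt.1 hcon
        exact_mod_cast le_antisymm h3 (Nat.cast_nonneg _)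
      rw [this] at h1
      simp only [Nat.cast_zero, Real.log_zero] at h1
      linarith
    have h2 := (Real.log_le_log_iff (by positivity) hx0).1 h1
    exact ⟨hll.trans (Real.sqrt_le_sqrt h2), by exact_mod_cast h2⟩
  have hBdc : ∀ j, (#(Bd j) : ℝ) ≤ 2 * (N : ℝ) ^ θ₀ := by
    intro j
    simp only [hBd]
    split_ifs with h
    · exact hexc N (g ρ j) hNN1 ⟨h.1, h.2⟩ l hl (hsq _ h.1).1
    · rw [card_empty, Nat.cast_zero]
      positivity
  have hincl : badS S d ε (L' N) (U' N) l N ⊆ (range J).biUnion Bd := by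
    intro n hn
    unfold badS at hn
    rw [mem_filter] at hn
    obtain ⟨hn, x, hxN, hxN', hx⟩ := hn
    have hxl : L N ≤ Real.log x := by
      have := Real.log_nonneg (show (1 : ℝ) ≤ 4 by norm_num)
      linarith
    have hNx := (hsq x hxl).2
    have hx1 : (1 : ℝ) ≤ x := by
      have : (N : ℝ) ≤ x := by exact_mod_cast hNx
      linarith
    have hx0 : (0 : ℝ) < x := by linarith
    obtain ⟨j, hj1, hj2⟩ := exists_nat_pow_near hx1 hρ
    have hgx : g ρ j ≤ x := Nat.ceil_le.2 hj1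
    have hxg : x ≤ g ρ (j + 1) := by
      have : (x : ℝ) ≤ g ρ (j + 1) := hj2.le.trans (g_ge _)
      exact_mod_cast this
    have hgx' : (g ρ j : ℝ) ≤ x := by exact_mod_cast hgx
    have hxg' : (x : ℝ) ≤ g ρ (j + 1) := by exact_mod_cast hxg
    have hgj1 : (x : ℝ) ≤ ρ * g ρ j := by
      calc (x : ℝ) ≤ ρ ^ (j + 1) := hj2.le
        _ = ρ * ρ ^ j := by rw [pow_succ, mul_comm]
        _ ≤ ρ * g ρ j := by
          have := g_ge (ρ := ρ) j
          gcongr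
    have hx4 : (x : ℝ) ≤ 4 * g ρ j := by
      have h0 : (0 : ℝ) ≤ g ρ j := Nat.cast_nonneg _
      exact hgj1.trans (by nlinarith)
    have hg0 : (0 : ℝ) < g ρ j := by linarith
    have hg10 : (0 : ℝ) < g ρ (j + 1) := by linarith
    have hgjlow : L N ≤ Real.log (g ρ j) := by
      have h1 := Real.log_le_log hx0 hx4
      rw [Real.log_mul (by norm_num) hg0.ne'] at h1
      linarith
    have hgN : (N : ℝ) ≤ g ρ j := by exact_mod_cast (hsq _ hgjlow).2
    have hstep : (g ρ (j + 1) : ℝ) ≤ ρ ^ 2 * g ρ j := by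
      refine g_step ?_ hρ
      have h1 : 1 / (ρ ^ 2 - ρ) ≤ g ρ j := by linarith
      rw [div_le_iff₀ hρρ] at h1
      linarith
    have hgj1up : Real.log (g ρ (j + 1)) ≤ Y := by
      have h1 : (g ρ (j + 1) : ℝ) ≤ 4 * x :=
        hstep.trans (mul_le_mul hρ4 hgx' hg0.le (by norm_num))
      have h2 := Real.log_le_log hg10 h1
      rw [Real.log_mul (by norm_num) hx0.ne'] at h2
      linarith
    have hgjup : Real.log (g ρ j) ≤ Y :=
      (Real.log_le_log hg0 (hgx'.trans hxg')).trans hgj1up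
    have hgj1low : L N ≤ Real.log (g ρ (j + 1)) :=
      hgjlow.trans (Real.log_le_log hg0 (hgx'.trans hxg'))
    have hidx : ∀ i : ℕ, Real.log (g ρ i) ≤ Y → i < J := by
      intro i hi
      have h2 : Real.log (ρ ^ i) ≤ Real.log (g ρ i) := Real.log_le_log (by positivity) (g_ge i)
      rw [Real.log_pow] at h2
      have h3 : (i : ℝ) ≤ |Y| / Real.log ρ := by
        rw [le_div_iff₀ hlρ]
        exact h2.trans (hi.trans (le_abs_self _))
      have h4 : i ≤ ⌊|Y| / Real.log ρ⌋₊ := Nat.le_floor h3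
      omega
    rw [mem_biUnion]
    by_contra hcon
    push Not at hcon
    have hn0 := hcon j (mem_range.2 (hidx j hgjup))
    have hn1 := hcon (j + 1) (mem_range.2 (hidx (j + 1) hgj1up))
    simp only [hBd] at hn0 hn1
    rw [if_pos ⟨hgjlow, hgjup⟩, exS, mem_filter, not_and, not_lt] at hn0
    rw [if_pos ⟨hgj1low, hgj1up⟩, exS, mem_filter, not_and, not_lt] at hn1
    have ha0 := hn0 hn
    have ha1 := hn1 hn
    have hXg : X ≤ g ρ j := by
      have : (X : ℝ) ≤ g ρ j := le_trans (by linarith) hgN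
      exact_mod_cast this
    have hpij : (Nat.primeCounting (g ρ (j + 1)) : ℝ) ≤ (1 + e) * Nat.primeCounting (g ρ j) :=
      hpi _ _ hXg (hgx.trans hxg) hstep
    have hfin := interp (δ := d.A) (e := e) (P0 := (Nat.primeCounting (g ρ j) : ℝ))
      (P := (Nat.primeCounting x : ℝ)) (P1 := (Nat.primeCounting (g ρ (j + 1)) : ℝ))
      (A0 := (cntE d (l * n) (g ρ j) : ℝ)) (A := (cntE d (l * n) x : ℝ))
      (A1 := (cntE d (l * n) (g ρ (j + 1)) : ℝ)) he he1 (Nat.cast_nonneg _)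
      (by exact_mod_cast Nat.monotone_primeCounting hgx)
      (by exact_mod_cast Nat.monotone_primeCounting hxg) hpij
      (by exact_mod_cast cntE_mono d (l * n) hgx) (by exact_mod_cast cntE_mono d (l * n) hxg)
      ha0 ha1
    have hlast : (|d.A| + 3) * e * (Nat.primeCounting x : ℝ) ≤
        ε * (Nat.primeCounting x : ℝ) := by
      gcongr
    linarith
  have h1 : (#(badS S d ε (L' N) (U' N) l N) : ℝ) ≤ ∑ j ∈ range J, (#(Bd j) : ℝ) := by
    exact_mod_cast (card_le_card hincl).trans card_biUnion_le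
  calc (#(badS S d ε (L' N) (U' N) l N) : ℝ) ≤ ∑ j ∈ range J, (#(Bd j) : ℝ) := h1
    _ ≤ ∑ _j ∈ range J, 2 * (N : ℝ) ^ θ₀ := Finset.sum_le_sum fun j _ => hBdc j
    _ = (2 * J) * (N : ℝ) ^ θ₀ := by rw [Finset.sum_const, nsmul_eq_mul, card_range]; ring
    _ ≤ (N : ℝ) ^ (θ - θ₀) * (N : ℝ) ^ θ₀ := by gcongr
    _ = (N : ℝ) ^ θ := by
      rw [← Real.rpow_add hN0]; congr 1; ring

end Pool.Agent.W171.EP
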