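import Mathlib
import Pool.Agent.H386R2.Artin.BadCount
import Pool.Agent.H730R2.AA.Tau
import Pool.Agent.Helper112.MultLS

set_option autoImplicit false

/-! # The large sieve for sets of integers with few prime factors -/

namespace Pool.Agent.W171.EP

open Finset
open Pool.Agent.H386R2.Artin (PP Good)
open Pool.Agent.H730R2.AA.Tau

lemma tau_one (r : ℕ) : tau r 1 = 1 := by
  induction r with
  | zero => rw [tau_zero_apply, if_pos rfl]
  | succ r ih => rw [tau_succ_apply, Nat.divisors_one, sum_singleton, ih]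

lemma tau_prime (r p : ℕ) (hp : p.Prime) : tau r p = r := by
  induction r with
  | zero => rw [tau_zero_apply, if_neg hp.one_lt.ne']; simp
  | succ r ih =>
    rw [tau_succ_apply, Nat.Prime.divisors hp, sum_pair hp.one_lt.ne, ih, tau_one]
    push_cast
    ring

/-- number of prime factors with multiplicity -/
def bigO (n : ℕ) : ℕ := n.primeFactorsList.length

lemma tau_le (r n : ℕ) (hn : n ≠ 0) : tau r n ≤ (r : ℝ) ^ bigO n := by
  induction n using Nat.strong_induction_on with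
  | _ n ih =>
    rcases Nat.lt_or_ge n 2 with h | h
    · have h1 : n = 1 := by omega
      subst h1
      rw [tau_one]
      simp [bigO]
    · have hp := Nat.minFac_prime (show n ≠ 1 by omega)
      have hd := Nat.minFac_dvd n
      have hlt : n / n.minFac < n := Nat.div_lt_self (by omega) hp.one_lt
      have hne : n / n.minFac ≠ 0 := by
        have := Nat.div_pos (Nat.le_of_dvd (by omega) hd) hp.pos
        omega
      have h3 : bigO n = bigO (n / n.minFac) + 1 := by
        unfold bigO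
        obtain ⟨k, rfl⟩ : ∃ k, n = k + 2 := ⟨n - 2, by omega⟩
        rw [Nat.primeFactorsList]
        simp
      have h4 : tau r n ≤ tau r n.minFac * tau r (n / n.minFac) := by
        conv_lhs => rw [← Nat.mul_div_cancel' hd]
        exact tau_submul _ _ _
      rw [tau_prime r _ hp] at h4
      rw [h3, pow_succ]
      calc tau r n ≤ r * tau r (n / n.minFac) := h4
        _ ≤ r * (r : ℝ) ^ bigO (n / n.minFac) := by
          apply mul_le_mul_of_nonneg_left (ih _ hlt hne) (Nat.cast_nonneg _)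
        _ = _ := by ring

theorem momentW (r M W : ℕ) (hr : 1 ≤ r) (E : Finset ℕ) (hE : E ⊆ Icc 1 M)
    (hW : ∀ m ∈ E, bigO m ≤ W) :
    ∃ A : ℕ → ℝ,
      (∀ (q : ℕ) (χ : DirichletCharacter ℂ q), (∑ m ∈ E, χ (m : ZMod q)) ^ r =
        ∑ n ∈ Icc 1 (M ^ r), (A n : ℂ) * χ (n : ZMod q)) ∧
      ∑ n ∈ Icc 1 (M ^ r), A n ^ 2 ≤ ((#E : ℝ) * (r : ℝ) ^ W) ^ r := by
  classical
  have h0 : 0 ∉ E := fun h => by
    have := mem_Icc.1 (hE h)
    omega
  set e := ind E h0 with he_def
  have he : ∀ n, e n ≠ 0 → n ∈ Icc 1 M := by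
    intro n hn
    apply hE
    by_contra h
    apply hn
    rw [he_def, ind_apply, if_neg h]
  have he0 : ∀ n, 0 ≤ e n := by
    intro n
    rw [he_def, ind_apply]
    split_ifs <;> norm_num
  have he1 : ∀ n, e n ≤ 1 := by
    intro n
    rw [he_def, ind_apply]
    split_ifs <;> norm_num
  refine ⟨fun n => (e ^ r) n, ?_, ?_⟩
  · intro q χ
    have h := pow_identity M e he (fun n => χ (n : ZMod q)) (by simp) (by
      intro a b
      push_cast
      rw [map_mul]) r
    rw [← h]
    congr 1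
    rw [← sum_subset hE]
    · apply sum_congr rfl
      intro m hm
      rw [he_def, ind_apply, if_pos hm]
      simp
    · intro m _ hm
      rw [he_def, ind_apply, if_neg hm]
      simp
  · calc ∑ n ∈ Icc 1 (M ^ r), ((e ^ r) n) ^ 2
        ≤ ∑ n ∈ Icc 1 (M ^ r), (e ^ r) n * tau r n := by
          apply sum_le_sum
          intro n _
          rw [sq]
          exact mul_le_mul_of_nonneg_left (pow_le_tau e he0 he1 _ _) (pow_nonneg' e he0 _ _)
      _ ≤ (∑ m ∈ Icc 1 M, e m * tau r m) ^ r := second M e he he0 _ _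
      _ ≤ ((#E : ℝ) * (r : ℝ) ^ W) ^ r := by
          apply pow_le_pow_left₀
          · exact sum_nonneg fun b _ => mul_nonneg (he0 _) (tau_nonneg _ _)
          · have h5 : ∑ m ∈ Icc 1 M, e m * tau r m = ∑ m ∈ E, tau r m := by
              rw [← sum_subset hE]
              · apply sum_congr rfl
                intro m hm
                rw [he_def, ind_apply, if_pos hm, one_mul]
              · intro m _ hm
                rw [he_def, ind_apply, if_neg hm, zero_mul]
            rw [h5]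
            calc ∑ m ∈ E, tau r m ≤ ∑ _m ∈ E, (r : ℝ) ^ W := by
                  apply sum_le_sum
                  intro m hm
                  have h6 := tau_le r m (fun h => h0 (h ▸ hm))
                  refine h6.trans ?_
                  apply pow_le_pow_right₀ _ (hW m hm)
                  exact_mod_cast hr
              _ = _ := by rw [sum_const, nsmul_eq_mul]

theorem badCountW (E : Finset ℕ) (y x r W : ℕ) (M : ℝ) (hr : 1 ≤ r) (hE : E ⊆ Icc 1 y)
    (hW : ∀ m ∈ E, bigO m ≤ W) (hM : 0 < M) (hx : x ^ 2 ≤ y ^ r) :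
    (open Classical in (#{p ∈ PP x | ¬ Good E M p} : ℝ)) * M ^ (2 * r) ≤
      12 * (y : ℝ) ^ r * ((#E : ℝ) * (r : ℝ) ^ W) ^ r := by
  classical
  obtain ⟨A, hA1, hA2⟩ := momentW r y W hr E hE hW
  have hLS := Helper112.mult_large_sieve (y ^ r) x (fun n => (A n : ℂ))
  set bad := (PP x).filter (fun p => ¬ Good E M p) with hbad
  have hchoose : ∀ p ∈ bad, ∃ χ : DirichletCharacter ℂ p, χ ≠ 1 ∧
      M < ‖∑ q ∈ E, χ (q : ZMod p)‖ := by
    intro p hp
    rw [hbad, mem_filter] at hp
    have := hp.2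
    unfold Good at this
    push Not at this
    exact this
  have hpp : ∀ p ∈ bad, p.Prime ∧ p ≤ x := by
    intro p hp
    rw [hbad, mem_filter, PP, mem_filter, mem_range] at hp
    exact ⟨hp.1.2, by omega⟩
  have hsub : bad ⊆ Icc 1 x := by
    intro p hp
    rw [mem_Icc]
    exact ⟨(hpp p hp).1.one_le, (hpp p hp).2⟩
  have hlow : (bad.card : ℝ) * M ^ (2 * r) ≤ ∑ f ∈ Icc 1 x, ((f : ℝ) / (Nat.totient f : ℝ)) *
      ∑ χ ∈ (univ : Finset (DirichletCharacter ℂ f)).filter (fun χ => χ.IsPrimitive),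
        ‖∑ n ∈ Icc 1 (y ^ r), (A n : ℂ) * χ (n : ZMod f)‖ ^ 2 := by
    rw [← nsmul_eq_mul, ← sum_const]
    refine le_trans (sum_le_sum ?_) (sum_le_sum_of_subset_of_nonneg hsub ?_)
    · intro p hp
      obtain ⟨χ, hχ1, hχM⟩ := hchoose p hp
      have hprim := Pool.Agent.H386R2.Artin.T1.prim_of_prime (hpp p hp).1 hχ1
      have h1 : M ^ (2 * r) ≤ ‖∑ n ∈ Icc 1 (y ^ r), (A n : ℂ) * χ (n : ZMod p)‖ ^ 2 := by
        rw [← hA1 p χ, norm_pow, ← pow_mul, mul_comm r 2]
        exact pow_le_pow_left₀ hM.le hχM.le _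
      have h2 : ‖∑ n ∈ Icc 1 (y ^ r), (A n : ℂ) * χ (n : ZMod p)‖ ^ 2 ≤
          ∑ χ ∈ (univ : Finset (DirichletCharacter ℂ p)).filter (fun χ => χ.IsPrimitive),
            ‖∑ n ∈ Icc 1 (y ^ r), (A n : ℂ) * χ (n : ZMod p)‖ ^ 2 :=
        single_le_sum (f := fun χ : DirichletCharacter ℂ p =>
          ‖∑ n ∈ Icc 1 (y ^ r), (A n : ℂ) * χ (n : ZMod p)‖ ^ 2)
          (fun _ _ => sq_nonneg _) (mem_filter.mpr ⟨mem_univ _, hprim⟩)
      have h3 : (1 : ℝ) ≤ (p : ℝ) / (Nat.totient p : ℝ) := by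
        have h0 : (0 : ℝ) < (Nat.totient p : ℝ) := by
          exact_mod_cast Nat.totient_pos.mpr (hpp p hp).1.pos
        rw [le_div_iff₀ h0, one_mul]
        exact_mod_cast Nat.totient_le p
      calc M ^ (2 * r) ≤ _ := h1.trans h2
        _ ≤ _ := le_mul_of_one_le_left (sum_nonneg fun _ _ => sq_nonneg _) h3
    · intro f _ _
      exact mul_nonneg (div_nonneg (Nat.cast_nonneg _) (Nat.cast_nonneg _))
        (sum_nonneg fun _ _ => sq_nonneg _)
  have hx' : ((x : ℝ)) ^ 2 ≤ (y : ℝ) ^ r := by exact_mod_cast hx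
  have hA3 : ∑ n ∈ Icc 1 (y ^ r), ‖((A n : ℝ) : ℂ)‖ ^ 2 = ∑ n ∈ Icc 1 (y ^ r), A n ^ 2 := by
    apply sum_congr rfl
    intro n _
    rw [Complex.norm_real, Real.norm_eq_abs, sq_abs]
  rw [← hA3] at hA2
  calc (bad.card : ℝ) * M ^ (2 * r)
      ≤ 6 * (((y ^ r : ℕ) : ℝ) + (x : ℝ) ^ 2) *
        ∑ n ∈ Icc 1 (y ^ r), ‖((A n : ℝ) : ℂ)‖ ^ 2 := by
        refine hlow.trans ?_
        convert hLS using 1
    _ ≤ 6 * ((y : ℝ) ^ r + (y : ℝ) ^ r) * ((#E : ℝ) * (r : ℝ) ^ W) ^ r := by
        apply mul_le_mul _ hA2 (sum_nonneg fun _ _ => sq_nonneg _) (by positivity)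
        push_cast
        linarith
    _ = _ := by ring

end Pool.Agent.W171.EP
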