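import Mathlib
import Pool.Agent.W171.EP.RoughLS

set_option autoImplicit false

/-! # Few bad primes for thin sets of integers without small prime factors -/

namespace Pool.Agent.W171.EP

open Finset Filter Topology
open Pool.Agent.H386R2.Artin (PP Good)

open Classical in
/-- the integers `m ≤ y` all of whose prime factors exceed `(log y) ^ a` -/
noncomputable def Rg (a : ℝ) (y : ℕ) : Finset ℕ :=
  (Icc 1 y).filter (fun m : ℕ => ∀ p : ℕ, p.Prime → p ∣ m → (Real.log y) ^ a < (p : ℝ))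

lemma pow_bigO {z : ℝ} (hz : 0 ≤ z) (m : ℕ) (hm : m ≠ 0)
    (h : ∀ p : ℕ, p.Prime → p ∣ m → z < (p : ℝ)) : z ^ bigO m ≤ (m : ℝ) := by
  unfold bigO
  have h1 : ∀ l : List ℕ, (∀ p ∈ l, z < (p : ℝ)) → z ^ l.length ≤ ((l.prod : ℕ) : ℝ) := by
    intro l
    induction l with
    | nil => intro _; simp
    | cons q l ih =>
      intro hl
      rw [List.length_cons, List.prod_cons, pow_succ, mul_comm, Nat.cast_mul]
      apply mul_le_mul (hl q (by simp)).le (ih fun p hp => hl p (by simp [hp])) (by positivity)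
        (Nat.cast_nonneg _)
  have h2 := h1 m.primeFactorsList (fun p hp => h p (Nat.prime_of_mem_primeFactorsList hp)
    (Nat.dvd_of_mem_primeFactorsList hp))
  rwa [Nat.prod_primeFactorsList hm] at h2

open Classical in
theorem fewBadR {a K θ₀ c₀ : ℝ} (ha : 0 < a) (hK : 0 < K) (hθ₀ : 1 / 2 + K / a < θ₀)
    (hc₀ : 0 < c₀) :
    ∃ c δ : ℝ, 0 < c ∧ 0 < δ ∧ ∃ N₁ : ℕ, ∀ y x : ℕ, N₁ ≤ y →
      (Real.log y) ^ (1 + c₀) ≤ Real.log x → Real.log x ≤ (Real.log y) ^ K →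
      ∀ E : Finset ℕ, E ⊆ Rg a y → (y : ℝ) ^ θ₀ ≤ (#E : ℝ) →
        (#{p ∈ PP x | ¬ Good E ((#E : ℝ) / (Real.log x) ^ c) p} : ℝ) ≤
          12 * (x : ℝ) ^ (1 - δ) := by
  obtain ⟨g, hg⟩ : ∃ g : ℝ, g = θ₀ - 1 / 2 - K / a := ⟨_, rfl⟩
  have hg0 : 0 < g := by rw [hg]; linarith
  obtain ⟨δ, hδd⟩ : ∃ δ : ℝ, δ = min (1 / 8) (g / 4) := ⟨_, rfl⟩
  have hδ : 0 < δ := by rw [hδd]; exact lt_min (by norm_num) (by positivity)
  have hδ8 : δ ≤ 1 / 8 := by rw [hδd]; exact min_le_left _ _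
  have hδg : δ ≤ g / 4 := by rw [hδd]; exact min_le_right _ _
  refine ⟨1, δ, one_pos, hδ, ?_⟩
  have hlog : Tendsto (fun y : ℕ => Real.log (y : ℝ)) atTop atTop :=
    Real.tendsto_log_atTop.comp tendsto_natCast_atTop_atTop
  have hll : ∀ᶠ Y : ℝ in atTop, 2 * (K * Real.log Y) ≤ g / 2 * Y := by
    have h := (Real.isLittleO_log_id_atTop).bound (c := g / (4 * K)) (by positivity)
    filter_upwards [h, eventually_ge_atTop 1] with Y h1 h2
    rw [Real.norm_of_nonneg (Real.log_nonneg h2), id, Real.norm_of_nonneg (by linarith)] at h1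
    calc 2 * (K * Real.log Y) ≤ 2 * (K * (g / (4 * K) * Y)) := by gcongr
      _ = g / 2 * Y := by field_simp; ring
  have hev := ((hlog.eventually_ge_atTop 3).and
    (((tendsto_rpow_atTop hc₀).comp hlog).eventually_ge_atTop (1 / δ))).and
    (hlog.eventually hll)
  obtain ⟨N₁, hN₁⟩ := eventually_atTop.1 hev
  refine ⟨N₁, fun y x hy hyx hxy E hE hEc => ?_⟩
  obtain ⟨⟨hY3, hYc⟩, hYl⟩ := hN₁ y hy
  simp only [Function.comp] at hYc
  set X : ℝ := Real.log x with hX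
  set Y : ℝ := Real.log y with hY
  have hY0 : 0 < Y := by linarith
  have hy1 : (1 : ℝ) < y := by
    by_contra hcon
    have : Y ≤ 0 := by
      rcases Nat.eq_zero_or_pos y with h0 | h0
      · rw [hY, h0]; simp
      · have : (1 : ℝ) ≤ y := by exact_mod_cast h0
        have h1 : (y : ℝ) = 1 := by push Not at hcon; linarith
        rw [hY, h1]; simp
    linarith
  have hy0 : (0 : ℝ) < y := by linarith
  have hlY : 0 < Real.log Y := Real.log_pos (by linarith)
  -- Y ≤ δ X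
  have hYX' : Y * (1 / δ) ≤ X := by
    calc Y * (1 / δ) ≤ Y * Y ^ c₀ := by gcongr
      _ = Y ^ (1 + c₀) := by rw [Real.rpow_add hY0, Real.rpow_one]
      _ ≤ X := hyx
  have hYX : Y ≤ δ * X := by
    rw [mul_one_div, div_le_iff₀ hδ] at hYX'
    linarith
  have hX0 : 0 < X := by
    by_contra hcon
    push Not at hcon
    nlinarith
  have hX1 : 1 ≤ X := by nlinarith
  have hx1 : (1 : ℝ) < x := by
    by_contra hcon
    have : X ≤ 0 := by
      rcases Nat.eq_zero_or_pos x with h0 | h0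
      · rw [hX, h0]; simp
      · have : (1 : ℝ) ≤ x := by exact_mod_cast h0
        have h1 : (x : ℝ) = 1 := by push Not at hcon; linarith
        rw [hX, h1]; simp
    linarith
  have hx0 : (0 : ℝ) < x := by linarith
  set LL : ℝ := Real.log X with hLL
  have hLL0 : 0 ≤ LL := Real.log_nonneg hX1
  have hLLK : LL ≤ K * Real.log Y := by
    have := Real.log_le_log hX0 hxy
    rwa [Real.log_rpow hY0] at this
  set e : ℝ := (#E : ℝ) with he
  have he0 : 0 < e := lt_of_lt_of_le (by positivity) hEc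
  -- r
  set r : ℕ := ⌈2 * X / Y⌉₊ with hr
  have hr1 : 2 * X / Y ≤ r := Nat.le_ceil _
  have hr2 : (r : ℝ) ≤ 2 * X / Y + 1 := (Nat.ceil_lt_add_one (by positivity)).le
  have hr0 : (0 : ℝ) < r := lt_of_lt_of_le (by positivity) hr1
  have hrN : 1 ≤ r := by exact_mod_cast hr0
  have hr3 : (r : ℝ) ≤ X := by
    have h1 : 2 * X / Y ≤ 2 * X / 3 := by gcongr
    have h2 : 3 ≤ X := by nlinarith
    linarith
  have hpow : x ^ 2 ≤ y ^ r := by
    have h1 : Real.log ((x : ℝ) ^ 2) ≤ Real.log ((y : ℝ) ^ r) := by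
      rw [Real.log_pow, Real.log_pow]
      rw [div_le_iff₀ hY0] at hr1
      push_cast
      exact hr1
    have h2 := (Real.log_le_log_iff (by positivity) (by positivity)).1 h1
    exact_mod_cast h2
  -- number of prime factors
  set W : ℕ := ⌊Y / (a * Real.log Y)⌋₊ with hW
  have hWle : (W : ℝ) ≤ Y / (a * Real.log Y) := Nat.floor_le (by positivity)
  have hE1 : E ⊆ Icc 1 y := fun m hm => (mem_filter.1 (hE hm)).1
  have hEW : ∀ m ∈ E, bigO m ≤ W := by
    intro m hm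
    have h1 := hE hm
    unfold Rg at h1
    rw [mem_filter, mem_Icc] at h1
    obtain ⟨⟨h2, h3⟩, h4⟩ := h1
    have hm0 : (0 : ℝ) < m := by exact_mod_cast h2
    have h5 := pow_bigO (z := Y ^ a) (by positivity) m (by omega) h4
    apply Nat.le_floor
    rw [le_div_iff₀ (by positivity)]
    have h6 := Real.log_le_log (by positivity) (h5.trans (by exact_mod_cast h3 : (m : ℝ) ≤ y))
    rw [Real.log_pow, Real.log_rpow hY0] at h6
    exact h6
  have hrW : (r : ℝ) ^ W ≤ (y : ℝ) ^ (K / a) := by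
    have h1 : (0 : ℝ) < (r : ℝ) ^ W := by positivity
    rw [← Real.log_le_log_iff h1 (by positivity), Real.log_pow, Real.log_rpow hy0]
    have h2 : Real.log r ≤ LL := Real.log_le_log hr0 hr3
    have h3 : 0 ≤ Real.log r := Real.log_nonneg (by exact_mod_cast hrN)
    calc (W : ℝ) * Real.log r ≤ (Y / (a * Real.log Y)) * (K * Real.log Y) := by
          apply mul_le_mul hWle (h2.trans hLLK) h3 (by positivity)
      _ = K / a * Y := by field_simp
  have hXc : 0 < X ^ (1 : ℝ) := by rw [Real.rpow_one]; exact hX0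
  have hM : 0 < e / X ^ (1 : ℝ) := by positivity
  have hB := badCountW E y x r W (e / X ^ (1 : ℝ)) hrN hE1 hEW hM hpow
  set B : ℝ := (#{p ∈ PP x | ¬ Good E (e / X ^ (1 : ℝ)) p} : ℝ) with hBdef
  set M : ℝ := e / X ^ (1 : ℝ) with hMdef
  set Q : ℝ := (y : ℝ) ^ (1 - θ₀) * (y : ℝ) ^ (K / a) * X ^ 2 with hQ
  have hQ0 : 0 < Q := by positivity
  have key : (y : ℝ) * (e * (r : ℝ) ^ W) ≤ Q * M ^ 2 := by
    have h1 : Q * M ^ 2 = (y : ℝ) ^ (1 - θ₀) * (y : ℝ) ^ (K / a) * e * e := by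
      rw [hQ, hMdef, Real.rpow_one]
      field_simp
    have h2 : (y : ℝ) ^ (1 - θ₀) * (y : ℝ) ^ θ₀ = (y : ℝ) := by
      rw [← Real.rpow_add hy0, sub_add_cancel, Real.rpow_one]
    rw [h1]
    calc (y : ℝ) * (e * (r : ℝ) ^ W)
        = (y : ℝ) ^ (1 - θ₀) * (y : ℝ) ^ θ₀ * (e * (r : ℝ) ^ W) := by rw [h2]
      _ ≤ (y : ℝ) ^ (1 - θ₀) * e * (e * (y : ℝ) ^ (K / a)) := by gcongr
      _ = (y : ℝ) ^ (1 - θ₀) * (y : ℝ) ^ (K / a) * e * e := by ring
  have hB2 : B * (M ^ 2) ^ r ≤ 12 * Q ^ r * (M ^ 2) ^ r := by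
    calc B * (M ^ 2) ^ r = B * M ^ (2 * r) := by rw [← pow_mul]
      _ ≤ 12 * (y : ℝ) ^ r * (e * (r : ℝ) ^ W) ^ r := hB
      _ = 12 * ((y : ℝ) * (e * (r : ℝ) ^ W)) ^ r := by rw [mul_pow (y : ℝ)]; ring
      _ ≤ 12 * (Q * M ^ 2) ^ r := by gcongr
      _ = 12 * Q ^ r * (M ^ 2) ^ r := by rw [mul_pow]; ring
  have hB3 : B ≤ 12 * Q ^ r := le_of_mul_le_mul_right hB2 (by positivity)
  refine le_trans hB3 ?_
  have hlogQ : Real.log Q = (1 - θ₀) * Y + K / a * Y + 2 * LL := by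
    rw [hQ, Real.log_mul (by positivity) (by positivity), Real.log_mul (by positivity)
      (by positivity), Real.log_rpow hy0, Real.log_rpow hy0, Real.log_pow]
    push_cast
    ring
  have hlogQ2 : Real.log Q ≤ (1 / 2 - 2 * δ) * Y := by
    rw [hlogQ]
    have h1 : 2 * LL ≤ g / 2 * Y := by linarith
    have h2 : θ₀ = g + 1 / 2 + K / a := by rw [hg]; ring
    have h3 : (1 - θ₀) * Y + K / a * Y + g / 2 * Y = (1 / 2 - g / 2) * Y := by
      rw [h2]; ring
    have h4 : (1 / 2 - g / 2) * Y ≤ (1 / 2 - 2 * δ) * Y :=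
      mul_le_mul_of_nonneg_right (by linarith) hY0.le
    linarith
  have hpow2 : Q ^ r ≤ (x : ℝ) ^ (1 - δ) := by
    have h1 : Real.log (Q ^ r) ≤ (1 - δ) * X := by
      rw [Real.log_pow]
      have h2 : 0 ≤ (1 / 2 - 2 * δ) * Y := by
        have : 0 ≤ 1 / 2 - 2 * δ := by linarith
        positivity
      calc (r : ℝ) * Real.log Q ≤ r * ((1 / 2 - 2 * δ) * Y) := by gcongr
        _ ≤ (2 * X / Y + 1) * ((1 / 2 - 2 * δ) * Y) := by gcongr
        _ = (1 / 2 - 2 * δ) * (2 * X + Y) := by field_simp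
        _ ≤ (1 / 2 - 2 * δ) * (2 * X + δ * X) := by
          have : 0 ≤ 1 / 2 - 2 * δ := by linarith
          gcongr
        _ = (1 - δ) * X - (5 / 2 * δ + 2 * δ ^ 2) * X := by ring
        _ ≤ (1 - δ) * X := by
          have : 0 ≤ (5 / 2 * δ + 2 * δ ^ 2) * X := by positivity
          linarith
    calc Q ^ r = Real.exp (Real.log (Q ^ r)) := (Real.exp_log (by positivity)).symm
      _ ≤ Real.exp ((1 - δ) * X) := Real.exp_le_exp.2 h1
      _ = (x : ℝ) ^ (1 - δ) := by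
        rw [Real.rpow_def_of_pos hx0, mul_comm]
  linarith

end Pool.Agent.W171.EP
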