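import Mathlib
import Pool.Agent.W171.EP.AllS
import Pool.Agent.W171.EP.FewBadR
import Pool.Agent.H771R4.SE.LS2

set_option autoImplicit false

/-! # Almost all integers without small prime factors, for all `x` with
`y ^ C ≤ x ≤ exp ((log y) ^ K)`, with multipliers -/

namespace Pool.Agent.W171.EP

open Finset Filter Topology
open Pool.Agent.H386R2.Artin (PP Good)
open Pool.Agent.H771R4.SE (Dat cntE fewBad2)

lemma Rg_sub (a : ℝ) (y : ℕ) : Rg a y ⊆ Icc 1 y := by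
  classical
  exact filter_subset _ _

lemma ra_log : Tendsto (fun y : ℕ => Real.log (y : ℝ)) atTop atTop :=
  Real.tendsto_log_atTop.comp tendsto_natCast_atTop_atTop

lemma ra_pow {a b : ℝ} (ha : 0 < a) (hab : a < b) (K : ℝ) : ∀ᶠ l : ℝ in atTop,
    l ^ a + K ≤ l ^ b := by
  have h2 := (tendsto_rpow_atTop (show 0 < b - a by linarith)).eventually_ge_atTop 2
  have h3 := (tendsto_rpow_atTop ha).eventually_ge_atTop K
  filter_upwards [h2, h3, eventually_gt_atTop 0] with l h2 h3 h4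
  have h5 : l ^ b = l ^ a * l ^ (b - a) := by
    rw [← Real.rpow_add h4]; congr 1; ring
  have h6 : 0 < l ^ a := by positivity
  rw [h5]
  nlinarith

/-- powers of `log y` against powers of `y` -/
lemma ra_small (b s : ℝ) (hs : 0 < s) (K : ℝ) (hK : 0 < K) :
    ∀ᶠ y : ℕ in atTop, K * (|Real.log (y : ℝ) ^ b| + 1) ≤ (y : ℝ) ^ s := by
  have h1 := (isLittleO_log_rpow_rpow_atTop b hs).def
    (show (0 : ℝ) < 1 / (2 * K) by positivity)
  have h2 := (tendsto_natCast_atTop_atTop (R := ℝ)).eventually h1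
  have h3 : ∀ᶠ N : ℕ in atTop, 2 * K ≤ (N : ℝ) ^ s :=
    ((tendsto_rpow_atTop hs).comp tendsto_natCast_atTop_atTop).eventually_ge_atTop _
  filter_upwards [h2, h3, eventually_ge_atTop 2] with N h2 h3 h4
  have hN : (2 : ℝ) ≤ N := by exact_mod_cast h4
  rw [Real.norm_eq_abs, Real.norm_eq_abs,
    abs_of_pos (show 0 < (N : ℝ) ^ s by positivity)] at h2
  have h5 : K * |Real.log (N : ℝ) ^ b| ≤ (N : ℝ) ^ s / 2 := by
    calc K * |Real.log (N : ℝ) ^ b| ≤ K * (1 / (2 * K) * (N : ℝ) ^ s) := by gcongr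
      _ = (N : ℝ) ^ s / 2 := by field_simp
  linarith

lemma badS_union (S : ℕ → Finset ℕ) (d : Dat) (ε L M U : ℝ) (l y : ℕ) :
    badS S d ε L U l y ⊆ badS S d ε L M l y ∪ badS S d ε M U l y := by
  classical
  intro q hq
  unfold badS at hq ⊢
  rw [mem_filter] at hq
  obtain ⟨h1, x, h2, h3, h4⟩ := hq
  rw [mem_union, mem_filter, mem_filter]
  rcases le_total (Real.log x) M with h | h
  · exact Or.inl ⟨h1, x, h2, h, h4⟩
  · exact Or.inr ⟨h1, x, h, h3, h4⟩

/-- the range `2 log y ≤ log x ≤ (log y) ^ (1 + c)` -/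
theorem lowS (a : ℝ) : ∃ c : ℝ, 0 < c ∧
    ∀ (d : Dat) (ε : ℝ), 0 < ε → ∃ N₀ : ℕ, ∀ y : ℕ, N₀ ≤ y → ∀ l : ℕ, 0 < l →
      Real.log l ≤ √y →
      (#(badS (Rg a) d ε (2 * Real.log y) ((Real.log y) ^ (1 + c)) l y) : ℝ) ≤
        (y : ℝ) ^ (17 / 20 : ℝ) := by
  classical
  obtain ⟨θ₀, δ, c, hθ₀, hθ₀θ, hδ, hc, N₁, hF⟩ := fewBad2 (4 / 5) (3 / 2) (by norm_num)
    (by norm_num) (by norm_num) (by norm_num)
  refine ⟨c / 2, by positivity, fun d ε hε => ?_⟩
  refine allS (Rg a) (Rg_sub a) (fun y => 3 / 2 * Real.log y) (fun y => (Real.log y) ^ (1 + c))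
    (fun y => 2 * Real.log y) (fun y => (Real.log y) ^ (1 + c / 2)) (κ := 1 / 2) (c := 1)
    (θ := 17 / 20) hθ₀ (by norm_num) one_pos hδ ?_ ?_ ?_ ?_ ?_ d ε hε
  · filter_upwards with y
    apply le_of_eq
    ring
  · filter_upwards [ra_log.eventually_ge_atTop (2 * Real.log 4)] with y hy
    linarith
  · exact ra_log.eventually (ra_pow (by positivity) (by linarith) _)
  · intro K hK
    exact ra_small _ _ (by linarith) K hK
  · refine ⟨max N₁ 2, fun y x hy hyx hxy E hE hEc => ?_⟩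
    have hy1 : N₁ ≤ y := (le_max_left _ _).trans hy
    have hy2 : 2 ≤ y := (le_max_right _ _).trans hy
    have hy0 : (0 : ℝ) < y := by exact_mod_cast (by omega : 0 < y)
    have hly : 0 < Real.log y := Real.log_pos (by exact_mod_cast (by omega : 1 < y))
    have hlx : 0 < Real.log x := lt_of_lt_of_le (by positivity) hyx
    have hx0 : (0 : ℝ) < x := by
      by_contra hcon
      have : x = 0 := by
        have h3 : (x : ℝ) ≤ 0 := not_lt.1 hcon
        exact_mod_cast le_antisymm h3 (Nat.cast_nonneg _)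
      rw [this] at hlx
      simp at hlx
    have hyC : (y : ℝ) ^ (3 / 2 : ℝ) ≤ x := by
      rw [← Real.log_le_log_iff (by positivity) hx0, Real.log_rpow hy0]
      exact hyx
    have h1 := hF y x hy1 hyC hxy E (hE.trans (Rg_sub a y)) hEc
      ((PP x).filter (fun p => ¬ Good E ((#E : ℝ) / Real.log x) p)) (fun p hp => by
        rw [mem_filter] at hp
        exact hp)
    rw [Real.rpow_one]
    exact h1

/-- the range `(log y) ^ (1 + c) ≤ log x ≤ (log y) ^ K` -/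
theorem highS (K c : ℝ) (hK : 1 ≤ K) (hc : 0 < c) :
    ∀ (d : Dat) (ε : ℝ), 0 < ε → ∃ N₀ : ℕ, ∀ y : ℕ, N₀ ≤ y → ∀ l : ℕ, 0 < l →
      Real.log l ≤ √y →
      (#(badS (Rg (12 * (K + 1))) d ε ((Real.log y) ^ (1 + c)) ((Real.log y) ^ K) l y) : ℝ) ≤
        (y : ℝ) ^ (17 / 20 : ℝ) := by
  classical
  obtain ⟨c', δ, hc', hδ, N₁, hF⟩ := fewBadR (a := 12 * (K + 1)) (K := K + 1) (θ₀ := 3 / 4)
    (c₀ := c / 2) (by linarith) (by linarith) (by
      have : (K + 1) / (12 * (K + 1)) = 1 / 12 := by field_simp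
      rw [this]; norm_num) (by positivity)
  intro d ε hε
  refine allS (Rg (12 * (K + 1))) (Rg_sub _) (fun y => (Real.log y) ^ (1 + c / 2))
    (fun y => (Real.log y) ^ (K + 1))
    (fun y => (Real.log y) ^ (1 + c)) (fun y => (Real.log y) ^ K) (κ := 1) (c := c')
    (θ₀ := 3 / 4) (θ := 17 / 20) (by norm_num) one_pos hc' hδ ?_ ?_ ?_ ?_ ?_ d ε hε
  · have h1 : ∀ᶠ l : ℝ in atTop, (1 + 1) * l ≤ l ^ (1 + c / 2) := by
      have h2 := (tendsto_rpow_atTop (show 0 < c / 2 by positivity)).eventually_ge_atTop 2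
      filter_upwards [h2, eventually_gt_atTop 0] with l h2 h4
      rw [Real.rpow_add h4, Real.rpow_one]
      nlinarith
    exact ra_log.eventually h1
  · exact ra_log.eventually (ra_pow (by positivity) (by linarith) _)
  · exact ra_log.eventually (ra_pow (by linarith) (by linarith) _)
  · intro K' hK'
    exact ra_small _ _ (by norm_num) K' hK'
  · exact ⟨N₁, fun y x hy hyx hxy E hE hEc => hF y x hy hyx hxy E hE hEc⟩

/-- the range `2 log y ≤ log x ≤ (log y) ^ K` -/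
theorem roughAll (K : ℝ) (hK : 1 ≤ K) :
    ∀ (d : Dat) (ε : ℝ), 0 < ε → ∃ N₀ : ℕ, ∀ y : ℕ, N₀ ≤ y → ∀ l : ℕ, 0 < l →
      Real.log l ≤ √y →
      (#(badS (Rg (12 * (K + 1))) d ε (2 * Real.log y) ((Real.log y) ^ K) l y) : ℝ) ≤
        2 * (y : ℝ) ^ (17 / 20 : ℝ) := by
  intro d ε hε
  obtain ⟨c, hc, h1⟩ := lowS (12 * (K + 1))
  obtain ⟨N₁, h1⟩ := h1 d ε hε
  obtain ⟨N₂, h2⟩ := highS K c hK hc d ε hε
  refine ⟨max N₁ N₂, fun y hy l hl hll => ?_⟩
  have k1 := h1 y ((le_max_left _ _).trans hy) l hl hll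
  have k2 := h2 y ((le_max_right _ _).trans hy) l hl hll
  have k3 := (card_le_card (badS_union (Rg (12 * (K + 1))) d ε (2 * Real.log y)
    ((Real.log y) ^ (1 + c)) ((Real.log y) ^ K) l y)).trans (card_union_le _ _)
  have k4 : (#(badS (Rg (12 * (K + 1))) d ε (2 * Real.log y) ((Real.log y) ^ K) l y) : ℝ) ≤
      (#(badS (Rg (12 * (K + 1))) d ε (2 * Real.log y) ((Real.log y) ^ (1 + c)) l y) : ℝ) +
      (#(badS (Rg (12 * (K + 1))) d ε ((Real.log y) ^ (1 + c)) ((Real.log y) ^ K) l y) : ℝ) := by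
    exact_mod_cast k3
  linarith

end Pool.Agent.W171.EP
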