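import Mathlib
import Pool.Agent.H386R2.Artin.Integers

set_option autoImplicit false

/-! # Few integers with a large smooth part -/

namespace Pool.Agent.W171.EP

open Finset Filter Topology

/-- `n ↦ n ^ s` -/
noncomputable def powHom (s : ℝ) : ℕ →* ℝ where
  toFun n := (n : ℝ) ^ s
  map_one' := by simp
  map_mul' a b := by
    rw [Nat.cast_mul, Real.mul_rpow (Nat.cast_nonneg _) (Nat.cast_nonneg _)]

lemma inv_le_exp {t : ℝ} (h0 : 0 ≤ t) (h1 : t ≤ 3 / 5) : (1 - t)⁻¹ ≤ Real.exp (5 / 2 * t) := by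
  have h2 : 0 < 1 - t := by linarith
  have h3 : (1 - t)⁻¹ = t / (1 - t) + 1 := by field_simp; ring
  rw [h3]
  refine (Real.add_one_le_exp _).trans (Real.exp_le_exp.2 ?_)
  rw [div_le_iff₀ h2]
  nlinarith

/-- the sum over smooth numbers -/
theorem smooth_sum (σ : ℝ) (hσ : 0 < σ) (hσ1 : σ ≤ 1 / 4) (Z : ℕ) (hZ : 1 ≤ Z) (S : Finset ℕ)
    (hS : ∀ a ∈ S, a ≠ 0 ∧ ∀ p : ℕ, p.Prime → p ∣ a → p < Z) :
    ∑ a ∈ S, (a : ℝ) ^ (σ - 1) ≤ Real.exp (5 / 2 * ((Z : ℝ) ^ σ * (1 + Real.log Z))) := by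
  have hp : ∀ {p : ℕ}, p.Prime → (p : ℝ) ^ (σ - 1) ≤ 3 / 5 := by
    intro p hp
    have h1 : (2 : ℝ) ≤ p := by exact_mod_cast hp.two_le
    calc (p : ℝ) ^ (σ - 1) ≤ (2 : ℝ) ^ (σ - 1) :=
          Real.rpow_le_rpow_of_nonpos (by norm_num) h1 (by linarith)
      _ ≤ (2 : ℝ) ^ (-(3 / 4) : ℝ) := by
          apply Real.rpow_le_rpow_of_exponent_le (by norm_num)
          linarith
      _ ≤ 3 / 5 := by
          rw [Real.rpow_neg (by norm_num), inv_le_comm₀ (by positivity) (by norm_num)]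
          have h2 : ((5 / 3 : ℝ) ^ (4 : ℝ)) ≤ (2 : ℝ) ^ (3 : ℝ) := by norm_num
          have h3 : ((5 / 3 : ℝ) ^ (4 : ℝ)) ^ (1 / 4 : ℝ) ≤ ((2 : ℝ) ^ (3 : ℝ)) ^ (1 / 4 : ℝ) :=
            Real.rpow_le_rpow (by positivity) h2 (by norm_num)
          rw [← Real.rpow_mul (by norm_num), ← Real.rpow_mul (by norm_num)] at h3
          norm_num at h3 ⊢
          exact h3
  have hh : ∀ {p : ℕ}, p.Prime → ‖powHom (σ - 1) p‖ < 1 := by
    intro p hpp
    have h1 := hp hpp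
    have h2 : powHom (σ - 1) p = (p : ℝ) ^ (σ - 1) := rfl
    rw [h2, Real.norm_of_nonneg (by positivity)]
    linarith
  obtain ⟨hsum, hhas⟩ :=
    EulerProduct.summable_and_hasSum_smoothNumbers_prod_primesBelow_geometric
      (f := powHom (σ - 1)) hh Z
  have hsm : ∀ a ∈ S, a ∈ Z.smoothNumbers := by
    intro a ha
    rw [Nat.mem_smoothNumbers']
    intro p hpp hpa
    exact (hS a ha).2 p hpp hpa
  have h1 : ∑ a ∈ S, (a : ℝ) ^ (σ - 1) ≤ ∏ p ∈ Z.primesBelow, (1 - powHom (σ - 1) p)⁻¹ := by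
    have h2 : ∑ a ∈ S.attach, powHom (σ - 1)
        ((⟨a.1, hsm a.1 a.2⟩ : Z.smoothNumbers) : ℕ) ≤
        ∏ p ∈ Z.primesBelow, (1 - powHom (σ - 1) p)⁻¹ := by
      have hinj : Function.Injective
          (fun a : {x // x ∈ S} => (⟨a.1, hsm a.1 a.2⟩ : Z.smoothNumbers)) := by
        intro a b h
        exact Subtype.ext (congrArg (fun t : Z.smoothNumbers => (t : ℕ)) h)
      have h3 := sum_le_hasSum (S.attach.map ⟨_, hinj⟩) (fun i _ => by
        show (0 : ℝ) ≤ ((i : ℕ) : ℝ) ^ (σ - 1)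
        positivity) hhas
      rw [sum_map] at h3
      exact h3
    refine le_trans (le_of_eq ?_) h2
    rw [← sum_attach S]
    rfl
  refine h1.trans ?_
  have h2 : ∏ p ∈ Z.primesBelow, (1 - powHom (σ - 1) p)⁻¹ ≤
      ∏ p ∈ Z.primesBelow, Real.exp (5 / 2 * (p : ℝ) ^ (σ - 1)) := by
    apply Finset.prod_le_prod
    · intro p hpp
      rw [Nat.mem_primesBelow] at hpp
      have h3 := hp hpp.2
      have h4 : powHom (σ - 1) p = (p : ℝ) ^ (σ - 1) := rfl
      rw [h4]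
      exact (inv_pos.2 (by linarith)).le
    · intro p hpp
      rw [Nat.mem_primesBelow] at hpp
      exact inv_le_exp (t := (p : ℝ) ^ (σ - 1)) (Real.rpow_nonneg (Nat.cast_nonneg p) _) (hp hpp.2)
  refine h2.trans ?_
  rw [← Real.exp_sum, ← mul_sum]
  apply Real.exp_le_exp.2
  apply mul_le_mul_of_nonneg_left _ (by norm_num)
  have hZR : (1 : ℝ) ≤ Z := by exact_mod_cast hZ
  calc ∑ p ∈ Z.primesBelow, (p : ℝ) ^ (σ - 1)
      ≤ ∑ n ∈ Icc 1 Z, (n : ℝ) ^ (σ - 1) := by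
        apply sum_le_sum_of_subset_of_nonneg
        · intro p hpp
          rw [Nat.mem_primesBelow] at hpp
          rw [mem_Icc]
          exact ⟨hpp.2.one_le, hpp.1.le⟩
        · intro _ _ _; positivity
    _ ≤ ∑ n ∈ Icc 1 Z, (Z : ℝ) ^ σ * (1 / n) := by
        apply sum_le_sum
        intro n hn
        rw [mem_Icc] at hn
        have hn0 : (0 : ℝ) < n := by exact_mod_cast hn.1
        have hnZ : (n : ℝ) ≤ Z := by exact_mod_cast hn.2
        rw [Real.rpow_sub hn0, Real.rpow_one, div_eq_mul_one_div]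
        gcongr
    _ ≤ (Z : ℝ) ^ σ * (1 + Real.log Z) := by
        rw [← mul_sum]
        gcongr
        have h := harmonic_le_one_add_log Z
        rw [harmonic_eq_sum_Icc] at h
        push_cast at h
        simpa [one_div] using h

/-- the part of `n` made of the prime factors up to `z` -/
noncomputable def smp (z : ℝ) (n : ℕ) : ℕ := by
  classical
  exact (n.primeFactorsList.filter (fun p : ℕ => (p : ℝ) ≤ z)).prod

/-- the part of `n` made of the prime factors beyond `z` -/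
noncomputable def rop (z : ℝ) (n : ℕ) : ℕ := by
  classical
  exact (n.primeFactorsList.filter (fun p : ℕ => ¬ (p : ℝ) ≤ z)).prod

lemma smp_mul_rop (z : ℝ) {n : ℕ} (hn : n ≠ 0) : smp z n * rop z n = n := by
  classical
  have key : ∀ l : List ℕ, (l.filter (fun p : ℕ => (p : ℝ) ≤ z)).prod *
      (l.filter (fun p : ℕ => ¬ (p : ℝ) ≤ z)).prod = l.prod := by
    intro l
    induction l with
    | nil => simp
    | cons q l ih =>
      by_cases h : (q : ℝ) ≤ z
      · rw [List.filter_cons_of_pos (by simpa using h), List.filter_cons_of_neg (by simpa using h),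
          List.prod_cons, List.prod_cons, mul_assoc, ih]
      · rw [List.filter_cons_of_neg (by simpa using h), List.filter_cons_of_pos (by simpa using h),
          List.prod_cons, List.prod_cons, mul_left_comm, ih]
  have h := key n.primeFactorsList
  rw [Nat.prod_primeFactorsList hn] at h
  exact h

lemma prime_dvd_list {p : ℕ} (hp : p.Prime) (l : List ℕ) (hl : ∀ q ∈ l, q.Prime)
    (h : p ∣ l.prod) : p ∈ l := by
  rw [Prime.dvd_prod_iff hp.prime] at h
  obtain ⟨q, hq, hpq⟩ := h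
  rw [Nat.prime_dvd_prime_iff_eq hp (hl q hq)] at hpq
  rw [hpq]
  exact hq

lemma smp_smooth {z : ℝ} {n p : ℕ} (hp : p.Prime) (h : p ∣ smp z n) : (p : ℝ) ≤ z := by
  classical
  have h1 := prime_dvd_list hp _ (fun q hq => Nat.prime_of_mem_primeFactorsList
    (List.mem_filter.1 hq).1) h
  simpa using (List.mem_filter.1 h1).2

lemma rop_rough {z : ℝ} {n p : ℕ} (hp : p.Prime) (h : p ∣ rop z n) : z < (p : ℝ) := by
  classical
  have h1 := prime_dvd_list hp _ (fun q hq => Nat.prime_of_mem_primeFactorsList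
    (List.mem_filter.1 hq).1) h
  simpa using (List.mem_filter.1 h1).2

open Classical in
theorem few_large_smooth (σ : ℝ) (hσ : 0 < σ) (hσ1 : σ ≤ 1 / 4) (z T : ℝ)
    (hT : 0 < T) (N : ℕ) :
    (#((Icc 1 N).filter (fun n : ℕ => T < (smp z n : ℝ))) : ℝ) ≤
      N * T ^ (-σ) * Real.exp (5 / 2 * (((⌊z⌋₊ + 1 : ℕ) : ℝ) ^ σ *
        (1 + Real.log ((⌊z⌋₊ + 1 : ℕ) : ℝ)))) := by
  set B := (Icc 1 N).filter (fun n : ℕ => T < (smp z n : ℝ)) with hB
  set L := B.image (smp z) with hL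
  have hL1 : ∀ l ∈ L, (l ≠ 0 ∧ ∀ p : ℕ, p.Prime → p ∣ l → p < ⌊z⌋₊ + 1) ∧ T < (l : ℝ) := by
    intro l hl
    rw [hL, mem_image] at hl
    obtain ⟨n, hn, rfl⟩ := hl
    rw [hB, mem_filter, mem_Icc] at hn
    refine ⟨⟨?_, ?_⟩, hn.2⟩
    · intro h0
      have := smp_mul_rop z (show n ≠ 0 by omega)
      rw [h0, zero_mul] at this
      omega
    · intro p hp hpl
      have h1 := smp_smooth hp hpl
      have h2 := Nat.le_floor h1
      omega
  have hsub : B ⊆ L.biUnion (fun l => (Ioc 0 N).filter (fun n => l ∣ n)) := by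
    intro n hn
    have hn' := hn
    rw [hB, mem_filter, mem_Icc] at hn'
    rw [mem_biUnion]
    refine ⟨smp z n, mem_image_of_mem _ hn, ?_⟩
    rw [mem_filter, mem_Ioc]
    exact ⟨by omega, ⟨rop z n, (smp_mul_rop z (by omega)).symm⟩⟩
  have h1 : (#B : ℝ) ≤ ∑ l ∈ L, ((N / l : ℕ) : ℝ) := by
    have h2 := (card_le_card hsub).trans card_biUnion_le
    have h3 : ∑ l ∈ L, #((Ioc 0 N).filter (fun n => l ∣ n)) = ∑ l ∈ L, N / l := by
      apply sum_congr rfl
      intro l _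
      exact Nat.Ioc_filter_dvd_card_eq_div N l
    rw [h3] at h2
    exact_mod_cast h2
  refine h1.trans ?_
  have h2 : ∑ l ∈ L, ((N / l : ℕ) : ℝ) ≤ ∑ l ∈ L, N * T ^ (-σ) * (l : ℝ) ^ (σ - 1) := by
    apply sum_le_sum
    intro l hl
    obtain ⟨⟨hl0, _⟩, hlT⟩ := hL1 l hl
    have hl1 : (0 : ℝ) < l := by exact_mod_cast Nat.pos_of_ne_zero hl0
    refine (Nat.cast_div_le).trans ?_
    have h3 : (l : ℝ) ^ (σ - 1) = (l : ℝ) ^ σ * (1 / l) := by
      rw [Real.rpow_sub hl1, Real.rpow_one]; ring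
    have h4 : 1 ≤ T ^ (-σ) * (l : ℝ) ^ σ := by
      rw [Real.rpow_neg hT.le, inv_mul_eq_div, one_le_div (by positivity)]
      exact Real.rpow_le_rpow hT.le hlT.le hσ.le
    calc (N : ℝ) / l = N * (1 / l) * 1 := by ring
      _ ≤ N * (1 / l) * (T ^ (-σ) * (l : ℝ) ^ σ) := by gcongr
      _ = _ := by rw [h3]; ring
  refine h2.trans ?_
  rw [← mul_sum]
  apply mul_le_mul_of_nonneg_left _ (by positivity)
  have h5 := smooth_sum σ hσ hσ1 (⌊z⌋₊ + 1) (by omega) L (fun l hl => (hL1 l hl).1)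
  exact h5

end Pool.Agent.W171.EP
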