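import Mathlib
import Pool.Agent.W171.EP.RoughAll
import Pool.Agent.W171.EP.SmoothSum
import Pool.Agent.W171.EP.LowPow

set_option autoImplicit false

/-! # Few exceptions for `N ^ 2 ≤ x ≤ exp ((log N) ^ K)` -/

namespace Pool.Agent.W171.EP

open Finset Filter Topology
open Pool.Agent.H771R4.SE (Dat cntE dLin)
open Pool.Agent.H386R2.Artin (artinC)
open Pool.Agent.H730R2.AA (cnt)

lemma cnt_eqL (D : ℤ) (hD : D ≠ 0) (n x : ℕ) : cnt (D * (n : ℤ)) x = cntE (dLin D hD) n x := by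
  classical
  unfold cnt cntE
  apply congrArg Finset.card
  apply Finset.filter_congr_decidable _ _ _ |>.symm.trans
  apply Finset.filter_congr
  intro p _
  simp only [dLin, Int.cast_mul, Int.cast_natCast]

open Classical in
/-- the cover by integers with a large smooth part and by multiples of small smooth numbers -/
theorem cover_S (D : ℤ) (hD : D ≠ 0) (ε a K T : ℝ) (ha : 0 < a) (N : ℕ) (hN : 1 ≤ N)
    (hlow : ∀ l ∈ Icc 1 ⌊T⌋₊, (Real.log N) ^ K ≤ (Real.log ((N / l : ℕ) : ℝ)) ^ (K + 1)) :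
    #(badR (fun N x => (N : ℝ) ^ (2 : ℝ) ≤ x ∧ (x : ℝ) ≤ Real.exp ((Real.log N) ^ K)) D ε N) ≤
      #((Icc 1 N).filter (fun n : ℕ => T < (smp ((Real.log N) ^ a) n : ℝ))) +
      ∑ l ∈ Icc 1 ⌊T⌋₊, #(badS (Rg a) (dLin D hD) ε (2 * Real.log ((N / l : ℕ) : ℝ))
        ((Real.log ((N / l : ℕ) : ℝ)) ^ (K + 1)) l (N / l)) := by
  have hsub : badR (fun N x => (N : ℝ) ^ (2 : ℝ) ≤ x ∧ (x : ℝ) ≤ Real.exp ((Real.log N) ^ K)) D ε N
      ⊆ (Icc 1 N).filter (fun n : ℕ => T < (smp ((Real.log N) ^ a) n : ℝ)) ∪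
      (Icc 1 ⌊T⌋₊).biUnion fun l => (badS (Rg a) (dLin D hD) ε (2 * Real.log ((N / l : ℕ) : ℝ))
        ((Real.log ((N / l : ℕ) : ℝ)) ^ (K + 1)) l (N / l)).image fun m => l * m := by
    intro n hn
    unfold badR at hn
    rw [Finset.mem_filter] at hn
    obtain ⟨hnN, x, ⟨hx1, hx2⟩, hx3⟩ := hn
    have hnI := mem_Icc.1 hnN
    have hn0 : n ≠ 0 := by omega
    rw [Finset.mem_union]
    by_cases hT : T < (smp ((Real.log N) ^ a) n : ℝ)
    · exact Or.inl (Finset.mem_filter.2 ⟨hnN, hT⟩)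
    · right
      push Not at hT
      obtain ⟨l, hl⟩ : ∃ l : ℕ, l = smp ((Real.log N) ^ a) n := ⟨_, rfl⟩
      obtain ⟨m, hm⟩ : ∃ m : ℕ, m = rop ((Real.log N) ^ a) n := ⟨_, rfl⟩
      have hlm : l * m = n := by rw [hl, hm]; exact smp_mul_rop _ hn0
      have hl0 : 0 < l := by
        rcases Nat.eq_zero_or_pos l with h | h
        · rw [h, zero_mul] at hlm; omega
        · exact h
      have hm0 : 0 < m := by
        rcases Nat.eq_zero_or_pos m with h | h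
        · rw [h, mul_zero] at hlm; omega
        · exact h
      have hlT : l ∈ Icc 1 ⌊T⌋₊ := by
        rw [mem_Icc]
        refine ⟨hl0, Nat.le_floor ?_⟩
        rw [hl]
        exact hT
      have hmy : m ≤ N / l := (Nat.le_div_iff_mul_le hl0).2 (by rw [mul_comm, hlm]; exact hnI.2)
      have hN0 : (0 : ℝ) < N := by exact_mod_cast hN
      have hy1 : 1 ≤ N / l := hm0.trans_le hmy
      have hy1' : (1 : ℝ) ≤ ((N / l : ℕ) : ℝ) := by exact_mod_cast hy1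
      have hyN : ((N / l : ℕ) : ℝ) ≤ N := by exact_mod_cast Nat.div_le_self N l
      have hlogy : 0 ≤ Real.log ((N / l : ℕ) : ℝ) := Real.log_nonneg hy1'
      have hlogyN : Real.log ((N / l : ℕ) : ℝ) ≤ Real.log N :=
        Real.log_le_log (by linarith) hyN
      rw [mem_biUnion]
      refine ⟨l, hlT, ?_⟩
      rw [mem_image]
      refine ⟨m, ?_, hlm⟩
      unfold badS
      rw [Finset.mem_filter]
      have hx0 : (0 : ℝ) < x := lt_of_lt_of_le (by positivity) hx1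
      refine ⟨?_, x, ?_, ?_, ?_⟩
      · unfold Rg
        rw [Finset.mem_filter, mem_Icc]
        refine ⟨⟨hm0, hmy⟩, fun p hp hpm => ?_⟩
        rw [hm] at hpm
        refine lt_of_le_of_lt ?_ (rop_rough hp hpm)
        exact Real.rpow_le_rpow hlogy hlogyN ha.le
      · have h1 := Real.log_le_log (by positivity) hx1
        rw [Real.log_rpow hN0] at h1
        linarith
      · have h1 : Real.log x ≤ (Real.log N) ^ K := by
          rw [Real.log_le_iff_le_exp hx0]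
          exact hx2
        exact h1.trans (hlow l hlT)
      · rw [hlm, ← cnt_eqL D hD n x]
        exact hx3
  refine (card_le_card hsub).trans ((card_union_le _ _).trans ?_)
  gcongr
  exact card_biUnion_le.trans (sum_le_sum fun m _ => card_image_le)

theorem highPow (D : ℤ) (hD : D ≠ 0) (K : ℝ) (hK : 1 ≤ K) (ε : ℝ) (hε : 0 < ε) :
    ∃ N₀ : ℕ, ∀ N : ℕ, N₀ ≤ N →
      (#(badR (fun N x => (N : ℝ) ^ (2 : ℝ) ≤ x ∧ (x : ℝ) ≤ Real.exp ((Real.log N) ^ K)) D ε N) : ℝ)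
        ≤ (N : ℝ) ^ (1 - 1 / (800 * K)) + 2 * (N : ℝ) ^ (19 / 20 : ℝ) := by
  classical
  obtain ⟨Y₁, hY₁⟩ := roughAll (K + 1) (by linarith) (dLin D hD) ε hε
  obtain ⟨a, ha⟩ : ∃ a : ℝ, a = 12 * (K + 1 + 1) := ⟨_, rfl⟩
  rw [← ha] at hY₁
  have ha0 : 0 < a := by rw [ha]; linarith
  obtain ⟨σ, hσ⟩ : ∃ σ : ℝ, σ = 1 / (2 * a) := ⟨_, rfl⟩
  have hσ0 : 0 < σ := by rw [hσ]; positivity
  have ha36 : 36 ≤ a := by rw [ha]; linarith
  have hσ1 : σ ≤ 1 / 4 := by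
    rw [hσ]
    apply one_div_le_one_div_of_le (by norm_num)
    linarith
  have hσK : 1 / (800 * K) ≤ 9 / 100 * σ := by
    have h1 : a ≤ 36 * K := by rw [ha]; linarith
    have h2 : 1 / (2 * (36 * K)) ≤ σ := by
      rw [hσ]
      apply one_div_le_one_div_of_le (by positivity)
      linarith
    have h3 : 1 / (800 * K) = 9 / 100 * (1 / (2 * (36 * K))) := by field_simp; norm_num
    rw [h3]
    gcongr
  have hcast := tendsto_natCast_atTop_atTop (R := ℝ)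
  -- eventual conditions
  have e1 : ∀ᶠ N : ℕ in atTop, (Y₁ : ℝ) + 4 ≤ (N : ℝ) ^ (1 / 2 : ℝ) :=
    ((tendsto_rpow_atTop (by norm_num)).comp hcast).eventually_ge_atTop _
  have e2 : ∀ᶠ N : ℕ in atTop, Real.log N ≤ (N : ℝ) ^ (1 / 4 : ℝ) := by
    have h := (isLittleO_log_rpow_atTop (r := (1 / 4 : ℝ)) (by norm_num)).bound (c := 1) one_pos
    filter_upwards [hcast.eventually h] with x hx
    rw [one_mul, Real.norm_of_nonneg (Real.log_natCast_nonneg x),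
      Real.norm_of_nonneg (by positivity)] at hx
    exact hx
  have e3 : ∀ᶠ N : ℕ in atTop, (2 : ℝ) ^ (K + 1) ≤ Real.log N := ra_log.eventually_ge_atTop _
  have e4 : ∀ᶠ l : ℝ in atTop, 5 / 2 * ((2 * l ^ (1 / 2 : ℝ)) * (1 + 2 * a * Real.log l)) ≤
      σ / 100 * l := by
    have h := (isLittleO_log_rpow_atTop (r := (1 / 4 : ℝ)) (by norm_num)).bound
      (c := 1 / (2 * a)) (by positivity)
    have h2 := (tendsto_rpow_atTop (show (0 : ℝ) < 1 / 4 by norm_num)).eventually_ge_atTop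
      (max 1 (1000 / σ))
    filter_upwards [h, h2, eventually_ge_atTop 1] with l h1 h2 h3
    have hl0 : 0 < l := by linarith
    rw [Real.norm_of_nonneg (Real.log_nonneg h3), Real.norm_of_nonneg (by positivity)] at h1
    have h4 : 2 * a * Real.log l ≤ l ^ (1 / 4 : ℝ) := by
      calc 2 * a * Real.log l ≤ 2 * a * (1 / (2 * a) * l ^ (1 / 4 : ℝ)) := by gcongr
        _ = l ^ (1 / 4 : ℝ) := by field_simp
    have h5 : 1 ≤ l ^ (1 / 4 : ℝ) := (le_max_left _ _).trans h2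
    have h6 : 1000 / σ ≤ l ^ (1 / 4 : ℝ) := (le_max_right _ _).trans h2
    rw [div_le_iff₀ hσ0] at h6
    have h7 : l = l ^ (1 / 2 : ℝ) * l ^ (1 / 4 : ℝ) * l ^ (1 / 4 : ℝ) := by
      rw [← Real.rpow_add hl0, ← Real.rpow_add hl0]
      norm_num
    have h8 : 0 < l ^ (1 / 2 : ℝ) := by positivity
    calc 5 / 2 * ((2 * l ^ (1 / 2 : ℝ)) * (1 + 2 * a * Real.log l))
        ≤ 5 / 2 * ((2 * l ^ (1 / 2 : ℝ)) * (l ^ (1 / 4 : ℝ) + l ^ (1 / 4 : ℝ))) := by gcongr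
      _ = 10 * (l ^ (1 / 2 : ℝ) * l ^ (1 / 4 : ℝ)) := by ring
      _ = 1 / 100 * (l ^ (1 / 2 : ℝ) * l ^ (1 / 4 : ℝ)) * 1000 := by ring
      _ ≤ 1 / 100 * (l ^ (1 / 2 : ℝ) * l ^ (1 / 4 : ℝ)) * (l ^ (1 / 4 : ℝ) * σ) := by gcongr
      _ = σ / 100 * (l ^ (1 / 2 : ℝ) * l ^ (1 / 4 : ℝ) * l ^ (1 / 4 : ℝ)) := by ring
      _ = σ / 100 * l := by rw [← h7]
  have e5 : ∀ᶠ N : ℕ in atTop, (4 : ℝ) ≤ (N : ℝ) ^ (2 / 5 : ℝ) :=
    ((tendsto_rpow_atTop (by norm_num)).comp hcast).eventually_ge_atTop _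
  obtain ⟨N₀, hN₀⟩ := eventually_atTop.1 (((e1.and e2).and (e3.and (ra_log.eventually e4))).and
    (e5.and ((ra_log.eventually_ge_atTop (4 : ℝ)).and (eventually_ge_atTop 16))))
  refine ⟨N₀, fun N hN => ?_⟩
  obtain ⟨⟨⟨e1, e2⟩, ⟨e3, e4⟩⟩, ⟨e5, ⟨e6, hN16⟩⟩⟩ := hN₀ N hN
  have hN0 : (0 : ℝ) < N := by exact_mod_cast (by omega : 0 < N)
  have hN1 : (1 : ℝ) ≤ N := by exact_mod_cast (by omega : 1 ≤ N)
  set ll : ℝ := Real.log N with hll
  have hll0 : 0 < ll := by linarith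
  set T : ℝ := (N : ℝ) ^ (1 / 10 : ℝ) with hT
  have hT0 : 0 < T := by positivity
  have hT1 : 1 ≤ T := Real.one_le_rpow hN1 (by norm_num)
  -- the size of y = N / l
  have hy : ∀ l ∈ Icc 1 ⌊T⌋₊, (N : ℝ) ^ (1 / 2 : ℝ) ≤ ((N / l : ℕ) : ℝ) := by
    intro l hl
    rw [mem_Icc] at hl
    have hl0 : (0 : ℝ) < l := by exact_mod_cast hl.1
    have hlT : (l : ℝ) ≤ T := (Nat.le_floor_iff hT0.le).1 hl.2
    have h1 : (N : ℝ) / l < ((N / l : ℕ) : ℝ) + 1 := by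
      rw [div_lt_iff₀ hl0]
      have h2 := Nat.lt_div_mul_add (a := N) (b := l) (by omega)
      have h4 : N < (N / l + 1) * l := by
        calc N < N / l * l + l := h2
          _ = (N / l + 1) * l := by ring
      exact_mod_cast h4
    have h2 : (N : ℝ) / T ≤ (N : ℝ) / l := by gcongr
    have h3 : (N : ℝ) / T = (N : ℝ) ^ (1 / 2 : ℝ) * (N : ℝ) ^ (2 / 5 : ℝ) := by
      rw [hT, ← Real.rpow_add hN0]
      nth_rewrite 1 [← Real.rpow_one (N : ℝ)]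
      rw [← Real.rpow_sub hN0]
      norm_num
    have h5 : 1 ≤ (N : ℝ) ^ (1 / 2 : ℝ) := Real.one_le_rpow hN1 (by norm_num)
    have h6 : (N : ℝ) ^ (1 / 2 : ℝ) * 4 ≤ (N : ℝ) ^ (1 / 2 : ℝ) * (N : ℝ) ^ (2 / 5 : ℝ) := by gcongr
    linarith
  have hlow : ∀ l ∈ Icc 1 ⌊T⌋₊, (Real.log N) ^ K ≤ (Real.log ((N / l : ℕ) : ℝ)) ^ (K + 1) := by
    intro l hl
    have h1 := Real.log_le_log (by positivity) (hy l hl)
    rw [Real.log_rpow hN0] at h1
    have h2 : (1 / 2 * ll) ^ (K + 1) ≤ (Real.log ((N / l : ℕ) : ℝ)) ^ (K + 1) :=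
      Real.rpow_le_rpow (by positivity) h1 (by linarith)
    refine le_trans ?_ h2
    rw [Real.mul_rpow (by norm_num) hll0.le, Real.rpow_add hll0 K 1, Real.rpow_one,
      Real.div_rpow (by norm_num) (by norm_num), Real.one_rpow, one_div_mul_eq_div,
      le_div_iff₀ (by positivity)]
    gcongr
  have hcov := cover_S D hD ε a K T ha0 N (by omega) hlow
  have hcov' : (#(badR (fun N x => (N : ℝ) ^ (2 : ℝ) ≤ x ∧ (x : ℝ) ≤ Real.exp ((Real.log N) ^ K)) D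
      ε N) : ℝ) ≤ (#((Icc 1 N).filter (fun n : ℕ => T < (smp ((Real.log N) ^ a) n : ℝ))) : ℝ) +
      ∑ l ∈ Icc 1 ⌊T⌋₊, (#(badS (Rg a) (dLin D hD) ε (2 * Real.log ((N / l : ℕ) : ℝ))
        ((Real.log ((N / l : ℕ) : ℝ)) ^ (K + 1)) l (N / l)) : ℝ) := by
    exact_mod_cast hcov
  refine hcov'.trans (add_le_add ?_ ?_)
  · -- smooth part
    refine (few_large_smooth σ hσ0 hσ1 ((Real.log N) ^ a) T hT0 N).trans ?_
    rw [← hll]
    set z : ℝ := ll ^ a with hz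
    have hz1 : 2 ≤ z := by
      rw [hz]
      calc (2 : ℝ) ≤ 2 ^ (1 : ℝ) := by norm_num
        _ ≤ 2 ^ a := Real.rpow_le_rpow_of_exponent_le (by norm_num) (by linarith)
        _ ≤ ll ^ a := Real.rpow_le_rpow (by norm_num) (by linarith) ha0.le
    have hz0 : 0 < z := by linarith
    have hf : ((⌊z⌋₊ + 1 : ℕ) : ℝ) ≤ 2 * z := by
      push_cast
      have := Nat.floor_le hz0.le
      linarith
    have hf0 : (0 : ℝ) < ((⌊z⌋₊ + 1 : ℕ) : ℝ) := by positivity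
    have hfσ : ((⌊z⌋₊ + 1 : ℕ) : ℝ) ^ σ ≤ 2 * ll ^ (1 / 2 : ℝ) := by
      calc ((⌊z⌋₊ + 1 : ℕ) : ℝ) ^ σ ≤ (2 * z) ^ σ := Real.rpow_le_rpow hf0.le hf hσ0.le
        _ = 2 ^ σ * z ^ σ := Real.mul_rpow (by norm_num) hz0.le
        _ ≤ 2 ^ (1 : ℝ) * z ^ σ := by
            gcongr
            · norm_num
            · linarith
        _ = 2 * ll ^ (1 / 2 : ℝ) := by
            rw [Real.rpow_one, hz, ← Real.rpow_mul hll0.le]
            congr 2
            rw [hσ]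
            field_simp
    have hfl : 1 + Real.log ((⌊z⌋₊ + 1 : ℕ) : ℝ) ≤ 1 + 2 * a * Real.log ll := by
      have h1 : Real.log ((⌊z⌋₊ + 1 : ℕ) : ℝ) ≤ Real.log (z * z) := by
        apply Real.log_le_log hf0
        nlinarith
      rw [Real.log_mul hz0.ne' hz0.ne', hz, Real.log_rpow hll0] at h1
      linarith
    have hfl0 : 0 ≤ 1 + Real.log ((⌊z⌋₊ + 1 : ℕ) : ℝ) := by
      have : (1 : ℝ) ≤ ((⌊z⌋₊ + 1 : ℕ) : ℝ) := by push_cast; linarith [Nat.cast_nonneg (α := ℝ) ⌊z⌋₊]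
      linarith [Real.log_nonneg this]
    have hexp : Real.exp (5 / 2 * (((⌊z⌋₊ + 1 : ℕ) : ℝ) ^ σ *
        (1 + Real.log ((⌊z⌋₊ + 1 : ℕ) : ℝ)))) ≤ (N : ℝ) ^ (σ / 100) := by
      rw [Real.rpow_def_of_pos hN0]
      apply Real.exp_le_exp.2
      rw [← hll, mul_comm ll]
      refine le_trans ?_ e4
      gcongr
    have hTσ : T ^ (-σ) = (N : ℝ) ^ (-(σ / 10)) := by
      rw [hT, ← Real.rpow_mul hN0.le]
      congr 1
      ring
    calc (N : ℝ) * T ^ (-σ) * Real.exp (5 / 2 * (((⌊z⌋₊ + 1 : ℕ) : ℝ) ^ σ *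
          (1 + Real.log ((⌊z⌋₊ + 1 : ℕ) : ℝ))))
        ≤ (N : ℝ) * T ^ (-σ) * (N : ℝ) ^ (σ / 100) := by gcongr
      _ = (N : ℝ) ^ (1 + -(σ / 10) + σ / 100) := by
          rw [hTσ, Real.rpow_add hN0, Real.rpow_add hN0, Real.rpow_one]
      _ ≤ (N : ℝ) ^ (1 - 1 / (800 * K)) := by
          apply Real.rpow_le_rpow_of_exponent_le hN1
          linarith
  · -- rough part
    have hterm : ∀ l ∈ Icc 1 ⌊T⌋₊, (#(badS (Rg a) (dLin D hD) ε (2 * Real.log ((N / l : ℕ) : ℝ))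
        ((Real.log ((N / l : ℕ) : ℝ)) ^ (K + 1)) l (N / l)) : ℝ) ≤
        2 * (N : ℝ) ^ (17 / 20 : ℝ) := by
      intro l hl
      have hyl := hy l hl
      have hl' := mem_Icc.1 hl
      have hl0 : (0 : ℝ) < l := by exact_mod_cast hl'.1
      have hlT : (l : ℝ) ≤ T := (Nat.le_floor_iff hT0.le).1 hl'.2
      have h1 : Y₁ ≤ N / l := by
        have : (Y₁ : ℝ) ≤ ((N / l : ℕ) : ℝ) := by linarith
        exact_mod_cast this
      have h2 : Real.log l ≤ √((N / l : ℕ) : ℝ) := by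
        have h3 : Real.log l ≤ Real.log N := by
          apply Real.log_le_log hl0
          refine hlT.trans ?_
          calc T ≤ (N : ℝ) ^ (1 : ℝ) := Real.rpow_le_rpow_of_exponent_le hN1 (by norm_num)
            _ = N := Real.rpow_one _
        refine h3.trans (e2.trans ?_)
        rw [Real.sqrt_eq_rpow]
        calc (N : ℝ) ^ (1 / 4 : ℝ) = ((N : ℝ) ^ (1 / 2 : ℝ)) ^ (1 / 2 : ℝ) := by
              rw [← Real.rpow_mul hN0.le]; norm_num
          _ ≤ _ := Real.rpow_le_rpow (by positivity) hyl (by norm_num)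
      refine (hY₁ (N / l) h1 l hl'.1 h2).trans ?_
      gcongr
      exact Nat.div_le_self N l
    calc ∑ l ∈ Icc 1 ⌊T⌋₊, (#(badS (Rg a) (dLin D hD) ε (2 * Real.log ((N / l : ℕ) : ℝ))
          ((Real.log ((N / l : ℕ) : ℝ)) ^ (K + 1)) l (N / l)) : ℝ)
        ≤ ∑ _l ∈ Icc 1 ⌊T⌋₊, 2 * (N : ℝ) ^ (17 / 20 : ℝ) := sum_le_sum hterm
      _ = (⌊T⌋₊ : ℝ) * (2 * (N : ℝ) ^ (17 / 20 : ℝ)) := by
          rw [sum_const, nsmul_eq_mul, Nat.card_Icc, Nat.add_sub_cancel]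
      _ ≤ T * (2 * (N : ℝ) ^ (17 / 20 : ℝ)) := by
          gcongr
          exact Nat.floor_le hT0.le
      _ = 2 * (N : ℝ) ^ (19 / 20 : ℝ) := by
          rw [hT]
          have : (N : ℝ) ^ (19 / 20 : ℝ) = (N : ℝ) ^ (1 / 10 : ℝ) * (N : ℝ) ^ (17 / 20 : ℝ) := by
            rw [← Real.rpow_add hN0]; norm_num
          rw [this]; ring

end Pool.Agent.W171.EP
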